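import Mathlib

set_option autoImplicit false

/-!
Space curves of genus four in characteristic two: quadric and cubic forms in four variables,
smoothness of their intersection, the Hasse-Witt matrix and its stable rank.
-/

namespace Pool.Agent.Lib.MP_60c747_ag

open MvPolynomial

/-- Exponent vectors of total degree `d` in four variables. -/
abbrev Mon (d : ℕ) : Type := {m : Fin 4 → Fin (d + 1) // ∑ i, (m i : ℕ) = d}

/-- An exponent vector as a finitely supported function. -/
noncomputable def exv (e : Fin 4 → ℕ) : Fin 4 →₀ ℕ := Finsupp.equivFunOnFinite.symm e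

/-- The exponent of an element of `Mon d`. -/
noncomputable def ex {d : ℕ} (m : Mon d) : Fin 4 →₀ ℕ := exv (fun i => (m.1 i : ℕ))

/-- The form of degree `d` in four variables with coefficient vector `a`. -/
noncomputable def form {R : Type*} [CommRing R] {d : ℕ} (a : Mon d → R) :
    MvPolynomial (Fin 4) R :=
  ∑ m, monomial (ex m) (a m)

/-- The quadric and the cubic form with the given coefficients. -/
noncomputable def quadric {R : Type*} [CommRing R] (c : Mon 2 ⊕ Mon 3 → R) :
    MvPolynomial (Fin 4) R :=
  form (fun m => c (Sum.inl m))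

/-- The cubic form with the given coefficients. -/
noncomputable def cubic {R : Type*} [CommRing R] (c : Mon 2 ⊕ Mon 3 → R) :
    MvPolynomial (Fin 4) R :=
  form (fun m => c (Sum.inr m))

/-- Jacobian criterion: at every nonzero common zero of `Q` and `F` the two gradients are
linearly independent. -/
def SmoothPair {k : Type*} [Field k] (Q F : MvPolynomial (Fin 4) k) : Prop :=
  ∀ x : Fin 4 → k, x ≠ 0 → eval x Q = 0 → eval x F = 0 →
    ∀ s t : k, (∀ i, s * eval x (pderiv i Q) + t * eval x (pderiv i F) = 0) → s = 0 ∧ t = 0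

/-- The Hasse-Witt matrix in characteristic two: the `(i, j)` entry is the coefficient of
`x₀ x₁ x₂ x₃ xᵢ² / xⱼ` in `U = Q F`. -/
noncomputable def HW {R : Type*} [CommRing R] (U : MvPolynomial (Fin 4) R) :
    Matrix (Fin 4) (Fin 4) R :=
  fun i j => coeff (exv fun l => 1 + (if l = i then 2 else 0) - (if l = j then 1 else 0)) U

/-- Entrywise squares of a matrix. -/
def fr {R : Type*} [CommRing R] {m n : Type*} (A : Matrix m n R) : Matrix m n R :=
  A.map (fun x => x ^ 2)

/-- The matrix of the `m`-th power of the Frobenius-semilinear map with matrix `A`: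
`it A m = A^(2^(m-1)) ⋯ A^(2) A` (powers taken entrywise). -/
def it {R : Type*} [CommRing R] {n : Type*} [Fintype n] [DecidableEq n] (A : Matrix n n R) :
    ℕ → Matrix n n R
  | 0 => 1
  | m + 1 => fr (it A m) * A

/-- The `p`-rank (for `p = 2`) of the curve `Q = F = 0`: the rank of the fourth iterate of the
Hasse-Witt matrix, i.e. the dimension of the stable part of Frobenius on `H¹(O)`. -/
noncomputable def prank {k : Type*} [Field k] (Q F : MvPolynomial (Fin 4) k) : ℕ :=
  (it (HW (Q * F)) 4).rank

/-- The coefficient vectors of the pairs (quadric, cubic) defining a smooth curve (of genus four)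
with `p`-rank `f`. -/
def S (k : Type*) [Field k] (f : ℕ) : Set (Mon 2 ⊕ Mon 3 → k) :=
  {c | SmoothPair (quadric c) (cubic c) ∧ prank (quadric c) (cubic c) = f}

/-- Irreducibility (Zariski topology) of a subset of affine space, possibly empty: if a product of
two polynomials vanishes on it then one of the factors does. -/
def Irr {k σ : Type*} [Field k] (T : Set (σ → k)) : Prop :=
  ∀ G H : MvPolynomial σ k, (∀ x ∈ T, eval x (G * H) = 0) →
    (∀ x ∈ T, eval x G = 0) ∨ (∀ x ∈ T, eval x H = 0)

/-- Zariski closure of a subset of affine space. -/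
def Cl {k σ : Type*} [Field k] (T : Set (σ → k)) : Set (σ → k) :=
  {x | ∀ G : MvPolynomial σ k, (∀ y ∈ T, eval y G = 0) → eval x G = 0}

/-- Linear substitution: `(act g U)(x) = U(g x)`. -/
noncomputable def act {R : Type*} [CommRing R] (g : Matrix (Fin 4) (Fin 4) R) :
    MvPolynomial (Fin 4) R →ₐ[R] MvPolynomial (Fin 4) R :=
  aeval (fun i => ∑ j, C (g i j) * X j)

/-- The split quadric. -/
noncomputable def Qstd (R : Type*) [CommRing R] : MvPolynomial (Fin 4) R :=
  X 0 * X 1 + X 2 * X 3

/-- The family of quadrics degenerating to the cone `x₀ x₁ + x₂²`. -/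
noncomputable def Qs {R : Type*} [CommRing R] (s : R) : MvPolynomial (Fin 4) R :=
  X 0 * X 1 + X 2 ^ 2 + C s * (X 2 * X 3)

/-- The linear form with coefficient vector `l`. -/
noncomputable def lin {R : Type*} [CommRing R] (l : Fin 4 → R) : MvPolynomial (Fin 4) R :=
  ∑ j, C (l j) * X j

/-- A point of the affine space of matrices as a matrix. -/
def mt {R : Type*} {N : ℕ} (x : Fin N × Fin N → R) : Matrix (Fin N) (Fin N) R :=
  fun i j => x (i, j)

/-- The matrices of stable rank at most `f`. -/
def RS (k : Type*) [Field k] (N f : ℕ) : Set (Fin N × Fin N → k) :=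
  {x | (it (mt x) N).rank ≤ f}

/-- The six linear conditions for a matrix to be a Hasse-Witt matrix of a cone. -/
def kap {R : Type*} [CommRing R] (A : Matrix (Fin 4) (Fin 4) R) : Fin 6 → R :=
  ![A 0 1, A 1 0, A 3 0, A 3 1, A 2 1 + A 0 0, A 2 0 + A 1 1]

/-- The system of parameters: `12 + f` linear forms on the space of matrices. -/
def lam {R : Type*} [CommRing R] (f : ℕ) (α : Fin 4 → R) (A : Matrix (Fin 4) (Fin 4) R) :
    Fin 6 ⊕ (Fin 6 ⊕ Fin f) → R :=
  Sum.elim (kap A) (Sum.elim ![A 0 2, A 0 3, A 1 2, A 1 3, A 2 3, A 3 2]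
    (fun t => ∑ i, α i ^ (t : ℕ) * A i i))

end Pool.Agent.Lib.MP_60c747_ag
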