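import Pool.Agent.Lib.MP_60c747_ag.Iter

set_option autoImplicit false

/-!
The system of parameters.
-/

namespace Pool.Agent.Lib.MP_60c747_ag

/-- The iterates of a lower triangular matrix are lower triangular, with diagonal entries
`A i i ^ (2 ^ m - 1)`. -/
private theorem lin_it_lower {k : Type*} [Field k] {N : ℕ} {A : Matrix (Fin N) (Fin N) k}
    (hA : ∀ i j : Fin N, i < j → A i j = 0) (m : ℕ) :
    (∀ i j : Fin N, i < j → it A m i j = 0) ∧ ∀ i : Fin N, it A m i i = A i i ^ (2 ^ m - 1) := by
  induction m with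
  | zero =>
      refine ⟨fun i j hij => ?_, fun i => ?_⟩
      · show (1 : Matrix (Fin N) (Fin N) k) i j = 0
        exact Matrix.one_apply_ne hij.ne
      · show (1 : Matrix (Fin N) (Fin N) k) i i = _
        simp
  | succ m ih =>
      obtain ⟨h1, h2⟩ := ih
      have h3 : ∀ i j : Fin N, it A (m + 1) i j = ∑ l, it A m i l ^ 2 * A l j := fun i j => rfl
      refine ⟨fun i j hij => ?_, fun i => ?_⟩
      · rw [h3]
        refine Finset.sum_eq_zero fun l _ => ?_
        rcases lt_or_ge i l with hl | hl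
        · rw [h1 i l hl]; ring
        · rw [hA l j (lt_of_le_of_lt hl hij), mul_zero]
      · rw [h3, Finset.sum_eq_single i]
        · rw [h2 i]
          have h4 : 1 ≤ 2 ^ m := Nat.one_le_two_pow
          have h5 : 2 ^ (m + 1) - 1 = (2 ^ m - 1) * 2 + 1 := by
            rw [pow_succ]; omega
          rw [h5]; ring
        · intro l _ hl
          rcases lt_or_gt_of_ne hl with hl' | hl'
          · rw [hA l i hl', mul_zero]
          · rw [h1 i l hl']; ring
        · intro h; exact absurd (Finset.mem_univ i) h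

/-- A lower triangular matrix all of whose iterates have rank at most `f` has at most `f` nonzero
diagonal entries (the iterates are lower triangular with diagonal entries `A i i ^ (2 ^ m - 1)`;
the submatrix on the indices with `A i i ≠ 0` is invertible). -/
theorem card_diag_le {k : Type*} [Field k] [CharP k 2] {N m f : ℕ} {A : Matrix (Fin N) (Fin N) k}
    [DecidableEq k]
    (hA : ∀ i j : Fin N, i < j → A i j = 0) (h : (it A m).rank ≤ f) :
    (Finset.univ.filter fun i => A i i ≠ 0).card ≤ f := by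
  obtain ⟨h1, h2⟩ := lin_it_lower hA m
  have h3 : ((it A m).submatrix (Subtype.val : {i : Fin N // A i i ≠ 0} → Fin N)
      Subtype.val).det ≠ 0 := by
    rw [Matrix.det_of_isLowerTriangular]
    · refine Finset.prod_ne_zero_iff.mpr fun i _ => ?_
      rw [Matrix.submatrix_apply, h2]
      exact pow_ne_zero _ i.2
    · intro i j hij
      rw [Matrix.submatrix_apply]
      exact h1 _ _ hij
  have h4 : ((it A m).submatrix (Subtype.val : {i : Fin N // A i i ≠ 0} → Fin N)
      (Subtype.val : {i : Fin N // A i i ≠ 0} → Fin N)).rank =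
      Fintype.card {i : Fin N // A i i ≠ 0} := by
    apply Matrix.rank_of_isUnit
    rw [Matrix.isUnit_iff_isUnit_det]
    exact isUnit_iff_ne_zero.mpr h3
  have h5 := Matrix.rank_submatrix_le (it A m)
    (Subtype.val : {i : Fin N // A i i ≠ 0} → Fin N)
    (Subtype.val : {i : Fin N // A i i ≠ 0} → Fin N)
  rw [h4, Fintype.card_subtype] at h5
  exact h5.trans h

/-- Vandermonde: a vector with at most `f` nonzero entries satisfying the first `f` Vandermonde
equations vanishes. -/
theorem vandermonde_sparse {k : Type*} [Field k] [DecidableEq k] {α c : Fin 4 → k} {f : ℕ}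
    (hα : Function.Injective α) (hc : (Finset.univ.filter fun i => c i ≠ 0).card ≤ f)
    (h : ∀ t : Fin f, ∑ i, α i ^ (t : ℕ) * c i = 0) : c = 0 := by
  obtain ⟨n, hn⟩ : ∃ n, (Finset.univ.filter fun i => c i ≠ 0).card = n := ⟨_, rfl⟩
  have e := ((Finset.univ.filter fun i => c i ≠ 0).equivFinOfCardEq hn).symm
  have h0 : (fun j : Fin n => c (e j).1) = 0 := by
    refine Matrix.eq_zero_of_forall_pow_sum_mul_pow_eq_zero (f := fun j : Fin n => α (e j).1) ?_ ?_
    · intro a b hab
      exact e.injective (Subtype.ext (hα hab))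
    · intro t
      have ht : (t : ℕ) < f := lt_of_lt_of_le t.2 (hn ▸ hc)
      have h1 := h ⟨t, ht⟩
      have h2 : ∑ i ∈ Finset.univ.filter (fun i => c i ≠ 0), α i ^ (t : ℕ) * c i = 0 := by
        rw [Finset.sum_filter_of_ne]
        · exact h1
        · intro x _ hx hcx
          exact hx (by rw [hcx, mul_zero])
      rw [← Finset.sum_coe_sort, ← e.sum_comp] at h2
      exact (Finset.sum_congr rfl fun j _ => mul_comm _ _).trans h2
  funext i
  by_contra hi
  have hi' : c i ≠ 0 := hi
  have hmem : i ∈ Finset.univ.filter fun i => c i ≠ 0 := by simp [hi']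
  have h1 := congrFun h0 (e.symm ⟨i, hmem⟩)
  simp only [Equiv.apply_symm_apply, Pi.zero_apply] at h1
  exact hi' h1

/-- The `12 + f` linear forms have no common nonzero zero among the matrices of stable rank at
most `f`: such an `A` is `[c₀ 0 0 0; 0 c₁ 0 0; c₁ c₀ c₂ 0; 0 0 0 c₃]`. -/
theorem eq_zero_of_lam {k : Type*} [Field k] [CharP k 2] {α : Fin 4 → k} {f : ℕ}
    (hα : Function.Injective α) {A : Matrix (Fin 4) (Fin 4) k} (hA : (it A 4).rank ≤ f)
    (h : lam f α A = 0) : A = 0 := by
  classical
  have k0 : A 0 1 = 0 := congrFun h (Sum.inl 0)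
  have k1 : A 1 0 = 0 := congrFun h (Sum.inl 1)
  have k2 : A 3 0 = 0 := congrFun h (Sum.inl 2)
  have k3 : A 3 1 = 0 := congrFun h (Sum.inl 3)
  have k4 : A 2 1 + A 0 0 = 0 := congrFun h (Sum.inl 4)
  have k5 : A 2 0 + A 1 1 = 0 := congrFun h (Sum.inl 5)
  have l0 : A 0 2 = 0 := congrFun h (Sum.inr (Sum.inl 0))
  have l1 : A 0 3 = 0 := congrFun h (Sum.inr (Sum.inl 1))
  have l2 : A 1 2 = 0 := congrFun h (Sum.inr (Sum.inl 2))
  have l3 : A 1 3 = 0 := congrFun h (Sum.inr (Sum.inl 3))
  have l4 : A 2 3 = 0 := congrFun h (Sum.inr (Sum.inl 4))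
  have l5 : A 3 2 = 0 := congrFun h (Sum.inr (Sum.inl 5))
  have hv : ∀ t : Fin f, ∑ i, α i ^ (t : ℕ) * A i i = 0 := fun t =>
    congrFun h (Sum.inr (Sum.inr t))
  have hlow : ∀ i j : Fin 4, i < j → A i j = 0 := by
    intro i j hij
    fin_cases i <;> fin_cases j <;> first | exact absurd hij (by decide) | assumption
  have hcard := card_diag_le hlow hA
  have hd : (fun i => A i i) = 0 := vandermonde_sparse hα hcard hv
  have d0 : A 0 0 = 0 := congrFun hd 0
  have d1 : A 1 1 = 0 := congrFun hd 1
  have d2 : A 2 2 = 0 := congrFun hd 2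
  have d3 : A 3 3 = 0 := congrFun hd 3
  rw [d0, add_zero] at k4
  rw [d1, add_zero] at k5
  ext i j
  rw [Matrix.zero_apply]
  fin_cases i <;> fin_cases j <;> assumption

end Pool.Agent.Lib.MP_60c747_ag
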