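import Pool.Agent.Lib.MP_60c747_ag.Iter

set_option autoImplicit false

/-!
Polynomial functions, irreducible sets and closures.
-/

namespace Pool.Agent.Lib.MP_60c747_ag

open MvPolynomial

variable {k τ σ : Type*} [Field k]

/-- Polynomial functions on an affine space. -/
def PF (φ : (τ → k) → k) : Prop := ∃ P : MvPolynomial τ k, ∀ y, φ y = eval y P

/-- Families of polynomials in four variables depending polynomially on parameters. -/
def PFm (φ : (τ → k) → MvPolynomial (Fin 4) k) : Prop :=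
  ∃ P : MvPolynomial (Fin 4) (MvPolynomial τ k), ∀ y, φ y = MvPolynomial.map (eval y) P

theorem PF.const (c : k) : PF (fun _ : τ → k => c) :=
  ⟨MvPolynomial.C c, fun y => by simp⟩

theorem PF.coord (t : τ) : PF (fun y : τ → k => y t) :=
  ⟨X t, fun y => by simp⟩

theorem PF.add {φ ψ : (τ → k) → k} (h : PF φ) (h' : PF ψ) : PF (fun y => φ y + ψ y) := by
  obtain ⟨P, hP⟩ := h
  obtain ⟨Q, hQ⟩ := h'
  exact ⟨P + Q, fun y => by simp [hP, hQ]⟩

theorem PF.mul {φ ψ : (τ → k) → k} (h : PF φ) (h' : PF ψ) : PF (fun y => φ y * ψ y) := by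
  obtain ⟨P, hP⟩ := h
  obtain ⟨Q, hQ⟩ := h'
  exact ⟨P * Q, fun y => by simp [hP, hQ]⟩

theorem PF.pow {φ : (τ → k) → k} (h : PF φ) (n : ℕ) : PF (fun y => φ y ^ n) := by
  obtain ⟨P, hP⟩ := h
  exact ⟨P ^ n, fun y => by simp [hP]⟩

theorem PF.sum {ι : Type*} (s : Finset ι) {φ : ι → (τ → k) → k} (h : ∀ i ∈ s, PF (φ i)) :
    PF (fun y => ∑ i ∈ s, φ i y) := by
  classical
  have h' : ∀ i, ∃ P : MvPolynomial τ k, i ∈ s → ∀ y, φ i y = eval y P := by
    intro i
    by_cases hi : i ∈ s
    · obtain ⟨P, hP⟩ := h i hi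
      exact ⟨P, fun _ => hP⟩
    · exact ⟨0, fun h => absurd h hi⟩
  choose P hP using h'
  refine ⟨∑ i ∈ s, P i, fun y => ?_⟩
  rw [map_sum]
  exact Finset.sum_congr rfl fun i hi => hP i hi y

/-- Substituting polynomial functions into a polynomial. -/
theorem PF.comp {φ : σ → (τ → k) → k} (h : ∀ s, PF (φ s)) (G : MvPolynomial σ k) :
    PF (fun y => eval (fun s => φ s y) G) := by
  choose P hP using h
  refine ⟨bind₁ P G, fun y => ?_⟩
  have h1 : (fun s => φ s y) = fun s => eval y (P s) := funext fun s => hP s y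
  change eval (fun s => φ s y) G = _
  rw [h1]
  exact (eval₂Hom_bind₁ (RingHom.id k) y P G).symm

theorem PF.matrix_mul {l m o : Type*} [Fintype m] {M : (τ → k) → Matrix l m k}
    {N : (τ → k) → Matrix m o k} (hM : ∀ i j, PF fun y => M y i j)
    (hN : ∀ i j, PF fun y => N y i j) (i : l) (j : o) : PF fun y => (M y * N y) i j := by
  have h : PF (fun y => ∑ x, M y i x * N y x j) :=
    PF.sum Finset.univ fun x _ => (hM i x).mul (hN x j)
  simpa only [Matrix.mul_apply] using h

theorem PF.det {n : Type*} [Fintype n] [DecidableEq n] {M : (τ → k) → Matrix n n k}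
    (hM : ∀ i j, PF fun y => M y i j) : PF fun y => (M y).det := by
  choose P hP using hM
  refine ⟨(Matrix.of fun i j => P i j).det, fun y => ?_⟩
  change (M y).det = _
  rw [RingHom.map_det]
  have h2 : M y = (eval y).mapMatrix (Matrix.of fun i j => P i j) := by
    ext i j
    exact hP i j y
  rw [h2]

theorem PF.adjugate {n : Type*} [Fintype n] [DecidableEq n] {M : (τ → k) → Matrix n n k}
    (hM : ∀ i j, PF fun y => M y i j) (i j : n) : PF fun y => (M y).adjugate i j := by
  simp only [Matrix.adjugate_apply]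
  refine PF.det fun a b => ?_
  by_cases h : a = j
  · subst h
    simp only [Matrix.updateRow_self]
    exact PF.const _
  · simp only [Matrix.updateRow_ne h]
    exact hM a b

theorem PF.fr {m n : Type*} {M : (τ → k) → Matrix m n k}
    (hM : ∀ i j, PF fun y => M y i j) (i : m) (j : n) : PF fun y => (fr (M y)) i j :=
  (hM i j).pow 2

theorem PF.it {n : Type*} [Fintype n] [DecidableEq n] {M : (τ → k) → Matrix n n k}
    (hM : ∀ i j, PF fun y => M y i j) (m : ℕ) (i j : n) : PF fun y => (it (M y) m) i j := by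
  induction m generalizing i j with
  | zero => exact PF.const _
  | succ m ih =>
      have h : ∀ y, Pool.Agent.Lib.MP_60c747_ag.it (M y) (m + 1) =
        Pool.Agent.Lib.MP_60c747_ag.fr (Pool.Agent.Lib.MP_60c747_ag.it (M y) m) * M y :=
        fun y => rfl
      simp only [h]
      exact PF.matrix_mul (fun i j => PF.fr ih i j) hM i j

theorem PFm.C {φ : (τ → k) → k} (h : PF φ) : PFm (fun y => MvPolynomial.C (φ y)) := by
  obtain ⟨P, hP⟩ := h
  exact ⟨MvPolynomial.C P, fun y => by rw [map_C, ← hP]⟩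

theorem PFm.const (U : MvPolynomial (Fin 4) k) : PFm (fun _ : τ → k => U) := by
  refine ⟨MvPolynomial.map MvPolynomial.C U, fun y => ?_⟩
  rw [map_map]
  have : (eval y).comp MvPolynomial.C = RingHom.id k := by
    ext c; simp
  rw [this, map_id]

theorem PFm.add {φ ψ : (τ → k) → MvPolynomial (Fin 4) k} (h : PFm φ) (h' : PFm ψ) :
    PFm (fun y => φ y + ψ y) := by
  obtain ⟨P, hP⟩ := h
  obtain ⟨Q, hQ⟩ := h'
  exact ⟨P + Q, fun y => by simp [hP, hQ]⟩

theorem PFm.mul {φ ψ : (τ → k) → MvPolynomial (Fin 4) k} (h : PFm φ) (h' : PFm ψ) :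
    PFm (fun y => φ y * ψ y) := by
  obtain ⟨P, hP⟩ := h
  obtain ⟨Q, hQ⟩ := h'
  exact ⟨P * Q, fun y => by simp [hP, hQ]⟩

theorem PFm.sum {ι : Type*} (s : Finset ι) {φ : ι → (τ → k) → MvPolynomial (Fin 4) k}
    (h : ∀ i ∈ s, PFm (φ i)) : PFm (fun y => ∑ i ∈ s, φ i y) := by
  classical
  have h' : ∀ i, ∃ P : MvPolynomial (Fin 4) (MvPolynomial τ k),
      i ∈ s → ∀ y, φ i y = MvPolynomial.map (eval y) P := by
    intro i
    by_cases hi : i ∈ s
    · obtain ⟨P, hP⟩ := h i hi
      exact ⟨P, fun _ => hP⟩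
    · exact ⟨0, fun h => absurd h hi⟩
  choose P hP using h'
  refine ⟨∑ i ∈ s, P i, fun y => ?_⟩
  rw [map_sum]
  exact Finset.sum_congr rfl fun i hi => hP i hi y

private theorem poly_map_act {R R' : Type*} [CommRing R] [CommRing R'] (f : R →+* R')
    (g : Matrix (Fin 4) (Fin 4) R) (U : MvPolynomial (Fin 4) R) :
    MvPolynomial.map f (act g U) = act (g.map f) (MvPolynomial.map f U) := by
  induction U using MvPolynomial.induction_on with
  | C a => simp [act]
  | add p q hp hq => simp only [map_add, hp, hq]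
  | mul_X p i hp =>
      simp only [map_mul, hp, map_X]
      congr 1
      simp [act]

theorem PFm.act {g : (τ → k) → Matrix (Fin 4) (Fin 4) k} {φ : (τ → k) → MvPolynomial (Fin 4) k}
    (hg : ∀ i j, PF fun y => g y i j) (h : PFm φ) : PFm (fun y => act (g y) (φ y)) := by
  choose P hP using hg
  obtain ⟨Q, hQ⟩ := h
  refine ⟨Pool.Agent.Lib.MP_60c747_ag.act (Matrix.of fun i j => P i j) Q, fun y => ?_⟩
  have h1 : φ y = MvPolynomial.map (eval y) Q := hQ y
  have h2 : g y = (Matrix.of fun i j => P i j).map (eval y) := by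
    ext i j
    exact hP i j y
  change Pool.Agent.Lib.MP_60c747_ag.act (g y) (φ y) = _
  rw [poly_map_act, h1, h2]

theorem PFm.coeff {φ : (τ → k) → MvPolynomial (Fin 4) k} (h : PFm φ) (m : Fin 4 →₀ ℕ) :
    PF (fun y => MvPolynomial.coeff m (φ y)) := by
  obtain ⟨P, hP⟩ := h
  exact ⟨MvPolynomial.coeff m P, fun y => by
    change MvPolynomial.coeff m (φ y) = _
    rw [hP, coeff_map]⟩

/-- The quadric and cubic depend polynomially on their coefficient vector. -/
theorem PFm.form {d : ℕ} {a : (τ → k) → Mon d → k} (h : ∀ m, PF fun y => a y m) :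
    PFm (fun y => form (a y)) := by
  choose P hP using h
  refine ⟨Pool.Agent.Lib.MP_60c747_ag.form (fun m => P m), fun y => ?_⟩
  simp only [Pool.Agent.Lib.MP_60c747_ag.form, map_sum, map_monomial]
  exact Finset.sum_congr rfl fun m _ => congrArg _ (hP m y)

/-- A set which is all of affine space is irreducible (infinite field). -/
theorem irr_univ [Infinite k] : Irr (Set.univ : Set (τ → k)) := by
  intro G H h
  have h1 : G * H = 0 := MvPolynomial.funext fun x => by
    rw [h x (Set.mem_univ x), map_zero]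
  rcases mul_eq_zero.1 h1 with h2 | h2
  · exact Or.inl fun x _ => by rw [h2, map_zero]
  · exact Or.inr fun x _ => by rw [h2, map_zero]

/-- The image of an irreducible set under a polynomial map is irreducible. -/
theorem Irr.image {T : Set (τ → k)} (hT : Irr T) {φ : (τ → k) → σ → k}
    (hφ : ∀ s, PF fun y => φ y s) : Irr (φ '' T) := by
  intro G H h
  obtain ⟨G', hG'⟩ := PF.comp (φ := fun s y => φ y s) hφ G
  obtain ⟨H', hH'⟩ := PF.comp (φ := fun s y => φ y s) hφ H
  have h1 : ∀ y ∈ T, eval y (G' * H') = 0 := by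
    intro y hy
    have h2 := h (φ y) ⟨y, hy, rfl⟩
    rw [map_mul] at h2 ⊢
    rw [← hG' y, ← hH' y]
    exact h2
  rcases hT G' H' h1 with h2 | h2
  · refine Or.inl ?_
    rintro _ ⟨y, hy, rfl⟩
    exact (hG' y).trans (h2 y hy)
  · refine Or.inr ?_
    rintro _ ⟨y, hy, rfl⟩
    exact (hH' y).trans (h2 y hy)

/-- A relatively open subset of an irreducible set is irreducible. -/
theorem Irr.inter_open {T U : Set (σ → k)} (hT : Irr T)
    (hU : ∀ x ∈ T, x ∈ U → ∃ P : MvPolynomial σ k, eval x P ≠ 0 ∧ ∀ y ∈ T, eval y P ≠ 0 → y ∈ U) :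
    Irr (T ∩ U) := by
  intro G H h
  by_contra hcon
  push Not at hcon
  obtain ⟨⟨x₁, hx₁, hG⟩, x₂, hx₂, hH⟩ := hcon
  obtain ⟨P₁, hP₁, hP₁'⟩ := hU x₁ hx₁.1 hx₁.2
  obtain ⟨P₂, hP₂, _⟩ := hU x₂ hx₂.1 hx₂.2
  have h1 : ∀ y ∈ T, eval y (G * P₁ * (H * P₂)) = 0 := by
    intro y hy
    by_cases h2 : eval y P₁ = 0
    · simp [h2]
    · have h3 := h y ⟨hy, hP₁' y hy h2⟩
      have h4 : G * P₁ * (H * P₂) = G * H * (P₁ * P₂) := by ring
      rw [h4, map_mul, h3, zero_mul]
  rcases hT _ _ h1 with h2 | h2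
  · have h3 := h2 x₁ hx₁.1
    rw [map_mul] at h3
    exact (mul_ne_zero hG hP₁) h3
  · have h3 := h2 x₂ hx₂.1
    rw [map_mul] at h3
    exact (mul_ne_zero hH hP₂) h3

theorem Irr.cl {T : Set (σ → k)} (hT : Irr T) : Irr (Cl T) := by
  intro G H h
  have h1 : ∀ x ∈ T, eval x (G * H) = 0 := fun x hx => h x fun G' hG' => hG' x hx
  rcases hT G H h1 with h2 | h2
  · exact Or.inl fun x hx => hx G h2
  · exact Or.inr fun x hx => hx H h2

theorem subset_cl (T : Set (σ → k)) : T ⊆ Cl T := by
  exact fun x hx G hG => hG x hx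

/-- Matrices of rank at least `r` form an open set: if `r ≤ rank (M c₀)` choose constant matrices
`U : r × n`, `V : n × r` with `U * M c₀ * V` invertible and let `P = det (U * M c * V)`. -/
theorem rank_open {n : Type*} [Fintype n] [DecidableEq n] {M : (τ → k) → Matrix n n k}
    (hM : ∀ i j, PF fun y => M y i j) {c₀ : τ → k} {r : ℕ} (h : r ≤ (M c₀).rank) :
    ∃ P : MvPolynomial τ k, eval c₀ P ≠ 0 ∧ ∀ c, eval c P ≠ 0 → r ≤ (M c).rank := by
  rw [Matrix.rank] at h
  obtain ⟨v, hv⟩ := exists_linearIndependent_of_le_finrank h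
  have hw : ∀ i, ∃ w : n → k, (M c₀).mulVec w = (v i : n → k) := fun i => by
    obtain ⟨w, hw⟩ := LinearMap.mem_range.1 (v i).2
    exact ⟨w, hw⟩
  choose w hw using hw
  have hv' : LinearIndependent k (fun i => (v i : n → k)) :=
    hv.map' (LinearMap.range (M c₀).mulVecLin).subtype (Submodule.ker_subtype _)
  let V : Matrix n (Fin r) k := Matrix.of fun a i => w i a
  have hcol : ∀ x : Fin r → k, (M c₀ * V).mulVec x = ∑ i, x i • (v i : n → k) := by
    intro x
    rw [← Matrix.mulVec_mulVec]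
    have h1 : V.mulVec x = ∑ i, x i • w i := by
      ext a
      simp only [V, Matrix.mulVec, dotProduct, Matrix.of_apply, Finset.sum_apply, Pi.smul_apply,
        smul_eq_mul]
      exact Finset.sum_congr rfl fun i _ => mul_comm _ _
    rw [h1, Matrix.mulVec_sum]
    refine Finset.sum_congr rfl fun i _ => ?_
    rw [Matrix.mulVec_smul, hw]
  have hinj : LinearMap.ker (M c₀ * V).mulVecLin = ⊥ := by
    rw [LinearMap.ker_eq_bot']
    intro x hx
    have h2 : ∑ i, x i • (v i : n → k) = 0 := by rw [← hcol]; exact hx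
    funext i
    exact Fintype.linearIndependent_iff.1 hv' x h2 i
  obtain ⟨u, hu⟩ := LinearMap.exists_leftInverse_of_injective _ hinj
  let U : Matrix (Fin r) n k := LinearMap.toMatrix' u
  have hUV : U * (M c₀ * V) = 1 := by
    have h3 : LinearMap.toMatrix' ((M c₀ * V).mulVecLin) = M c₀ * V :=
      LinearMap.toMatrix'_toLin' _
    rw [← h3, ← LinearMap.toMatrix'_comp, hu, LinearMap.toMatrix'_id]
  have hPF : PF fun y => (U * (M y * V)).det := by
    refine PF.det fun i j => ?_
    refine PF.matrix_mul (M := fun _ => U) (N := fun y => M y * V) (fun i j => PF.const _)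
      (fun i j => ?_) i j
    exact PF.matrix_mul (M := M) (N := fun _ => V) hM (fun i j => PF.const _) i j
  obtain ⟨P, hP⟩ := hPF
  refine ⟨P, ?_, ?_⟩
  · rw [← hP]
    simp only [hUV, Matrix.det_one]
    exact one_ne_zero
  · intro c hc
    rw [← hP] at hc
    have h4 : IsUnit (U * (M c * V)) := (Matrix.isUnit_iff_isUnit_det _).2 (isUnit_iff_ne_zero.2 hc)
    have h5 := Matrix.rank_of_isUnit _ h4
    rw [Fintype.card_fin] at h5
    calc r = (U * (M c * V)).rank := h5.symm
      _ ≤ (M c * V).rank := Matrix.rank_mul_le_right _ _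
      _ ≤ (M c).rank := Matrix.rank_mul_le_left _ _

/-- Rank at most `r` passes to the closure. -/
theorem rank_cl {n : Type*} [Fintype n] [DecidableEq n] {M : (τ → k) → Matrix n n k}
    (hM : ∀ i j, PF fun y => M y i j) {T : Set (τ → k)} {r : ℕ}
    (h : ∀ c ∈ T, (M c).rank ≤ r) {c : τ → k} (hc : c ∈ Cl T) : (M c).rank ≤ r := by
  by_contra hcon
  push Not at hcon
  obtain ⟨P, hP, hP'⟩ := rank_open hM (c₀ := c) (r := r + 1) hcon
  refine hP (hc P fun y hy => ?_)
  by_contra h2
  have h3 := hP' y h2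
  have h4 := h y hy
  omega

end Pool.Agent.Lib.MP_60c747_ag
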