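import Pool.Agent.Lib.MP_60c747_ag.Flag
import Pool.Agent.Lib.MP_60c747_ag.Poly

set_option autoImplicit false

/-!
The set of matrices of stable rank at most `f`.
-/

namespace Pool.Agent.Lib.MP_60c747_ag

open MvPolynomial

variable {k : Type*} [Field k] [CharP k 2]

/-- Put zeros at the places where `Cut n` requires them. -/
def cutoff {R : Type*} [CommRing R] {N : ℕ} (n : ℕ) (B : Matrix (Fin N) (Fin N) R) :
    Matrix (Fin N) (Fin N) R :=
  fun i j => if (i : ℕ) < n ∧ i ≤ j then 0 else B i j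

/-- The parametrisation of the matrices of stable rank at most `f`. -/
def psi {R : Type*} [CommRing R] (f : ℕ) (g B : Matrix (Fin 4) (Fin 4) R) :
    Matrix (Fin 4) (Fin 4) R :=
  (fr g).adjugate * cutoff (4 - f) B * g

private theorem rset_cut {R : Type*} [CommRing R] {N : ℕ} (n : ℕ) (B : Matrix (Fin N) (Fin N) R) :
    Cut n (cutoff n B) := by
  intro i j hi hij
  unfold cutoff
  rw [if_pos ⟨hi, hij⟩]

private theorem rset_cutoff {R : Type*} [CommRing R] {N n : ℕ} {B : Matrix (Fin N) (Fin N) R}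
    (h : Cut n B) : cutoff n B = B := by
  ext i j
  unfold cutoff
  split_ifs with h1
  · exact (h i j h1.1 h1.2).symm
  · rfl

private theorem rset_det {g : Matrix (Fin 4) (Fin 4) k} (hg : IsUnit g.det) :
    (fr g).det ≠ 0 := by
  rw [det_fr]
  exact pow_ne_zero 2 hg.ne_zero

/-- `psi f g B` has stable rank at most `f` when `g` is invertible: `(cutoff _ B) * g` is
`(det (fr g))⁻¹ • (fr g * psi f g B)`; use `rank_it_conj` and `rank_of_cut`. -/
theorem rank_psi {f : ℕ} (hf : f ≤ 4) {g B : Matrix (Fin 4) (Fin 4) k} (hg : IsUnit g.det) :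
    (it (psi f g B) 4).rank ≤ f := by
  have hd := rset_det hg
  have h1 : cutoff (4 - f) B * g = ((fr g).det)⁻¹ • (fr g * psi f g B) := by
    have h2 : fr g * psi f g B = (fr g).det • (cutoff (4 - f) B * g) := by
      unfold psi
      rw [Matrix.mul_assoc, ← Matrix.mul_assoc (fr g), Matrix.mul_adjugate, Matrix.smul_mul,
        Matrix.one_mul]
    rw [h2, smul_smul, inv_mul_cancel₀ hd, one_smul]
  have h3 := rank_it_conj hg (inv_ne_zero hd) h1 4
  rw [← h3]
  have h4 := rank_of_cut (m := 4) (rset_cut (4 - f) B) (Nat.sub_le 4 f) (Nat.sub_le 4 f)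
  omega

/-- Every matrix of stable rank at most `f` is a value of the parametrisation. -/
theorem exists_psi [IsAlgClosed k] {f : ℕ} {A : Matrix (Fin 4) (Fin 4) k}
    (hA : (it A 4).rank ≤ f) : ∃ g B : Matrix (Fin 4) (Fin 4) k, IsUnit g.det ∧ A = psi f g B := by
  have h4 : (it A 4).rank ≤ 4 := by
    have := Matrix.rank_le_card_width (it A 4)
    simpa using this
  obtain ⟨g, A', hg, hcut, h⟩ := exists_flag (n := 4 - f) (m := 4) (A := A) (by omega)
  have hd := rset_det hg
  refine ⟨g, ((fr g).det)⁻¹ • A', hg, ?_⟩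
  have hcut' : Cut (4 - f) (((fr g).det)⁻¹ • A') := by
    intro i j hi hij
    rw [Matrix.smul_apply, hcut i j hi hij, smul_zero]
  unfold psi
  rw [rset_cutoff hcut', Matrix.mul_smul, Matrix.smul_mul, Matrix.mul_assoc, h,
    ← Matrix.mul_assoc, Matrix.adjugate_mul, Matrix.smul_mul, Matrix.one_mul, smul_smul,
    inv_mul_cancel₀ hd, one_smul]

private theorem rset_PF_cutoff {τ : Type*} {N : ℕ} (n : ℕ) {M : (τ → k) → Matrix (Fin N) (Fin N) k}
    (hM : ∀ i j, PF fun y => M y i j) (i j : Fin N) : PF fun y => cutoff n (M y) i j := by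
  by_cases h : (i : ℕ) < n ∧ i ≤ j
  · have e : (fun y => cutoff n (M y) i j) = fun _ : τ → k => (0 : k) := by
      funext y
      unfold cutoff
      rw [if_pos h]
    rw [e]
    exact PF.const 0
  · have e : (fun y => cutoff n (M y) i j) = fun y => M y i j := by
      funext y
      unfold cutoff
      rw [if_neg h]
    rw [e]
    exact hM i j

/-- The matrices of stable rank at most `f` form an irreducible set: it is the image of the open
set `det g ≠ 0` under the polynomial map `psi`. -/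
theorem irr_RS [IsAlgClosed k] {f : ℕ} (hf : f ≤ 4) : Irr (RS k 4 f) := by
  have hinf : Infinite k := IsAlgClosed.instInfinite
  set τ : Type := (Fin 4 × Fin 4) ⊕ (Fin 4 × Fin 4) with hτ
  set g : (τ → k) → Matrix (Fin 4) (Fin 4) k := fun y i j => y (Sum.inl (i, j)) with hg
  set B : (τ → k) → Matrix (Fin 4) (Fin 4) k := fun y i j => y (Sum.inr (i, j)) with hB
  have hgP : ∀ i j, PF fun y : τ → k => g y i j := fun i j => PF.coord _
  have hBP : ∀ i j, PF fun y : τ → k => B y i j := fun i j => PF.coord _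
  have hdet : PF fun y : τ → k => (g y).det := PF.det hgP
  obtain ⟨P, hP⟩ := hdet
  have hT : Irr ((Set.univ : Set (τ → k)) ∩ {y | (g y).det ≠ 0}) := by
    apply Irr.inter_open irr_univ
    intro x _ hx
    refine ⟨P, ?_, ?_⟩
    · rw [← hP]
      exact hx
    · intro y _ hy
      rw [← hP] at hy
      exact hy
  have hφ : ∀ s : Fin 4 × Fin 4, PF fun y : τ → k => psi f (g y) (B y) s.1 s.2 := by
    intro s
    unfold psi
    apply PF.matrix_mul _ hgP
    intro i j
    apply PF.matrix_mul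
    · exact PF.adjugate (PF.fr hgP)
    · exact rset_PF_cutoff _ hBP
  have hI := Irr.image (φ := fun (y : τ → k) (s : Fin 4 × Fin 4) => psi f (g y) (B y) s.1 s.2)
    hT hφ
  have e : (fun (y : τ → k) (s : Fin 4 × Fin 4) => psi f (g y) (B y) s.1 s.2) ''
      ((Set.univ : Set (τ → k)) ∩ {y | (g y).det ≠ 0}) = RS k 4 f := by
    ext x
    constructor
    · rintro ⟨y, ⟨-, hy⟩, rfl⟩
      exact rank_psi hf (isUnit_iff_ne_zero.2 hy)
    · intro hx
      obtain ⟨g0, B0, hg0, h0⟩ := exists_psi hx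
      refine ⟨fun t => Sum.elim (fun s => g0 s.1 s.2) (fun s => B0 s.1 s.2) t, ⟨trivial, ?_⟩, ?_⟩
      · exact hg0.ne_zero
      · funext s
        obtain ⟨i, j⟩ := s
        exact (congrFun (congrFun h0 i) j).symm
  rw [e] at hI
  exact hI

theorem cl_RS (N f : ℕ) : Cl (RS k N f) = RS k N f := by
  apply Set.Subset.antisymm
  · intro x hx
    exact rank_cl (M := fun c : Fin N × Fin N → k => it (mt c) N)
      (PF.it (fun i j => PF.coord _) N) (fun c hc => hc) hx
  · exact subset_cl _

theorem RS_smul {N f : ℕ} {x : Fin N × Fin N → k} (hx : x ∈ RS k N f) (c : k) :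
    c • x ∈ RS k N f := by
  have e : mt (c • x) = c • mt x := rfl
  show (it (mt (c • x)) N).rank ≤ f
  rw [e, it_smul]
  have h1 : c ^ (2 ^ N - 1) • it (mt x) N =
      (c ^ (2 ^ N - 1) • (1 : Matrix (Fin N) (Fin N) k)) * it (mt x) N := by
    rw [Matrix.smul_mul, Matrix.one_mul]
  rw [h1]
  exact (Matrix.rank_mul_le_right _ _).trans hx

theorem zero_mem_RS (f : ℕ) : (0 : Fin 4 × Fin 4 → k) ∈ RS k 4 f := by
  show (it (mt (0 : Fin 4 × Fin 4 → k)) 4).rank ≤ f
  have e : mt (0 : Fin 4 × Fin 4 → k) = 0 := rfl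
  have h1 : it (0 : Matrix (Fin 4) (Fin 4) k) 4 = 0 := by
    have : it (0 : Matrix (Fin 4) (Fin 4) k) 4 = fr (it 0 3) * 0 := rfl
    rw [this, Matrix.mul_zero]
  rw [e, h1, Matrix.rank_zero]
  exact Nat.zero_le _

end Pool.Agent.Lib.MP_60c747_ag
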