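import Pool.Agent.Lib.MP_60c747_ag.Iter

set_option autoImplicit false

/-!
A generic matrix of stable rank at most `f`, and the transcendence degree of its entries.
-/

namespace Pool.Agent.Lib.MP_60c747_ag

open MvPolynomial

/-- The step from `N` to `N + 1`: `A i j = M i j + b i x j` for `i, j < N`, `A i N = b i` and the
last row is the combination of the rows above with coefficients `x i ^ 2`. -/
def ext {R : Type*} [CommRing R] {N : ℕ} (M : Matrix (Fin N) (Fin N) R) (x b : Fin N → R) :
    Matrix (Fin (N + 1)) (Fin (N + 1)) R :=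
  fun i => Fin.lastCases (motive := fun _ => Fin (N + 1) → R)
    (fun j => ∑ l : Fin N, x l ^ 2 * (Fin.snoc (α := fun _ => R) (fun j => M l j + b l * x j) (b l) : Fin (N + 1) → R) j)
    (fun l => Fin.snoc (α := fun _ => R) (fun j => M l j + b l * x j) (b l)) i

section aux

variable {R : Type*} [CommRing R] {N : ℕ} (M : Matrix (Fin N) (Fin N) R) (x b : Fin N → R)

private theorem ext_cc (l j : Fin N) : ext M x b l.castSucc j.castSucc = M l j + b l * x j := by
  simp [ext]

private theorem ext_cl (l : Fin N) : ext M x b l.castSucc (Fin.last N) = b l := by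
  simp [ext]

private theorem ext_l (j : Fin (N + 1)) :
    ext M x b (Fin.last N) j = ∑ l : Fin N, x l ^ 2 * ext M x b l.castSucc j := by
  simp [ext]

end aux

private theorem rank_fr_le {k : Type*} [Field k] [CharP k 2] {l m : Type*} [Fintype l] [Fintype m]
    (A : Matrix l m k) : (fr A).rank ≤ A.rank := by
  classical
  rw [Matrix.rank_eq_finrank_span_cols, Matrix.rank_eq_finrank_span_cols]
  set W := Submodule.span k (Set.range A.col) with hW
  let B := Module.finBasis k W
  have hsub : Submodule.span k (Set.range (fr A).col) ≤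
      Submodule.span k (Set.range fun i : Fin (Module.finrank k W) => (B i : l → k) ^ 2) := by
    rw [Submodule.span_le]
    rintro _ ⟨j, rfl⟩
    have hj : A.col j ∈ W := Submodule.subset_span ⟨j, rfl⟩
    obtain ⟨c, h2⟩ : ∃ c : Fin (Module.finrank k W) → k, A.col j = ∑ i, c i • (B i : l → k) := by
      refine ⟨fun i => B.repr ⟨A.col j, hj⟩ i, ?_⟩
      have h1 := congrArg Subtype.val (B.sum_repr ⟨A.col j, hj⟩)
      simp only [Submodule.coe_sum, Submodule.coe_smul] at h1
      exact h1.symm
    have h3 : (fr A).col j = ∑ i, (c i) ^ 2 • ((B i : l → k) ^ 2) := by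
      ext a
      have h4 : A a j = ∑ i, c i * (B i : l → k) a := by
        have := congrFun h2 a
        simpa using this
      have h5 : (fr A).col j a = (A a j) ^ 2 := by simp [fr]
      rw [h5, h4, sum_pow_char]
      simp [mul_pow]
    rw [h3]
    exact Submodule.sum_mem _ fun i _ => Submodule.smul_mem _ _ (Submodule.subset_span ⟨i, rfl⟩)
  calc _ ≤ Module.finrank k (Submodule.span k (Set.range fun i : Fin (Module.finrank k W) => (B i : l → k) ^ 2)) :=
        Submodule.finrank_mono hsub
    _ ≤ Fintype.card (Fin (Module.finrank k W)) := finrank_range_le_card _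
    _ = _ := by simp

/-- The stable rank does not increase: with `g = [1 0; x 1]` (last row `(x, 1)`) and
`A' = [M b; 0 0]` one has `A' * g = fr g * ext M x b`, and `it A' (m+1) = [fr (it M m) * [M b]; 0]`
has rank at most that of `it M m`. -/
theorem rank_ext_le {k : Type*} [Field k] [CharP k 2] {N : ℕ} (M : Matrix (Fin N) (Fin N) k)
    (x b : Fin N → k) (m : ℕ) : (it (ext M x b) (m + 1)).rank ≤ (it M m).rank := by
  classical
  let P : Matrix (Fin (N + 1)) (Fin N) k := fun i =>
    Fin.lastCases (motive := fun _ => Fin N → k) x (fun i => Pi.single i 1) i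
  let S : Matrix (Fin N) (Fin (N + 1)) k := fun l j => ext M x b l.castSucc j
  have hPl : P (Fin.last N) = x := by simp [P]
  have hPc : ∀ i : Fin N, P i.castSucc = Pi.single i 1 := by intro i; simp [P]
  have hA : ext M x b = fr P * S := by
    ext i j
    rw [Matrix.mul_apply]
    refine Fin.lastCases ?_ (fun i => ?_) i
    · rw [ext_l]
      refine Finset.sum_congr rfl fun l _ => ?_
      simp [fr, hPl, S]
    · rw [Finset.sum_eq_single i]
      · simp [fr, hPc, S]
      · intro l _ hl
        simp [fr, hPc, hl]
      · simp
  have hM : S * P = M := by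
    ext l m
    rw [Matrix.mul_apply, Fin.sum_univ_castSucc, hPl, Finset.sum_eq_single m]
    · simp only [S, ext_cc, ext_cl, hPc, Pi.single_eq_same, mul_one]
      rw [add_assoc, CharTwo.add_self_eq_zero, add_zero]
    · intro j _ hj
      simp [hPc, hj.symm]
    · simp
  have hit : ∀ m, it (ext M x b) (m + 1) = fr^[m + 1] P * fr (it M m) * S := by
    intro m
    induction m with
    | zero =>
        have h1 : it (ext M x b) (0 + 1) = fr (it (ext M x b) 0) * ext M x b := rfl
        have h2 : it (ext M x b) 0 = 1 := rfl
        have h3 : it M 0 = 1 := rfl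
        rw [h1, h2, h3, fr_one, fr_one, one_mul, Matrix.mul_one]
        exact hA
    | succ m ih =>
        have h1 : it (ext M x b) (m + 1 + 1) = fr (it (ext M x b) (m + 1)) * ext M x b := rfl
        have h2 : it M (m + 1) = fr (it M m) * M := rfl
        rw [h1, ih, h2, fr_mul, fr_mul, fr_mul, Function.iterate_succ_apply' fr (m + 1) P]
        conv_lhs => rw [hA]
        have h4 : fr S * fr P = fr M := by rw [← fr_mul, hM]
        rw [← h4]
        simp only [Matrix.mul_assoc]
  rw [hit m]
  calc _ ≤ (fr^[m + 1] P * fr (it M m)).rank := Matrix.rank_mul_le_left _ _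
    _ ≤ (fr (it M m)).rank := Matrix.rank_mul_le_right _ _
    _ ≤ _ := rank_fr_le _

/-- The minor used in the recursion: columns `1, ..., N - 1` of `M` and the column `b`. -/
def minorMat {R : Type*} [CommRing R] {N : ℕ} (M : Matrix (Fin N) (Fin N) R) (b : Fin N → R) :
    Matrix (Fin N) (Fin N) R :=
  fun i j => (Fin.snoc (α := fun _ => R) (M i) (b i) : Fin (N + 1) → R) j.succ

/-- The minor of the new matrix on the rows `0, ..., N - 1` and columns `1, ..., N` is
`det (minorMat M b)`: subtract `x j` times the last column. -/
theorem det_minor_ext {R : Type*} [CommRing R] {N : ℕ} (M : Matrix (Fin N) (Fin N) R)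
    (x b : Fin N → R) :
    ((ext M x b).submatrix Fin.castSucc Fin.succ).det = (minorMat M b).det := by
  cases N with
  | zero => simp
  | succ n =>
    rw [← Matrix.det_transpose, ← Matrix.det_transpose (minorMat M b)]
    refine Matrix.det_eq_of_forall_row_eq_smul_add_const
      (fun j => (Fin.snoc (α := fun _ => R) x 0 : Fin (n + 2) → R) j.succ) (Fin.last n) ?_ ?_
    · rw [Fin.succ_last]; simp
    · intro j i
      simp only [Matrix.transpose_apply, Matrix.submatrix_apply, minorMat]
      refine Fin.lastCases ?_ (fun j => ?_) j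
      · rw [Fin.succ_last, ext_cl]; simp
      · rw [Fin.succ_castSucc, ext_cc, Fin.succ_last, Fin.snoc_castSucc, Fin.snoc_last,
          Fin.snoc_castSucc, mul_comm (b i)]

/-- The minor condition passes to the next matrix (take for the new column the last unit
vector). -/
theorem det_minorMat_ext {R : Type*} [CommRing R] {N : ℕ} (M : Matrix (Fin N) (Fin N) R)
    (x b : Fin N → R) :
    (minorMat (ext M x b) (fun i => if i = Fin.last N then 1 else 0)).det =
      (minorMat M b).det := by
  rw [Matrix.det_succ_column _ (Fin.last N), Finset.sum_eq_single (Fin.last N)]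
  · have h1 : (minorMat (ext M x b) (fun i => if i = Fin.last N then 1 else 0)).submatrix
        (Fin.last N).succAbove (Fin.last N).succAbove =
        (ext M x b).submatrix Fin.castSucc Fin.succ := by
      ext i j
      simp only [Matrix.submatrix_apply, Fin.succAbove_last, minorMat]
      rw [Fin.succ_castSucc, Fin.snoc_castSucc]
    rw [h1, det_minor_ext]
    have h2 : minorMat (ext M x b) (fun i => if i = Fin.last N then 1 else 0) (Fin.last N)
        (Fin.last N) = 1 := by
      simp only [minorMat]
      rw [Fin.succ_last]
      simp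
    rw [h2, ← two_mul, pow_mul]
    simp
  · intro i _ hi
    have h2 : minorMat (ext M x b) (fun i => if i = Fin.last N then 1 else 0) i
        (Fin.last N) = 0 := by
      simp only [minorMat]
      rw [Fin.succ_last]
      simp [hi]
    rw [h2]
    simp
  · simp

/-- Cramer's rule: `x i ^ 2` times the minor is a polynomial in the entries of the new matrix. -/
theorem cramer_ext {R : Type*} [CommRing R] {N : ℕ} (M : Matrix (Fin N) (Fin N) R)
    (x b : Fin N → R) (i : Fin N) :
    (minorMat M b).det * x i ^ 2 =
      (((ext M x b).submatrix Fin.castSucc Fin.succ).updateRow i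
        (fun j => ext M x b (Fin.last N) j.succ)).det := by
  have h := Matrix.det_updateRow_sum ((ext M x b).submatrix Fin.castSucc Fin.succ) i
    (fun l => x l ^ 2)
  have h2 : (∑ l, (x l ^ 2) • ((ext M x b).submatrix Fin.castSucc Fin.succ) l) =
      (fun j : Fin N => ext M x b (Fin.last N) j.succ) := by
    ext j
    rw [ext_l]
    simp
  rw [← h2, h, det_minor_ext, smul_eq_mul, mul_comm]

/-- Algebraic elements are preserved by injective homomorphisms. -/
private theorem trdeg_isAlgebraic_map {k P P' : Type*} [Field k] [CommRing P] [CommRing P']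
    [Algebra k P] [Algebra k P'] (φ : P →ₐ[k] P') (hφ : Function.Injective φ) {s : Set P} {a : P}
    (h : IsAlgebraic (Algebra.adjoin k s) a) :
    IsAlgebraic (Algebra.adjoin k (φ '' s)) (φ a) := by
  have hmem : ∀ x : Algebra.adjoin k s, φ x ∈ Algebra.adjoin k (φ '' s) := by
    intro x
    have h1 : (φ x) ∈ (Algebra.adjoin k s).map φ := ⟨x, x.2, rfl⟩
    rwa [AlgHom.map_adjoin] at h1
  let f : Algebra.adjoin k s →ₐ[k] Algebra.adjoin k (φ '' s) :=
    (φ.comp (Algebra.adjoin k s).val).codRestrict _ hmem
  refine h.ringHom_of_comp_eq f φ ?_ ?_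
  · intro x y hxy
    apply Subtype.ext
    apply hφ
    exact congrArg Subtype.val hxy
  · ext x
    rfl

private theorem trdeg_ext_map {R R' : Type*} [CommRing R] [CommRing R'] (φ : R →+* R') {N : ℕ}
    (M : Matrix (Fin N) (Fin N) R) (x b : Fin N → R) :
    (ext M x b).map φ = ext (M.map φ) (fun i => φ (x i)) (fun i => φ (b i)) := by
  ext i j
  refine Fin.lastCases ?_ (fun i => ?_) i <;> refine Fin.lastCases ?_ (fun j => ?_) j <;>
    simp [ext]

private theorem trdeg_minorMat_map {R R' : Type*} [CommRing R] [CommRing R'] (φ : R →+* R') {N : ℕ}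
    (M : Matrix (Fin N) (Fin N) R) (b : Fin N → R) :
    (minorMat M b).map φ = minorMat (M.map φ) (fun i => φ (b i)) := by
  ext i j
  simp only [minorMat, Matrix.map_apply]
  refine Fin.lastCases (motive := fun c => φ ((Fin.snoc (α := fun _ => R) (M i) (b i) :
    Fin (N + 1) → R) c) = (Fin.snoc (α := fun _ => R') (fun j => φ (M i j)) (φ (b i)) :
    Fin (N + 1) → R') c) ?_ (fun c => ?_) j.succ <;> simp

/-- A generic matrix: for `f ≤ N` there is a matrix with entries in a polynomial ring in
`N² - (N - f)` variables, all of whose specialisations have stable rank at most `f`, and over whose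
entries the polynomial ring is algebraic. Induction on `N`, starting with `N = f` and the generic
matrix; the step uses the variables `ι ⊕ Fin N ⊕ Fin N`, the matrix `ext M x b` and the
previous lemmas. -/
theorem exists_generic (k : Type*) [Field k] [CharP k 2] (f : ℕ) : ∀ N, f ≤ N →
    ∃ (ι : Type) (_ : Fintype ι) (M : Matrix (Fin N) (Fin N) (MvPolynomial ι k)),
      Fintype.card ι + (N - f) = N * N ∧
      (∀ y : ι → k, (it (M.map (eval y)) N).rank ≤ f) ∧
      Algebra.IsAlgebraic (Algebra.adjoin k (Set.range fun p : Fin N × Fin N => M p.1 p.2))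
        (MvPolynomial ι k) ∧
      ∃ b : Fin N → MvPolynomial ι k, (minorMat M b).det ≠ 0 := by
  intro N hN
  induction N, hN using Nat.le_induction with
  | base =>
    refine ⟨Fin f × Fin f, inferInstance, Matrix.mvPolynomialX (Fin f) (Fin f) k, ?_, ?_, ?_, ?_⟩
    · simp
    · intro y
      exact (Matrix.rank_le_card_width _).trans (by simp)
    · have h1 : Algebra.adjoin k (Set.range fun p : Fin f × Fin f =>
          Matrix.mvPolynomialX (Fin f) (Fin f) k p.1 p.2) = ⊤ := by
        exact MvPolynomial.adjoin_range_X (R := k) (σ := Fin f × Fin f)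
      rw [h1]
      constructor
      intro a
      exact isAlgebraic_algebraMap (⟨a, trivial⟩ : (⊤ : Subalgebra k _))
    · rcases f with _ | f
      · exact ⟨fun i => i.elim0, by simp⟩
      · refine ⟨fun i => Matrix.mvPolynomialX (Fin (f + 1)) (Fin (f + 1)) k i 0, ?_⟩
        have h1 : minorMat (Matrix.mvPolynomialX (Fin (f + 1)) (Fin (f + 1)) k)
            (fun i => Matrix.mvPolynomialX (Fin (f + 1)) (Fin (f + 1)) k i 0) =
            (Matrix.mvPolynomialX (Fin (f + 1)) (Fin (f + 1)) k).submatrix id
              (finRotate (f + 1)) := by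
          ext1 i j
          simp only [minorMat, Matrix.submatrix_apply, id]
          refine Fin.lastCases ?_ (fun j => ?_) j
          · rw [finRotate_last, Fin.succ_last, Fin.snoc_last]
          · rw [finRotate_of_lt (by simp), ← Fin.castSucc_succ, Fin.snoc_castSucc]
            rfl
        rw [h1, Matrix.det_permute']
        have h2 := Matrix.det_mvPolynomialX_ne_zero (Fin (f + 1)) k
        intro h3
        apply h2
        rcases mul_eq_zero.1 h3 with h4 | h4
        · exfalso
          rcases Int.units_eq_one_or (Equiv.Perm.sign (finRotate (f + 1))) with h5 | h5 <;>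
            simp [h5] at h4
        · exact h4
  | succ N hN ih =>
    obtain ⟨ι, hι, M, hcard, hrank, halg, b₀, hb₀⟩ := ih
    classical
    let ρ : MvPolynomial ι k →ₐ[k] MvPolynomial (ι ⊕ (Fin N ⊕ Fin N)) k := rename Sum.inl
    have hρ : Function.Injective ρ := rename_injective _ Sum.inl_injective
    let M' : Matrix (Fin N) (Fin N) (MvPolynomial (ι ⊕ (Fin N ⊕ Fin N)) k) := M.map ρ
    let x : Fin N → MvPolynomial (ι ⊕ (Fin N ⊕ Fin N)) k := fun i => X (Sum.inr (Sum.inl i))
    let b : Fin N → MvPolynomial (ι ⊕ (Fin N ⊕ Fin N)) k := fun i => X (Sum.inr (Sum.inr i))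
    have hD : (minorMat M' b).det ≠ 0 := by
      intro h0
      apply hb₀
      let ψ : MvPolynomial (ι ⊕ (Fin N ⊕ Fin N)) k →ₐ[k] MvPolynomial ι k :=
        aeval (Sum.elim X (Sum.elim (fun _ => 0) b₀))
      have h1 : ψ (minorMat M' b).det = (minorMat M b₀).det := by
        rw [show ψ (minorMat M' b).det = (ψ : _ →+* _) (minorMat M' b).det from rfl,
          RingHom.map_det, RingHom.mapMatrix_apply, trdeg_minorMat_map]
        congr 2
        · ext1 i j
          simp only [M', Matrix.map_apply, ρ]
          show ψ (rename Sum.inl (M i j)) = M i j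
          simp only [ψ, aeval_rename]
          simp
        · funext i
          simp [b, ψ]
      rw [← h1, h0, map_zero]
    refine ⟨ι ⊕ (Fin N ⊕ Fin N), inferInstance, ext M' x b, ?_, ?_, ?_, ?_⟩
    · simp only [Fintype.card_sum, Fintype.card_fin]
      have : N + 1 - f = (N - f) + 1 := by omega
      rw [this]
      nlinarith [hcard]
    · intro y
      have h1 : (ext M' x b).map (eval y) = ext (M.map (eval (fun i => y (Sum.inl i))))
          (fun i => y (Sum.inr (Sum.inl i))) (fun i => y (Sum.inr (Sum.inr i))) := by
        rw [trdeg_ext_map]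
        congr 1
        · ext i j
          simp only [M', Matrix.map_apply, ρ]
          rw [eval_rename]
          rfl
        · funext i
          simp [x]
        · funext i
          simp [b]
      rw [h1]
      exact (rank_ext_le _ _ _ _).trans (hrank _)
    · set t : Set (MvPolynomial (ι ⊕ (Fin N ⊕ Fin N)) k) :=
        Set.range fun p : Fin (N + 1) × Fin (N + 1) => ext M' x b p.1 p.2 with ht
      have hmem : ∀ i j, ext M' x b i j ∈ Algebra.adjoin k t := fun i j =>
        Algebra.subset_adjoin ⟨(i, j), rfl⟩
      have halgmem : ∀ a ∈ Algebra.adjoin k t, IsAlgebraic (Algebra.adjoin k t) a := fun a ha =>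
        isAlgebraic_algebraMap (⟨a, ha⟩ : Algebra.adjoin k t)
      have hbm : ∀ i, b i ∈ Algebra.adjoin k t := by
        intro i
        have h1 := hmem i.castSucc (Fin.last N)
        simpa [ext] using h1
      have hdetm : ∀ (n : ℕ) (W : Matrix (Fin n) (Fin n) (MvPolynomial (ι ⊕ (Fin N ⊕ Fin N)) k)),
          (∀ i j, W i j ∈ Algebra.adjoin k t) → W.det ∈ Algebra.adjoin k t := by
        intro n W hW
        rw [Matrix.det_apply]
        refine Subalgebra.sum_mem _ fun σ _ => ?_
        rw [Units.smul_def, zsmul_eq_mul]
        refine Subalgebra.mul_mem _ (Subalgebra.intCast_mem _ _) ?_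
        exact Subalgebra.prod_mem _ fun i _ => hW _ _
      have hDm : (minorMat M' b).det ∈ Algebra.adjoin k t := by
        rw [← det_minor_ext M' x b]
        exact hdetm _ _ fun i j => hmem _ _
      have hxalg : ∀ i, IsAlgebraic (Algebra.adjoin k t) (x i) := by
        intro i
        have h1 := cramer_ext M' x b i
        have h2 : (((ext M' x b).submatrix Fin.castSucc Fin.succ).updateRow i
            (fun j => ext M' x b (Fin.last N) j.succ)).det ∈ Algebra.adjoin k t := by
          refine hdetm _ _ fun a c => ?_
          by_cases hai : a = i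
          · subst hai
            rw [Matrix.updateRow_self]
            exact hmem _ _
          · rw [Matrix.updateRow_ne hai]
            exact hmem _ _
        refine ⟨Polynomial.C (⟨_, hDm⟩ : Algebra.adjoin k t) * Polynomial.X ^ 2 -
          Polynomial.C (⟨_, h2⟩ : Algebra.adjoin k t), ?_, ?_⟩
        · intro h3
          have h4 := congrArg (fun p => Polynomial.coeff p 2) h3
          simp only [Polynomial.coeff_sub, Polynomial.coeff_C_mul, Polynomial.coeff_X_pow,
            if_true, mul_one, Polynomial.coeff_C, Polynomial.coeff_zero] at h4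
          simp only [OfNat.ofNat_ne_zero, if_false, sub_zero] at h4
          exact hD (congrArg Subtype.val h4)
        · simp only [map_sub, map_mul, Polynomial.aeval_C, map_pow, Polynomial.aeval_X]
          show (minorMat M' b).det * x i ^ 2 - _ = 0
          rw [h1]
          exact sub_self _
      have hMalg : ∀ i j, IsAlgebraic (Algebra.adjoin k t) (M' i j) := by
        intro i j
        have h1 : M' i j = ext M' x b i.castSucc j.castSucc - b i * x j := by
          simp [ext]
        rw [h1]
        exact (halgmem _ (hmem _ _)).sub ((halgmem _ (hbm i)).mul (hxalg j))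
      have hX : ∀ s : ι ⊕ (Fin N ⊕ Fin N), IsAlgebraic (Algebra.adjoin k t)
          (X s : MvPolynomial (ι ⊕ (Fin N ⊕ Fin N)) k) := by
        intro s
        rcases s with i | i | i
        · have h1 := trdeg_isAlgebraic_map ρ hρ (halg.isAlgebraic (X i))
          have h2 : ρ (X i) = X (Sum.inl i) := by simp [ρ]
          rw [h2] at h1
          refine IsAlgebraic.adjoin_of_forall_isAlgebraic (R := k) ?_ h1
          rintro a ⟨⟨_, ⟨⟨i, j⟩, rfl⟩, rfl⟩, -⟩
          exact hMalg i j
        · exact hxalg i
        · exact halgmem _ (hbm i)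
      constructor
      intro a
      have h1 : IsAlgebraic (Algebra.adjoin k (Set.range
          (X : (ι ⊕ (Fin N ⊕ Fin N)) → MvPolynomial (ι ⊕ (Fin N ⊕ Fin N)) k))) a := by
        rw [MvPolynomial.adjoin_range_X]
        exact isAlgebraic_algebraMap (⟨a, trivial⟩ : (⊤ : Subalgebra k _))
      refine IsAlgebraic.adjoin_of_forall_isAlgebraic (R := k) ?_ h1
      rintro _ ⟨⟨s, rfl⟩, -⟩
      exact hX s
    · refine ⟨fun i => if i = Fin.last N then 1 else 0, ?_⟩
      rw [det_minorMat_ext]
      exact hD

/-- If a polynomial ring in finitely many variables is algebraic over the subalgebra generated by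
a family of the same size, the family is algebraically independent. -/
theorem algebraicIndependent_of_card {k ι ι' : Type*} [Field k] [Fintype ι] [Fintype ι']
    (hcard : Fintype.card ι' = Fintype.card ι) (v : ι' → MvPolynomial ι k)
    (h : Algebra.IsAlgebraic (Algebra.adjoin k (Set.range v)) (MvPolynomial ι k)) :
    AlgebraicIndependent k v := by
  refine (Algebra.IsAlgebraic.isTranscendenceBasis_of_lift_le_trdeg_of_finite k v ?_).1
  rw [MvPolynomial.trdeg_of_isDomain]
  simp [hcard]

end Pool.Agent.Lib.MP_60c747_ag
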