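import Pool.Agent.Lib.MP_60c747_ag.Integral
import Pool.Agent.Lib.MP_60c747_ag.Trdeg
import Pool.Agent.Lib.MP_60c747_ag.RSet
import Pool.Agent.Lib.MP_60c747_ag.Lin

set_option autoImplicit false

/-!
Deformation of a matrix of stable rank at most `f` with `kap A = 0` in the direction `β`.
-/

namespace Pool.Agent.Lib.MP_60c747_ag

open MvPolynomial

variable {k : Type*} [Field k]

/-- The linear forms as polynomials. -/
noncomputable def lamP (f : ℕ) (α : Fin 4 → k) :
    Fin 6 ⊕ (Fin 6 ⊕ Fin f) → MvPolynomial (Fin 4 × Fin 4) k :=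
  lam f (fun i => C (α i)) (mt (X : Fin 4 × Fin 4 → MvPolynomial (Fin 4 × Fin 4) k))

theorem eval_lamP (f : ℕ) (α : Fin 4 → k) (x : Fin 4 × Fin 4 → k)
    (i : Fin 6 ⊕ (Fin 6 ⊕ Fin f)) : eval x (lamP f α i) = lam f α (mt x) i := by
  rcases i with i | i | i
  · fin_cases i <;> simp [lamP, lam, kap, mt]
  · fin_cases i <;> simp [lamP, lam, mt]
  · simp [lamP, lam, mt]

theorem lamP_isHomogeneous (f : ℕ) (α : Fin 4 → k) (i : Fin 6 ⊕ (Fin 6 ⊕ Fin f)) :
    (lamP f α i).IsHomogeneous 1 := by
  rcases i with i | i | i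
  · fin_cases i
    all_goals simp only [lamP, lam, kap, mt, Sum.elim_inl]
    · exact isHomogeneous_X _ _
    · exact isHomogeneous_X _ _
    · exact isHomogeneous_X _ _
    · exact isHomogeneous_X _ _
    · exact (isHomogeneous_X _ _).add (isHomogeneous_X _ _)
    · exact (isHomogeneous_X _ _).add (isHomogeneous_X _ _)
  · fin_cases i
    all_goals simp only [lamP, lam, kap, mt, Sum.elim_inl, Sum.elim_inr]
    all_goals exact isHomogeneous_X _ _
  · simp only [lamP, lam, mt, Sum.elim_inr]
    refine IsHomogeneous.sum _ _ _ fun j _ => ?_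
    rw [← C_pow]
    simpa using (isHomogeneous_C (Fin 4 × Fin 4) (α j ^ (i : ℕ))).mul (isHomogeneous_X k (j, j))

theorem lamP_isIntegral [IsAlgClosed k] [CharP k 2] {f : ℕ} {α : Fin 4 → k}
    (hα : Function.Injective α) : (toB (RS k 4 f) (lamP f α)).IsIntegral := by
  refine toB_isIntegral (fun x hx c => RS_smul hx c) (cl_RS 4 f) (lamP_isHomogeneous f α) ?_
  intro x hx h
  have h1 : lam f α (mt x) = 0 := by
    ext i
    rw [← eval_lamP]
    exact h i
  have h2 : mt x = 0 := eq_zero_of_lam hα hx h1
  ext ⟨i, j⟩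
  exact congrFun (congrFun h2 i) j

/-- The `12 + f` forms are algebraically independent on the set of matrices of stable rank at most
`f`. Take the generic matrix `M` of `exists_generic` for `N = 4`: it gives a homomorphism from the
coordinate ring to a polynomial ring in `12 + f` variables which is algebraic over the image, hence
over the images of the forms; apply `algebraicIndependent_of_card`. -/
theorem lamP_injective [IsAlgClosed k] [CharP k 2] {f : ℕ} (hf : f ≤ 4) {α : Fin 4 → k}
    (hα : Function.Injective α) : Function.Injective (toB (RS k 4 f) (lamP f α)) := by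
  classical
  obtain ⟨ι, _, M, hcard, hrank, halg, -⟩ := exists_generic k f 4 hf
  set T := RS k 4 f with hT
  let φ : MvPolynomial (Fin 4 × Fin 4) k →ₐ[k] MvPolynomial ι k := aeval fun p => M p.1 p.2
  have hφ : ∀ G ∈ VI T, φ G = 0 := by
    intro G hG
    apply MvPolynomial.funext
    intro y
    have h1 : eval y (φ G) = eval (fun p : Fin 4 × Fin 4 => eval y (M p.1 p.2)) G := by
      have h2 : (eval y).comp φ.toRingHom = eval (fun p : Fin 4 × Fin 4 => eval y (M p.1 p.2)) := by
        apply MvPolynomial.ringHom_ext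
        · intro r; simp
        · intro p; simp [φ]
      exact congrFun (congrArg DFunLike.coe h2) G
    rw [h1, map_zero]
    refine mem_VI.1 hG _ ?_
    exact hrank y
  let φ' : MvPolynomial (Fin 4 × Fin 4) k ⧸ VI T →+* MvPolynomial ι k :=
    Ideal.Quotient.lift (VI T) φ.toRingHom hφ
  let v : Fin 6 ⊕ (Fin 6 ⊕ Fin f) → MvPolynomial ι k := fun i => φ (lamP f α i)
  have hcomp : φ'.comp (toB T (lamP f α)) = (aeval v : _ →ₐ[k] MvPolynomial ι k).toRingHom := by
    apply MvPolynomial.ringHom_ext
    · intro r
      simp [φ', toB]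
    · intro p
      simp [φ', toB, v]
  have hint := lamP_isIntegral (f := f) hα
  let C1 := Algebra.adjoin k (Set.range v)
  let C2 := Algebra.adjoin k (Set.range fun p : Fin 4 × Fin 4 => M p.1 p.2)
  have hv1 : ∀ q, (aeval v : _ →ₐ[k] MvPolynomial ι k) q ∈ C1 := by
    intro q
    rw [show C1 = (aeval v : _ →ₐ[k] MvPolynomial ι k).range from
      Algebra.adjoin_range_eq_range_aeval k v]
    exact ⟨q, rfl⟩
  let ψ : MvPolynomial (Fin 6 ⊕ (Fin 6 ⊕ Fin f)) k →+* C1 :=
    (aeval v : _ →ₐ[k] MvPolynomial ι k).toRingHom.codRestrict C1 hv1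
  have hMint : ∀ p : Fin 4 × Fin 4, IsIntegral C1 (M p.1 p.2) := by
    intro p
    obtain ⟨q, hq, hq0⟩ := hint (Ideal.Quotient.mk (VI T) (X p))
    refine ⟨q.map ψ, hq.map ψ, ?_⟩
    rw [Polynomial.eval₂_map]
    have h3 : (algebraMap C1 (MvPolynomial ι k)).comp ψ = φ'.comp (toB T (lamP f α)) := by
      rw [hcomp]; rfl
    have h4 : M p.1 p.2 = φ' (Ideal.Quotient.mk (VI T) (X p)) := by
      simp [φ', φ]
    rw [h3, h4, ← Polynomial.hom_eval₂, hq0, map_zero]
  have hC12 : C1 ≤ C2 := by
    refine Algebra.adjoin_le ?_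
    rintro _ ⟨i, rfl⟩
    rw [show C2 = (aeval fun p : Fin 4 × Fin 4 => M p.1 p.2 : _ →ₐ[k] MvPolynomial ι k).range from
      Algebra.adjoin_range_eq_range_aeval k _]
    exact ⟨lamP f α i, rfl⟩
  have hC2 : C2 ≤ (integralClosure C1 (MvPolynomial ι k)).restrictScalars k := by
    refine Algebra.adjoin_le ?_
    rintro _ ⟨p, rfl⟩
    exact hMint p
  let _ : Algebra C1 C2 := (Subalgebra.inclusion hC12).toRingHom.toAlgebra
  have : IsScalarTower C1 C2 (MvPolynomial ι k) := IsScalarTower.of_algebraMap_eq fun _ => rfl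
  have : Algebra.IsIntegral C1 C2 := by
    refine ⟨fun x => ?_⟩
    rw [← isIntegral_algebraMap_iff (R := C1) (A := C2) (B := MvPolynomial ι k)
      Subtype.val_injective]
    exact hC2 x.2
  have : Algebra.IsAlgebraic C2 (MvPolynomial ι k) := halg
  have halg1 : Algebra.IsAlgebraic C1 (MvPolynomial ι k) :=
    Algebra.IsIntegral.trans_isAlgebraic C1 C2 _
  have hind : AlgebraicIndependent k v := by
    refine algebraicIndependent_of_card ?_ v halg1
    simp only [Fintype.card_sum, Fintype.card_fin]
    omega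
  have hinj : Function.Injective (φ'.comp (toB T (lamP f α))) := by
    rw [hcomp]
    exact hind
  intro a b hab
  apply hinj
  simp only [RingHom.comp_apply, hab]

/-- Deformation: `A₀` of stable rank at most `f` with `kap A₀ = 0`, `β` arbitrary. If a polynomial
`G(s, A)` vanishes whenever `s ≠ 0`, `A` has stable rank at most `f` and `kap A = s β` then
`G(0, A₀) = 0`. -/
theorem deform [IsAlgClosed k] [CharP k 2] {f : ℕ} (hf : f ≤ 4) {x₀ : Fin 4 × Fin 4 → k}
    (hx₀ : x₀ ∈ RS k 4 f) (hκ : kap (mt x₀) = 0) (β : Fin 6 → k)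
    {G : MvPolynomial (Option (Fin 4 × Fin 4)) k}
    (hG : ∀ x ∈ RS k 4 f, ∀ s : k, s ≠ 0 → kap (mt x) = s • β →
      eval (fun o => Option.elim o s x) G = 0) :
    eval (fun o => Option.elim o 0 x₀) G = 0 := by
  classical
  by_cases hβ : β = 0
  · -- the polynomial `G(s, x₀)` vanishes for all `s ≠ 0`
    let g : Polynomial k := aeval (fun o : Option (Fin 4 × Fin 4) =>
      Option.elim o Polynomial.X (fun p => Polynomial.C (x₀ p))) G
    have hg : ∀ s : k, g.eval s = eval (fun o => Option.elim o s x₀) G := by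
      intro s
      have h2 : (Polynomial.evalRingHom s).comp ((aeval (fun o : Option (Fin 4 × Fin 4) =>
          Option.elim o Polynomial.X (fun p => Polynomial.C (x₀ p))) :
            MvPolynomial (Option (Fin 4 × Fin 4)) k →ₐ[k] Polynomial k).toRingHom)
          = eval (fun o => Option.elim o s x₀) := by
        apply MvPolynomial.ringHom_ext
        · intro r; simp
        · intro o; cases o <;> simp
      exact congrFun (congrArg DFunLike.coe h2) G
    have h0 : g = 0 := by
      apply Polynomial.eq_zero_of_infinite_isRoot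
      refine Set.Infinite.mono (s := {0}ᶜ) ?_ (Set.Finite.infinite_compl (Set.finite_singleton 0))
      intro s hs
      have hs' : s ≠ 0 := hs
      show g.IsRoot s
      rw [Polynomial.IsRoot.def, hg]
      refine hG x₀ hx₀ s hs' ?_
      rw [hκ, hβ, smul_zero]
    rw [← hg, h0, Polynomial.eval_zero]
  · obtain ⟨j, hj⟩ : ∃ j, β j ≠ 0 := by
      by_contra h
      push Not at h
      exact hβ (_root_.funext h)
    let α : Fin 4 → k := fun i => Infinite.natEmbedding k i
    have hα : Function.Injective α := by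
      intro a b hab
      exact Fin.ext ((Infinite.natEmbedding k).injective hab)
    let G' : MvPolynomial (Fin 4 × Fin 4) k := aeval (fun o : Option (Fin 4 × Fin 4) =>
      Option.elim o (C (β j)⁻¹ * lamP f α (Sum.inl j)) X) G
    have hG' : ∀ x : Fin 4 × Fin 4 → k, eval x G' =
        eval (fun o => Option.elim o ((β j)⁻¹ * kap (mt x) j) x) G := by
      intro x
      have h2 : (eval x).comp ((aeval (fun o : Option (Fin 4 × Fin 4) =>
          Option.elim o (C (β j)⁻¹ * lamP f α (Sum.inl j)) X) :
            MvPolynomial (Option (Fin 4 × Fin 4)) k →ₐ[k] MvPolynomial (Fin 4 × Fin 4) k).toRingHom)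
          = eval (fun o => Option.elim o ((β j)⁻¹ * kap (mt x) j) x) := by
        apply MvPolynomial.ringHom_ext
        · intro r; simp
        · intro o
          cases o
          · simp [eval_lamP, lam]
          · simp
      exact congrFun (congrArg DFunLike.coe h2) G
    have hfin : eval x₀ G' = 0 := by
      refine going_down (T := RS k 4 f) (irr_RS hf) (cl_RS 4 f) (ℓ := lamP f α)
        (lamP_isIntegral hα) (lamP_injective hf hα) hx₀ ?_ hβ ?_
      · intro i
        rw [eval_lamP]
        show kap (mt x₀) i = 0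
        rw [hκ]; rfl
      · intro x hx s hs h
        have hk : kap (mt x) = s • β := by
          ext i
          have := h i
          rw [eval_lamP] at this
          exact this
        rw [hG', hk]
        have : (β j)⁻¹ * (s • β) j = s := by
          simp only [Pi.smul_apply, smul_eq_mul]
          field_simp
        rw [this]
        exact hG x hx s hs hk
    rw [hG', hκ] at hfin
    simpa using hfin

end Pool.Agent.Lib.MP_60c747_ag
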