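import Pool.Agent.Lib.MP_60c747_ag.Explicit

set_option autoImplicit false

/-!
Examples of smooth curves of every `p`-rank.
-/

namespace Pool.Agent.Lib.MP_60c747_ag

open MvPolynomial

section

variable {k : Type*} [Field k]

private theorem ex_two [CharP k 2] : (2 : k) = 0 := CharP.cast_eq_zero k 2

private theorem ex_grad_Q (x : Fin 4 → k) (i : Fin 4) :
    eval x (pderiv i (Qstd k)) = ![x 1, x 0, x 3, x 2] i := by
  fin_cases i <;> simp [Qstd, pderiv_X]

/-- The gradient of `secStd A`. -/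
private theorem ex_grad_F [CharP k 2] (A : Matrix (Fin 4) (Fin 4) k) (x : Fin 4 → k) (i : Fin 4) :
    eval x (pderiv i (secStd A)) =
      ![A 0 0 * (x 2 * x 3) + A 0 1 * x 0 ^ 2 + A 2 1 * x 2 ^ 2 + A 3 1 * x 3 ^ 2,
        A 1 0 * x 1 ^ 2 + A 1 1 * (x 2 * x 3) + A 2 0 * x 2 ^ 2 + A 3 0 * x 3 ^ 2,
        A 0 0 * (x 0 * x 3) + A 0 3 * x 0 ^ 2 + A 1 1 * (x 1 * x 3) + A 1 3 * x 1 ^ 2 +
          A 2 3 * x 2 ^ 2 + A 3 3 * x 3 ^ 2,
        A 0 0 * (x 0 * x 2) + A 0 2 * x 0 ^ 2 + A 1 1 * (x 1 * x 2) + A 1 2 * x 1 ^ 2 +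
          A 2 2 * x 2 ^ 2 + A 3 2 * x 3 ^ 2] i := by
  have h2 : (2 : k) = 0 := ex_two
  fin_cases i
  · simp [secStd, pderiv_X]
    linear_combination (A 0 1 * x 0 ^ 2 + A 0 2 * (x 0 * x 3) + A 0 3 * (x 0 * x 2)) * h2
  · simp [secStd, pderiv_X]
    linear_combination (A 1 0 * x 1 ^ 2 + A 1 2 * (x 1 * x 3) + A 1 3 * (x 1 * x 2)) * h2
  · simp [secStd, pderiv_X]
    linear_combination (A 2 0 * (x 1 * x 2) + A 2 1 * (x 0 * x 2) + A 2 2 * (x 2 * x 3) +
      A 2 3 * x 2 ^ 2) * h2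
  · simp [secStd, pderiv_X]
    linear_combination (A 3 0 * (x 1 * x 3) + A 3 1 * (x 0 * x 3) + A 3 2 * x 3 ^ 2 +
      A 3 3 * (x 2 * x 3)) * h2

/-- Smoothness for the split quadric: no `(x, c)` with `x ≠ 0` such that `∇F = c ∇Q`, `Q = 0`. -/
private theorem ex_smooth [CharP k 2] (A : Matrix (Fin 4) (Fin 4) k)
    (h : ∀ (x : Fin 4 → k) (c : k), x 0 * x 1 + x 2 * x 3 = 0 →
      A 0 0 * (x 2 * x 3) + A 0 1 * x 0 ^ 2 + A 2 1 * x 2 ^ 2 + A 3 1 * x 3 ^ 2 = c * x 1 →
      A 1 0 * x 1 ^ 2 + A 1 1 * (x 2 * x 3) + A 2 0 * x 2 ^ 2 + A 3 0 * x 3 ^ 2 = c * x 0 →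
      A 0 0 * (x 0 * x 3) + A 0 3 * x 0 ^ 2 + A 1 1 * (x 1 * x 3) + A 1 3 * x 1 ^ 2 +
          A 2 3 * x 2 ^ 2 + A 3 3 * x 3 ^ 2 = c * x 3 →
      A 0 0 * (x 0 * x 2) + A 0 2 * x 0 ^ 2 + A 1 1 * (x 1 * x 2) + A 1 2 * x 1 ^ 2 +
          A 2 2 * x 2 ^ 2 + A 3 2 * x 3 ^ 2 = c * x 2 →
      x 0 = 0 ∧ x 1 = 0 ∧ x 2 = 0 ∧ x 3 = 0) : SmoothPair (Qstd k) (secStd A) := by
  intro x hx hQ _ s t hst
  have hx' : ¬ (x 0 = 0 ∧ x 1 = 0 ∧ x 2 = 0 ∧ x 3 = 0) := by
    rintro ⟨h0, h1, h2, h3⟩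
    apply hx
    funext i
    fin_cases i <;> assumption
  have hQ' : x 0 * x 1 + x 2 * x 3 = 0 := by simpa [Qstd] using hQ
  have h2 : (2 : k) = 0 := ex_two
  have e0 := hst 0
  have e1 := hst 1
  have e2 := hst 2
  have e3 := hst 3
  rw [ex_grad_Q, ex_grad_F] at e0 e1 e2 e3
  simp only [Matrix.cons_val] at e0 e1 e2 e3
  by_cases ht : t = 0
  · subst ht
    refine ⟨?_, rfl⟩
    by_contra hs
    apply hx'
    simp only [zero_mul, add_zero, mul_eq_zero, hs, false_or] at e0 e1 e2 e3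
    exact ⟨e1, e0, e3, e2⟩
  · exfalso
    apply hx'
    apply h x (t⁻¹ * s) hQ'
    · field_simp
      linear_combination e0 - s * x 1 * h2
    · field_simp
      linear_combination e1 - s * x 0 * h2
    · field_simp
      linear_combination e2 - s * x 3 * h2
    · field_simp
      linear_combination e3 - s * x 2 * h2

private theorem ex_prank (A : Matrix (Fin 4) (Fin 4) k) :
    prank (Qstd k) (secStd A) = (it A 4).rank := by
  rw [prank, HW_secStd]


private noncomputable def A0 (k : Type*) [Field k] : Matrix (Fin 4) (Fin 4) k :=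
  !![0, 1, 0, 0; 0, 0, 1, 1; 1, 0, 0, 0; 1, 0, 0, 0]

private noncomputable def A1 (k : Type*) [Field k] : Matrix (Fin 4) (Fin 4) k :=
  !![0, 1, 0, 0; 0, 1, 1, 1; 1, 0, 0, 0; 1, 0, 0, 0]

private noncomputable def A2 (k : Type*) [Field k] : Matrix (Fin 4) (Fin 4) k :=
  !![0, 1, 0, 0; 1, 0, 0, 0; 0, 0, 0, 1; 1, 1, 0, 0]

private noncomputable def A3 (k : Type*) [Field k] : Matrix (Fin 4) (Fin 4) k :=
  !![0, 1, 0, 0; 0, 0, 1, 0; 1, 0, 0, 0; 1, 0, 0, 0]

private noncomputable def A4 (k : Type*) [Field k] : Matrix (Fin 4) (Fin 4) k :=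
  !![0, 1, 1, 0; 0, 0, 0, 1; 0, 1, 0, 0; 1, 0, 0, 0]

private theorem ex_A0 [CharP k 2] : SmoothPair (Qstd k) (secStd (A0 k)) := by
  apply ex_smooth
  intro x c hQ h0 h1 h2 h3
  have two : (2 : k) = 0 := ex_two
  simp [A0] at h0 h1 h2 h3
  by_cases hc : c = 0
  · subst hc
    have e0 : x 0 = 0 := by simpa using h0
    have e1 : x 1 = 0 := by simpa using h2
    have e2 : x 2 ^ 2 + x 3 ^ 2 = 0 := by simpa using h1
    have e3 : (x 2 + x 3) ^ 2 = 0 := by linear_combination e2 + x 2 * x 3 * two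
    have e4 : x 2 + x 3 = 0 := by simpa using e3
    have e5 : x 2 * x 3 = 0 := by simpa [e0] using hQ
    have e6 : x 2 ^ 2 = 0 := by linear_combination x 2 * e4 - e5
    have e7 : x 2 = 0 := by simpa using e6
    exact ⟨e0, e1, e7, by simpa [e7] using e4⟩
  · have e1 : x 2 = x 3 := by
      have : c * (x 2 - x 3) = 0 := by linear_combination h2 - h3
      have := (mul_eq_zero.1 this).resolve_left hc
      exact sub_eq_zero.1 this
    have e2 : c * x 0 = 0 := by
      rw [← h1, e1]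
      linear_combination x 3 ^ 2 * two
    have e3 : x 0 = 0 := (mul_eq_zero.1 e2).resolve_left hc
    have e4 : x 1 = 0 := by
      rw [e3] at h0
      have : c * x 1 = 0 := by simpa using h0.symm
      exact (mul_eq_zero.1 this).resolve_left hc
    have e5 : x 3 = 0 := by
      rw [e4] at h2
      have : c * x 3 = 0 := by simpa using h2.symm
      exact (mul_eq_zero.1 this).resolve_left hc
    exact ⟨e3, e4, by rw [e1, e5], e5⟩

private theorem ex_A3 [CharP k 2] : SmoothPair (Qstd k) (secStd (A3 k)) := by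
  apply ex_smooth
  intro x c hQ h0 h1 h2 h3
  have two : (2 : k) = 0 := ex_two
  simp [A3] at h0 h1 h2 h3
  by_cases hc : c = 0
  · subst hc
    have e0 : x 0 = 0 := by simpa using h0
    have e1 : x 1 = 0 := by simpa using h3
    have e2 : x 2 ^ 2 + x 3 ^ 2 = 0 := by simpa using h1
    have e3 : (x 2 + x 3) ^ 2 = 0 := by linear_combination e2 + x 2 * x 3 * two
    have e4 : x 2 + x 3 = 0 := by simpa using e3
    have e5 : x 2 * x 3 = 0 := by simpa [e0] using hQ
    have e6 : x 2 ^ 2 = 0 := by linear_combination x 2 * e4 - e5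
    have e7 : x 2 = 0 := by simpa using e6
    exact ⟨e0, e1, e7, by simpa [e7] using e4⟩
  · have e1 : x 3 = 0 := h2.resolve_left hc
    rw [e1] at h1 hQ
    simp at h1 hQ
    rcases hQ with e2 | e2
    · rw [e2] at h0 h1
      have e3 : x 1 = 0 := by
        have : c * x 1 = 0 := by simpa using h0.symm
        exact (mul_eq_zero.1 this).resolve_left hc
      have e4 : x 2 = 0 := by simpa using h1
      exact ⟨e2, e3, e4, e1⟩
    · rw [e2] at h0
      have e3 : x 0 = 0 := by simpa using h0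
      rw [e3] at h1
      have e4 : x 2 = 0 := by simpa using h1
      exact ⟨e3, e2, e4, e1⟩

private theorem ex_A2 [CharP k 2] : SmoothPair (Qstd k) (secStd (A2 k)) := by
  apply ex_smooth
  intro x c hQ h0 h1 h2 h3
  have two : (2 : k) = 0 := ex_two
  simp [A2] at h0 h1 h2 h3
  by_cases hc : c = 0
  · subst hc
    have e2 : x 2 = 0 := by simpa using h2
    have e0' : (x 0 + x 3) ^ 2 = 0 := by linear_combination h0 + x 0 * x 3 * two
    have e0 : x 0 + x 3 = 0 := by simpa using e0'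
    have e1' : (x 1 + x 3) ^ 2 = 0 := by linear_combination h1 + x 1 * x 3 * two
    have e1 : x 1 + x 3 = 0 := by simpa using e1'
    have e3 : x 0 * x 1 = 0 := by simpa [e2] using hQ
    have e4 : x 3 ^ 2 = 0 := by linear_combination x 3 * e0 - x 0 * e1 + e3
    have e5 : x 3 = 0 := by simpa using e4
    exact ⟨by simpa [e5] using e0, by simpa [e5] using e1, e2, e5⟩
  · have e1 : x 2 = 0 := h3.resolve_left hc
    rw [e1] at h2
    have e2 : x 3 = 0 := by
      have : c * x 3 = 0 := by simpa using h2.symm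
      exact (mul_eq_zero.1 this).resolve_left hc
    rw [e1, e2] at hQ
    rw [e2] at h0 h1
    simp at hQ h0 h1
    rcases hQ with e3 | e3
    · rw [e3] at h1
      exact ⟨e3, by simpa using h1, e1, e2⟩
    · rw [e3] at h0
      exact ⟨by simpa using h0, e3, e1, e2⟩

private theorem ex_A1 [CharP k 2] : SmoothPair (Qstd k) (secStd (A1 k)) := by
  apply ex_smooth
  intro x c hQ h0 h1 h2 h3
  have two : (2 : k) = 0 := ex_two
  simp [A1] at h0 h1 h2 h3
  have key : x 1 = c → x 0 = 0 ∧ x 1 = 0 ∧ x 2 = 0 ∧ x 3 = 0 := by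
    intro h
    have e1 : x 1 ^ 2 = 0 := by linear_combination h2 - x 3 * h
    have e2 : x 1 = 0 := by simpa using e1
    rw [e2] at h0 hQ
    rw [← h, e2] at h1
    have e3 : x 0 = 0 := by simpa using h0
    simp only [mul_zero, zero_mul, zero_add] at hQ h1
    have e4 : (x 2 + x 3) ^ 2 = 0 := by linear_combination h1 + hQ
    have e5 : x 2 + x 3 = 0 := by simpa using e4
    have e6 : x 2 ^ 2 = 0 := by linear_combination x 2 * e5 - hQ
    have e7 : x 2 = 0 := by simpa using e6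
    exact ⟨e3, e2, e7, by simpa [e7] using e5⟩
  have h4 : (x 1 - c) * (x 3 - x 2) = 0 := by linear_combination h2 - h3
  rcases mul_eq_zero.1 h4 with h5 | h5
  · exact key (sub_eq_zero.1 h5)
  · have e1 : x 3 = x 2 := sub_eq_zero.1 h5
    rw [e1] at hQ h1
    have e2 : x 0 * (x 1 + c) = 0 := by linear_combination hQ - h1 + x 2 ^ 2 * two
    rcases mul_eq_zero.1 e2 with e3 | e3
    · rw [e3] at h1
      have e4 : x 2 ^ 2 = 0 := by linear_combination h1 - x 2 ^ 2 * two
      have e5 : x 2 = 0 := by simpa using e4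
      rw [e1, e5] at h2
      have e6 : x 1 = 0 := by simpa using h2
      exact ⟨e3, e6, e5, by rw [e1, e5]⟩
    · exact key (by linear_combination e3 - c * two)

private theorem ex_A4 [CharP k 2] : SmoothPair (Qstd k) (secStd (A4 k)) := by
  apply ex_smooth
  intro x c hQ h0 h1 h2 h3
  have two : (2 : k) = 0 := ex_two
  simp [A4] at h0 h1 h2 h3
  by_cases hc : c = 0
  · subst hc
    have e3 : x 3 = 0 := by simpa using h1
    have e1 : x 1 = 0 := by simpa using h2
    have e0 : x 0 = 0 := by simpa using h3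
    rw [e0] at h0
    exact ⟨e0, e1, by simpa using h0, e3⟩
  · have e3 : c * x 3 = x 1 ^ 2 := h2.symm
    have e0 : c ^ 3 * x 0 = x 1 ^ 4 := by
      linear_combination (c * x 3 + x 1 ^ 2) * e3 - c ^ 2 * h1
    have e2 : c ^ 7 * x 2 = x 1 ^ 8 := by
      linear_combination (c ^ 3 * x 0 + x 1 ^ 4) * e0 - c ^ 6 * h3
    have e4 : x 1 ^ 5 * (c ^ 5 + x 1 ^ 5) = 0 := by
      linear_combination c ^ 8 * hQ - c ^ 5 * x 1 * e0 - c * x 3 * e2 - x 1 ^ 8 * e3
    have e5 : c ^ 8 * x 1 ^ 8 + x 1 ^ 16 = c ^ 15 * x 1 := by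
      linear_combination c ^ 14 * h0 - c ^ 8 * (c ^ 3 * x 0 + x 1 ^ 4) * e0 -
        (c ^ 7 * x 2 + x 1 ^ 8) * e2
    have e1 : x 1 = 0 := by
      rcases mul_eq_zero.1 e4 with h | h
      · simpa using h
      · by_contra hne
        have h6 : c ^ 13 * x 1 ^ 3 = 0 := by
          linear_combination -e5 + (c ^ 8 * x 1 ^ 3 + x 1 * (x 1 ^ 10 - x 1 ^ 5 * c ^ 5 + c ^ 10)) * h
            - c ^ 15 * x 1 * two
        rcases mul_eq_zero.1 h6 with h7 | h7
        · exact hc (by simpa using h7)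
        · exact hne (by simpa using h7)
    rw [e1] at e0 e2 e3
    refine ⟨?_, e1, ?_, ?_⟩
    · simpa [hc] using e0
    · simpa [hc] using e2
    · simpa [hc] using e3

private theorem ex_rank {f : ℕ} (M : Matrix (Fin 4) (Fin 4) k) (U : Matrix (Fin 4) (Fin f) k)
    (V : Matrix (Fin f) (Fin 4) k) (P : Matrix (Fin f) (Fin 4) k) (W : Matrix (Fin 4) (Fin f) k)
    (h1 : M = U * V) (h2 : P * M * W = 1) : M.rank = f := by
  apply le_antisymm
  · rw [h1]
    exact (Matrix.rank_mul_le_left _ _).trans (by simpa using Matrix.rank_le_width U)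
  · have h3 : (1 : Matrix (Fin f) (Fin f) k).rank = f := by simp
    rw [← h3, ← h2]
    exact (Matrix.rank_mul_le_left _ _).trans (Matrix.rank_mul_le_right _ _)

private theorem ex_it4 (A : Matrix (Fin 4) (Fin 4) k) (hA : fr A = A) [CharP k 2] :
    it A 4 = (A * A) * (A * A) := by
  simp only [it, fr_mul, hA, fr_one, one_mul]
  simp only [Matrix.mul_assoc]

/-- For each `f ≤ 4` there is a smooth pair of `p`-rank `f`. -/
theorem exists_example (k : Type*) [Field k] [CharP k 2] {f : ℕ} (hf : f ≤ 4) :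
    ∃ Q F : MvPolynomial (Fin 4) k, Q.IsHomogeneous 2 ∧ F.IsHomogeneous 3 ∧ SmoothPair Q F ∧
      prank Q F = f := by
  have two : (1 + 1 : k) = 0 := by
    have : (2 : k) = 0 := ex_two
    linear_combination this
  interval_cases f
  · refine ⟨_, _, Qstd_isHomogeneous, secStd_isHomogeneous _, ex_A0, ?_⟩
    rw [ex_prank, ex_it4]
    · have : A0 k * A0 k * (A0 k * A0 k) = 0 := by
        ext i j
        fin_cases i <;> fin_cases j <;> simp [A0, Matrix.mul_apply, Fin.sum_univ_four, two]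
      rw [this]
      simp
    · ext i j
      fin_cases i <;> fin_cases j <;> simp [A0, fr]
  · refine ⟨_, _, Qstd_isHomogeneous, secStd_isHomogeneous _, ex_A1, ?_⟩
    rw [ex_prank, ex_it4]
    · refine ex_rank _ !![1; 1; 1; 1] !![0, 1, 1, 1] !![1, 0, 0, 0] !![0; 1; 0; 0] ?_ ?_
      · ext i j
        fin_cases i <;> fin_cases j <;> simp [A1, Matrix.mul_apply, Fin.sum_univ_four, two]
      · ext i j
        fin_cases i <;> fin_cases j <;> simp [A1, Matrix.mul_apply, Fin.sum_univ_four, two]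
    · ext i j
      fin_cases i <;> fin_cases j <;> simp [A1, fr]
  · refine ⟨_, _, Qstd_isHomogeneous, secStd_isHomogeneous _, ex_A2, ?_⟩
    rw [ex_prank, ex_it4]
    · refine ex_rank _ !![1, 0; 0, 1; 1, 1; 1, 1] !![1, 0, 0, 0; 0, 1, 0, 0]
        !![1, 0, 0, 0; 0, 1, 0, 0] !![1, 0; 0, 1; 0, 0; 0, 0] ?_ ?_
      · ext i j
        fin_cases i <;> fin_cases j <;> simp [A2, Matrix.mul_apply, Fin.sum_univ_four, two]
      · ext i j
        fin_cases i <;> fin_cases j <;> simp [A2, Matrix.mul_apply, Fin.sum_univ_four, two]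
    · ext i j
      fin_cases i <;> fin_cases j <;> simp [A2, fr]
  · refine ⟨_, _, Qstd_isHomogeneous, secStd_isHomogeneous _, ex_A3, ?_⟩
    rw [ex_prank, ex_it4]
    · refine ex_rank _ !![1, 0, 0; 0, 1, 0; 0, 0, 1; 0, 0, 1]
        !![0, 1, 0, 0; 0, 0, 1, 0; 1, 0, 0, 0]
        !![1, 0, 0, 0; 0, 1, 0, 0; 0, 0, 1, 0] !![0, 0, 1; 1, 0, 0; 0, 1, 0; 0, 0, 0] ?_ ?_
      · ext i j
        fin_cases i <;> fin_cases j <;> simp [A3, Matrix.mul_apply, Fin.sum_univ_four, Fin.sum_univ_three, two]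
      · ext i j
        fin_cases i <;> fin_cases j <;> simp [A3, Matrix.mul_apply, Fin.sum_univ_four, Fin.sum_univ_three, two]
    · ext i j
      fin_cases i <;> fin_cases j <;> simp [A3, fr]
  · refine ⟨_, _, Qstd_isHomogeneous, secStd_isHomogeneous _, ex_A4, ?_⟩
    rw [ex_prank, ex_it4]
    · have hd : IsUnit (A4 k).det := by
        have h1 : A4 k * !![0, 0, 0, 1; 0, 0, 1, 0; 1, 0, 1, 0; 0, 1, 0, 0] = 1 := by
          ext i j
          fin_cases i <;> fin_cases j <;>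
            simp [A4, Matrix.mul_apply, Fin.sum_univ_four, two]
        have h2 := congrArg Matrix.det h1
        rw [Matrix.det_mul, Matrix.det_one] at h2
        exact IsUnit.of_mul_eq_one _ h2
      rw [Matrix.rank_of_isUnit]
      · simp
      · rw [Matrix.isUnit_iff_isUnit_det]
        simp only [Matrix.det_mul]
        exact (hd.mul hd).mul (hd.mul hd)
    · ext i j
      fin_cases i <;> fin_cases j <;> simp [A4, fr]

end

end Pool.Agent.Lib.MP_60c747_ag
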