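import Pool.Agent.Lib.MP_60c747_ag.Law

set_option autoImplicit false
set_option linter.unusedSimpArgs false
set_option linter.unusedTactic false
set_option linter.unreachableTactic false

/-!
The Hasse-Witt matrices for the quadrics `Qstd` and `Qs s`.
-/

namespace Pool.Agent.Lib.MP_60c747_ag

open MvPolynomial

variable {R : Type*} [CommRing R]

/-- The cubic with prescribed Hasse-Witt matrix for the split quadric. -/
noncomputable def secStd (A : Matrix (Fin 4) (Fin 4) R) : MvPolynomial (Fin 4) R :=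
  C (A 0 0) * (X 0 * X 2 * X 3) + C (A 0 1) * (X 0 * X 0 * X 0) + C (A 0 2) * (X 0 * X 0 * X 3) +
    C (A 0 3) * (X 0 * X 0 * X 2) + C (A 1 0) * (X 1 * X 1 * X 1) + C (A 1 1) * (X 1 * X 2 * X 3) +
    C (A 1 2) * (X 1 * X 1 * X 3) + C (A 1 3) * (X 1 * X 1 * X 2) +
    C (A 2 0) * (X 1 * X 2 * X 2) + C (A 2 1) * (X 0 * X 2 * X 2) +
    C (A 2 2) * (X 2 * X 2 * X 3) + C (A 2 3) * (X 2 * X 2 * X 2) +
    C (A 3 0) * (X 1 * X 3 * X 3) + C (A 3 1) * (X 0 * X 3 * X 3) +
    C (A 3 2) * (X 3 * X 3 * X 3) + C (A 3 3) * (X 2 * X 3 * X 3)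

/-- The cubics in normal form for the quadrics `Qs s`. -/
noncomputable def secS (A : Matrix (Fin 4) (Fin 4) R) (β : Fin 6 → R) : MvPolynomial (Fin 4) R :=
  C (A 0 0) * (X 0 * X 2 * X 3) + C (A 1 1) * (X 1 * X 2 * X 3) + C (A 0 2) * (X 0 * X 0 * X 3) +
    C (A 0 3) * (X 0 * X 0 * X 2) + C (A 1 2) * (X 1 * X 1 * X 3) + C (A 1 3) * (X 1 * X 1 * X 2) +
    C (A 2 2) * (X 2 * X 2 * X 3) + C (A 2 3) * (X 2 * X 2 * X 2) +
    C (A 3 2) * (X 3 * X 3 * X 3) + C (A 3 3) * (X 2 * X 3 * X 3) +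
    C (β 0) * (X 0 * X 0 * X 0) + C (β 1) * (X 1 * X 1 * X 1) + C (β 2) * (X 1 * X 3 * X 3) +
    C (β 3) * (X 0 * X 3 * X 3) + C (β 4) * (X 0 * X 2 * X 2) + C (β 5) * (X 1 * X 2 * X 2)

private theorem expl_exv_inj (e e' : Fin 4 → ℕ) : exv e = exv e' ↔ e = e' :=
  Finsupp.equivFunOnFinite.symm.injective.eq_iff

private theorem expl_exv_add (e e' : Fin 4 → ℕ) : exv e + exv e' = exv (fun t => e t + e' t) := by
  ext t; simp [exv]

private theorem expl_exv_sub (e e' : Fin 4 → ℕ) : exv e - exv e' = exv (fun t => e t - e' t) := by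
  ext t; simp [exv]

private theorem expl_exv_le (e e' : Fin 4 → ℕ) : exv e ≤ exv e' ↔ e ≤ e' := by
  rw [Finsupp.le_def, Pi.le_def]; simp [exv]

private theorem expl_coeff_mon (e t : Fin 4 → ℕ) (a : R) :
    coeff (exv t) (monomial (exv e) a) = if e = t then a else 0 := by
  rw [coeff_monomial]; simp only [expl_exv_inj]

private theorem expl_X (i : Fin 4) :
    (X i : MvPolynomial (Fin 4) R) = monomial (exv (fun t => if t = i then 1 else 0)) 1 := by
  have h : exv (fun t => if t = i then 1 else 0) = Finsupp.single i 1 := by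
    ext t
    simp [exv, Finsupp.single_apply, eq_comm]
  rw [h]; rfl

private theorem expl_XX (i j : Fin 4) :
    (X i * X j : MvPolynomial (Fin 4) R) =
      monomial (exv (fun t => (if t = i then 1 else 0) + (if t = j then 1 else 0))) 1 := by
  rw [expl_X, expl_X, monomial_mul, expl_exv_add, mul_one]

private theorem expl_XXX (i j l : Fin 4) (a : R) :
    (C a * (X i * X j * X l) : MvPolynomial (Fin 4) R) =
      monomial (exv (fun t => (if t = i then 1 else 0) + (if t = j then 1 else 0) +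
        (if t = l then 1 else 0))) a := by
  rw [expl_XX, expl_X, monomial_mul, expl_exv_add, C_mul_monomial, mul_one, mul_one]

private theorem expl_hom (i j l : Fin 4) (a : R) :
    (C a * (X i * X j * X l) : MvPolynomial (Fin 4) R).IsHomogeneous 3 := by
  have := (isHomogeneous_C (Fin 4) a).mul (((isHomogeneous_X R i).mul (isHomogeneous_X R j)).mul
    (isHomogeneous_X R l))
  simpa using this

theorem secStd_isHomogeneous (A : Matrix (Fin 4) (Fin 4) R) : (secStd A).IsHomogeneous 3 := by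
  unfold secStd
  repeat' apply IsHomogeneous.add
  all_goals exact expl_hom _ _ _ _

theorem secS_isHomogeneous (A : Matrix (Fin 4) (Fin 4) R) (β : Fin 6 → R) :
    (secS A β).IsHomogeneous 3 := by
  unfold secS
  repeat' apply IsHomogeneous.add
  all_goals exact expl_hom _ _ _ _

theorem Qstd_isHomogeneous : (Qstd R).IsHomogeneous 2 := by
  unfold Qstd
  exact ((isHomogeneous_X R 0).mul (isHomogeneous_X R 1)).add
    ((isHomogeneous_X R 2).mul (isHomogeneous_X R 3))

theorem Qs_isHomogeneous (s : R) : (Qs s).IsHomogeneous 2 := by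
  unfold Qs
  refine (((isHomogeneous_X R 0).mul (isHomogeneous_X R 1)).add ?_).add ?_
  · simpa using (isHomogeneous_X R (2 : Fin 4)).pow 2
  · simpa using (isHomogeneous_C (Fin 4) s).mul
      ((isHomogeneous_X R 2).mul (isHomogeneous_X R 3))

theorem lin_isHomogeneous (l : Fin 4 → R) : (lin l).IsHomogeneous 1 := by
  unfold lin
  apply IsHomogeneous.sum
  intro i _
  simpa using (isHomogeneous_C (Fin 4) (l i)).mul (isHomogeneous_X R i)

private noncomputable def expl_cf (F : MvPolynomial (Fin 4) R) (a b c d : ℕ) : R :=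
  coeff (exv ![a, b, c, d]) F

private theorem expl_coeff_cf (F : MvPolynomial (Fin 4) R) (e : Fin 4 → ℕ) :
    coeff (exv e) F = expl_cf F (e 0) (e 1) (e 2) (e 3) := by
  unfold expl_cf
  congr 2
  ext t
  fin_cases t <;> rfl

private theorem expl_coeff_mul (F : MvPolynomial (Fin 4) R) (e t : Fin 4 → ℕ) (a : R) :
    coeff (exv t) (monomial (exv e) a * F) =
      if e 0 ≤ t 0 ∧ e 1 ≤ t 1 ∧ e 2 ≤ t 2 ∧ e 3 ≤ t 3 then
        a * expl_cf F (t 0 - e 0) (t 1 - e 1) (t 2 - e 2) (t 3 - e 3) else 0 := by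
  have hiff : exv e ≤ exv t ↔ (e 0 ≤ t 0 ∧ e 1 ≤ t 1 ∧ e 2 ≤ t 2 ∧ e 3 ≤ t 3) := by
    rw [expl_exv_le, Pi.le_def]
    simp [Fin.forall_fin_succ]
  rw [coeff_monomial_mul']
  by_cases hc : e 0 ≤ t 0 ∧ e 1 ≤ t 1 ∧ e 2 ≤ t 2 ∧ e 3 ≤ t 3
  · rw [if_pos hc, if_pos (hiff.2 hc), expl_exv_sub, expl_coeff_cf]
  · rw [if_neg hc, if_neg (fun h => hc (hiff.1 h))]

private theorem expl_ext {F G : MvPolynomial (Fin 4) R} (hF : F.IsHomogeneous 3)
    (hG : G.IsHomogeneous 3)
    (h : ∀ a b c d : ℕ, a + b + c + d = 3 → coeff (exv ![a, b, c, d]) F =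
      coeff (exv ![a, b, c, d]) G) : F = G := by
  ext m
  have hm : m = exv ![m 0, m 1, m 2, m 3] := by
    ext t
    fin_cases t <;> simp [exv]
  by_cases hd : m.degree = 3
  · rw [hm]
    apply h
    rw [Finsupp.degree_eq_sum] at hd
    have h4 : m 0 + m 1 + m 2 + m 3 = ∑ i, m i := (Fin.sum_univ_four _).symm
    rw [h4]
    exact hd
  · rw [hF.coeff_eq_zero hd, hG.coeff_eq_zero hd]

/-- The Hasse-Witt matrix of `Qstd * secStd A` is `A`. -/
theorem HW_secStd (A : Matrix (Fin 4) (Fin 4) R) : HW (Qstd R * secStd A) = A := by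
  ext i j
  unfold HW Qstd secStd
  simp only [expl_XXX]
  simp only [expl_XX, add_mul, mul_add, monomial_mul, expl_exv_add, one_mul, coeff_add,
    expl_coeff_mon]
  fin_cases i <;> fin_cases j <;> simp [funext_iff, Fin.forall_fin_succ]

/-- Every cubic is a multiple of `Qstd` plus `secStd` of its Hasse-Witt matrix: the coefficients of
`l` are those of `x₀x₁xⱼ`. -/
theorem exists_secStd [CharP R 2] {F : MvPolynomial (Fin 4) R} (hF : F.IsHomogeneous 3) :
    ∃ l : Fin 4 → R, F = secStd (HW (Qstd R * F)) + lin l * Qstd R := by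
  refine ⟨![expl_cf F 2 1 0 0, expl_cf F 1 2 0 0, expl_cf F 1 1 1 0, expl_cf F 1 1 0 1], ?_⟩
  apply expl_ext hF
  · exact (secStd_isHomogeneous _).add ((lin_isHomogeneous _).mul Qstd_isHomogeneous)
  have hHW : ∀ i j : Fin 4, HW (Qstd R * F) i j =
      coeff (exv fun l => 1 + (if l = i then 2 else 0) - (if l = j then 1 else 0))
        (monomial (exv (fun t => (if t = 0 then 1 else 0) + (if t = 1 then 1 else 0))) 1 * F +
          monomial (exv (fun t => (if t = 2 then 1 else 0) + (if t = 3 then 1 else 0))) 1 * F) := by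
    intro i j
    unfold HW Qstd
    rw [add_mul, expl_XX, expl_XX]
  simp only [coeff_add, expl_coeff_mul] at hHW
  have h00 : HW (Qstd R * F) 0 0 = expl_cf F 1 0 1 1 + expl_cf F 2 1 0 0 := by
    rw [hHW]; simp
  have h01 : HW (Qstd R * F) 0 1 = expl_cf F 3 0 0 0 := by
    rw [hHW]; simp
  have h02 : HW (Qstd R * F) 0 2 = expl_cf F 2 0 0 1 := by
    rw [hHW]; simp
  have h03 : HW (Qstd R * F) 0 3 = expl_cf F 2 0 1 0 := by
    rw [hHW]; simp
  have h10 : HW (Qstd R * F) 1 0 = expl_cf F 0 3 0 0 := by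
    rw [hHW]; simp
  have h11 : HW (Qstd R * F) 1 1 = expl_cf F 0 1 1 1 + expl_cf F 1 2 0 0 := by
    rw [hHW]; simp
  have h12 : HW (Qstd R * F) 1 2 = expl_cf F 0 2 0 1 := by
    rw [hHW]; simp
  have h13 : HW (Qstd R * F) 1 3 = expl_cf F 0 2 1 0 := by
    rw [hHW]; simp
  have h20 : HW (Qstd R * F) 2 0 = expl_cf F 0 1 2 0 := by
    rw [hHW]; simp
  have h21 : HW (Qstd R * F) 2 1 = expl_cf F 1 0 2 0 := by
    rw [hHW]; simp
  have h22 : HW (Qstd R * F) 2 2 = expl_cf F 0 0 2 1 + expl_cf F 1 1 1 0 := by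
    rw [hHW]; simp
  have h23 : HW (Qstd R * F) 2 3 = expl_cf F 0 0 3 0 := by
    rw [hHW]; simp
  have h30 : HW (Qstd R * F) 3 0 = expl_cf F 0 1 0 2 := by
    rw [hHW]; simp
  have h31 : HW (Qstd R * F) 3 1 = expl_cf F 1 0 0 2 := by
    rw [hHW]; simp
  have h32 : HW (Qstd R * F) 3 2 = expl_cf F 0 0 0 3 := by
    rw [hHW]; simp
  have h33 : HW (Qstd R * F) 3 3 = expl_cf F 0 0 1 2 + expl_cf F 1 1 0 1 := by
    rw [hHW]; simp
  clear hHW
  generalize HW (Qstd R * F) = A at *
  have hl : ∀ l : Fin 4 → R, lin l * Qstd R =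
      ∑ i, (C (l i) * (X i * X 0 * X 1) + C (l i) * (X i * X 2 * X 3)) := by
    intro l
    unfold lin Qstd
    rw [Finset.sum_mul]
    apply Finset.sum_congr rfl
    intro i _
    ring
  intro a b c d h3
  rw [hl]
  unfold secStd
  simp only [Fin.sum_univ_four, expl_XXX, coeff_add, expl_coeff_mon]
  rw [expl_coeff_cf]
  have h2 : (2 : R) = 0 := CharTwo.two_eq_zero
  have ha : a ≤ 3 := by omega
  have hb : b ≤ 3 := by omega
  have hc : c ≤ 3 := by omega
  have hd : d = 3 - a - b - c := by omega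
  subst hd
  interval_cases a <;> interval_cases b <;> interval_cases c <;>
    first
    | omega
    | (simp [funext_iff, Fin.forall_fin_succ, h00, h01, h02, h03, h10, h11, h12, h13, h20, h21, h22, h23, h30, h31, h32, h33]; done)
    | (simp [funext_iff, Fin.forall_fin_succ, h00, h01, h02, h03, h10, h11, h12, h13, h20, h21, h22, h23, h30, h31, h32, h33]; grind)

/-- The Hasse-Witt matrix of `Qs s * secS A β` is `A` if `kap A = s β`. -/
theorem HW_secS [CharP R 2] {A : Matrix (Fin 4) (Fin 4) R} {β : Fin 6 → R} {s : R}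
    (h : kap A = s • β) : HW (Qs s * secS A β) = A := by
  have h0 : A 0 1 = s * β 0 := congrFun h 0
  have h1 : A 1 0 = s * β 1 := congrFun h 1
  have h2 : A 3 0 = s * β 2 := congrFun h 2
  have h3 : A 3 1 = s * β 3 := congrFun h 3
  have h4 : A 2 1 + A 0 0 = s * β 4 := congrFun h 4
  have h5 : A 2 0 + A 1 1 = s * β 5 := congrFun h 5
  have h6 : A 2 1 = s * β 4 + A 0 0 := by
    rw [← h4, add_assoc, CharTwo.add_self_eq_zero, add_zero]
  have h7 : A 2 0 = s * β 5 + A 1 1 := by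
    rw [← h5, add_assoc, CharTwo.add_self_eq_zero, add_zero]
  ext i j
  unfold HW Qs secS
  simp only [expl_XXX, sq]
  simp only [expl_XX, add_mul, mul_add, monomial_mul, expl_exv_add, one_mul, coeff_add,
    C_mul_monomial, mul_one, expl_coeff_mon]
  fin_cases i <;> fin_cases j <;>
    simp [funext_iff, Fin.forall_fin_succ, h0, h1, h2, h3, h6, h7] <;> ring

/-- Every cubic is a multiple of the cone `Qs 0` plus a cubic in normal form. -/
theorem exists_secS [CharP R 2] {F : MvPolynomial (Fin 4) R} (hF : F.IsHomogeneous 3) :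
    ∃ (β : Fin 6 → R) (l : Fin 4 → R),
      F = secS (HW (Qs (0 : R) * F)) β + lin l * Qs (0 : R) ∧ kap (HW (Qs (0 : R) * F)) = 0 := by
  have hHW : ∀ i j : Fin 4, HW (Qs (0 : R) * F) i j =
      coeff (exv fun l => 1 + (if l = i then 2 else 0) - (if l = j then 1 else 0))
        (monomial (exv (fun t => (if t = 0 then 1 else 0) + (if t = 1 then 1 else 0))) 1 * F +
          monomial (exv (fun t => (if t = 2 then 1 else 0) + (if t = 2 then 1 else 0))) 1 * F) := by
    intro i j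
    unfold HW Qs
    rw [C_0, zero_mul, add_zero, add_mul, sq, expl_XX, expl_XX]
  simp only [coeff_add, expl_coeff_mul] at hHW
  have h00 : HW (Qs (0 : R) * F) 0 0 = expl_cf F 1 0 1 1 := by
    rw [hHW]; simp
  have h01 : HW (Qs (0 : R) * F) 0 1 = 0 := by
    rw [hHW]; simp
  have h02 : HW (Qs (0 : R) * F) 0 2 = expl_cf F 2 0 0 1 := by
    rw [hHW]; simp
  have h03 : HW (Qs (0 : R) * F) 0 3 = expl_cf F 2 0 1 0 := by
    rw [hHW]; simp
  have h10 : HW (Qs (0 : R) * F) 1 0 = 0 := by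
    rw [hHW]; simp
  have h11 : HW (Qs (0 : R) * F) 1 1 = expl_cf F 0 1 1 1 := by
    rw [hHW]; simp
  have h12 : HW (Qs (0 : R) * F) 1 2 = expl_cf F 0 2 0 1 := by
    rw [hHW]; simp
  have h13 : HW (Qs (0 : R) * F) 1 3 = expl_cf F 0 2 1 0 := by
    rw [hHW]; simp
  have h20 : HW (Qs (0 : R) * F) 2 0 = expl_cf F 0 1 1 1 := by
    rw [hHW]; simp
  have h21 : HW (Qs (0 : R) * F) 2 1 = expl_cf F 1 0 1 1 := by
    rw [hHW]; simp
  have h22 : HW (Qs (0 : R) * F) 2 2 = expl_cf F 0 0 2 1 + expl_cf F 1 1 0 1 := by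
    rw [hHW]; simp
  have h23 : HW (Qs (0 : R) * F) 2 3 = expl_cf F 0 0 3 0 + expl_cf F 1 1 1 0 := by
    rw [hHW]; simp
  have h30 : HW (Qs (0 : R) * F) 3 0 = 0 := by
    rw [hHW]; simp
  have h31 : HW (Qs (0 : R) * F) 3 1 = 0 := by
    rw [hHW]; simp
  have h32 : HW (Qs (0 : R) * F) 3 2 = expl_cf F 0 0 0 3 := by
    rw [hHW]; simp
  have h33 : HW (Qs (0 : R) * F) 3 3 = expl_cf F 0 0 1 2 := by
    rw [hHW]; simp
  clear hHW
  have h2 : (2 : R) = 0 := CharTwo.two_eq_zero
  refine ⟨![expl_cf F 3 0 0 0, expl_cf F 0 3 0 0, expl_cf F 0 1 0 2, expl_cf F 1 0 0 2,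
    expl_cf F 1 0 2 0 + expl_cf F 2 1 0 0, expl_cf F 0 1 2 0 + expl_cf F 1 2 0 0],
    ![expl_cf F 2 1 0 0, expl_cf F 1 2 0 0, expl_cf F 1 1 1 0, expl_cf F 1 1 0 1], ?_, ?_⟩
  · apply expl_ext hF
    · exact (secS_isHomogeneous _ _).add ((lin_isHomogeneous _).mul (Qs_isHomogeneous _))
    generalize HW (Qs (0 : R) * F) = A at *
    have hl : ∀ l : Fin 4 → R, lin l * Qs (0 : R) =
        ∑ i, (C (l i) * (X i * X 0 * X 1) + C (l i) * (X i * X 2 * X 2)) := by
      intro l
      unfold lin Qs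
      rw [Finset.sum_mul]
      apply Finset.sum_congr rfl
      intro i _
      rw [C_0]
      ring
    intro a b c d h3
    rw [hl]
    unfold secS
    simp only [Fin.sum_univ_four, expl_XXX, coeff_add, expl_coeff_mon]
    rw [expl_coeff_cf]
    have ha : a ≤ 3 := by omega
    have hb : b ≤ 3 := by omega
    have hc : c ≤ 3 := by omega
    have hd : d = 3 - a - b - c := by omega
    subst hd
    interval_cases a <;> interval_cases b <;> interval_cases c <;>
      first
      | omega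
      | (simp [funext_iff, Fin.forall_fin_succ, h00, h01, h02, h03, h10, h11, h12, h13, h20, h21, h22, h23, h30, h31, h32, h33]; done)
      | (simp [funext_iff, Fin.forall_fin_succ, h00, h01, h02, h03, h10, h11, h12, h13, h20, h21, h22, h23, h30, h31, h32, h33]; grind)
  · ext i
    unfold kap
    fin_cases i <;> simp [h01, h10, h30, h31, h21, h00, h20, h11, CharTwo.add_self_eq_zero]

end Pool.Agent.Lib.MP_60c747_ag
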