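import Pool.Agent.Lib.MP_60c747_ag.Iter

set_option autoImplicit false

/-!
Normal form of semilinear maps of small stable rank: the first `n` rows are strictly lower
triangular.
-/

namespace Pool.Agent.Lib.MP_60c747_ag

/-- The first `n` rows are strictly lower triangular. -/
def Cut {R : Type*} [CommRing R] {N : ℕ} (n : ℕ) (A : Matrix (Fin N) (Fin N) R) : Prop :=
  ∀ i j : Fin N, (i : ℕ) < n → i ≤ j → A i j = 0

private theorem flag_iter_zero {R n : Type*} [CommRing R] (A : Matrix n n R) {i j : n}
    (h : A i j = 0) (m : ℕ) : (fr^[m] A) i j = 0 := by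
  induction m with
  | zero => simpa using h
  | succ m ih =>
      rw [Function.iterate_succ_apply']
      simp [fr, ih]

/-- For `A` with `Cut n A` the rows `i < min n m` of `it A m` vanish (induction on `m` with
`it_succ'`: row `i` of `it A (m+1)` is a combination of the rows `j < i` of `it A m`), so the rank
is at most `N - n` when `n ≤ m`. -/
theorem rank_of_cut {k : Type*} [Field k] [CharP k 2] {N n m : ℕ} {A : Matrix (Fin N) (Fin N) k}
    (hA : Cut n A) (hn : n ≤ N) (hm : n ≤ m) : (it A m).rank ≤ N - n := by
  have key : ∀ m : ℕ, ∀ i : Fin N, (i : ℕ) < n → (i : ℕ) < m → ∀ j, it A m i j = 0 := by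
    intro m
    induction m with
    | zero => intro i _ h; omega
    | succ m ih =>
        intro i hi him j
        rw [it_succ', Matrix.mul_apply]
        refine Finset.sum_eq_zero fun l _ => ?_
        by_cases hl : i ≤ l
        · rw [flag_iter_zero A (hA i l hi hl) m, zero_mul]
        · have hl' : (l : ℕ) < (i : ℕ) := by
            rw [not_le] at hl; exact hl
          rw [ih l (by omega) (by omega) j, mul_zero]
  let r : Fin (N - n) → Fin N := fun t => ⟨n + t, by have := t.2; omega⟩
  let P : Matrix (Fin N) (Fin (N - n)) k := fun i t => if i = r t then 1 else 0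
  have hP : it A m = P * (it A m).submatrix r id := by
    ext i j
    rw [Matrix.mul_apply]
    by_cases hi : (i : ℕ) < n
    · rw [key m i hi (by omega) j]
      refine (Finset.sum_eq_zero fun t _ => ?_).symm
      have : i ≠ r t := by
        intro h; rw [h] at hi; simp only [r] at hi; omega
      simp [P, this]
    · let t : Fin (N - n) := ⟨i - n, by have := i.2; omega⟩
      have ht : r t = i := by
        apply Fin.ext; simp only [r, t]; omega
      rw [Finset.sum_eq_single t]
      · simp [P, ht]
      · intro b _ hb
        have : i ≠ r b := by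
          intro h
          apply hb
          apply Fin.ext
          have h2 := congrArg Fin.val h
          simp only [r, t] at h2 ⊢
          omega
        simp [P, this]
      · intro h; exact absurd (Finset.mem_univ _) h
  rw [hP]
  refine (Matrix.rank_mul_le_right _ _).trans ?_
  refine (Matrix.rank_le_card_height _).trans ?_
  simp

private theorem flag_det_it {k : Type*} [Field k] [CharP k 2] {N : ℕ}
    {A : Matrix (Fin N) (Fin N) k} (hA : A.det ≠ 0) (m : ℕ) : (it A m).det ≠ 0 := by
  induction m with
  | zero => simp [it]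
  | succ m ih =>
      have h : it A (m + 1) = fr (it A m) * A := rfl
      rw [h, Matrix.det_mul, det_fr]
      exact mul_ne_zero (pow_ne_zero _ ih) hA

private theorem flag_exists_row {k : Type*} [Field k] {N : ℕ} {v : Fin (N + 1) → k} (hv : v ≠ 0) :
    ∃ g : Matrix (Fin (N + 1)) (Fin (N + 1)) k, IsUnit g.det ∧ ∀ j, g 0 j = v j := by
  obtain ⟨p, hp⟩ := Function.ne_iff.mp hv
  have hp' : v p ≠ 0 := by simpa using hp
  let B : Matrix (Fin (N + 1)) (Fin (N + 1)) k := (1 : Matrix _ _ k).updateRow p v
  have hB : B.det = v p := by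
    have h1 : (B.transpose).det = v p := by
      have h2 : B.transpose = (1 : Matrix (Fin (N + 1)) (Fin (N + 1)) k).updateCol p v := by
        simp only [B]
        rw [← Matrix.updateCol_transpose, Matrix.transpose_one]
      rw [h2, ← Matrix.cramer_apply, Matrix.cramer_one]
      rfl
    rwa [Matrix.det_transpose] at h1
  refine ⟨B.submatrix (Equiv.swap 0 p) id, ?_, fun j => ?_⟩
  · have h3 := Matrix.det_permute (Equiv.swap 0 p) B
    rw [h3, hB]
    refine IsUnit.mul ?_ (IsUnit.mk0 _ hp')
    exact ((Equiv.Perm.sign (Equiv.swap 0 p)).isUnit.map (Int.castRingHom k))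
  · simp [B]

/-- One step of the reduction: if some iterate of `A` is singular there is an invertible `g`
such that `A' = fr g * A * g⁻¹` has first row zero. (`A` is singular, take `u ≠ 0` with
`u ᵥ* A = 0`, `v` the vector of square roots of `u`, and `g` invertible with first row `v`.) -/
theorem exists_first_row {k : Type*} [Field k] [CharP k 2] [IsAlgClosed k] {N m : ℕ}
    {A : Matrix (Fin (N + 1)) (Fin (N + 1)) k} (h : (it A m).rank ≤ N) :
    ∃ g A' : Matrix (Fin (N + 1)) (Fin (N + 1)) k, IsUnit g.det ∧ (∀ j, A' 0 j = 0) ∧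
      A' * g = fr g * A := by
  have hdet : A.det = 0 := by
    by_contra hne
    have h1 := flag_det_it hne m
    have h2 := Matrix.rank_of_det_ne_zero h1
    rw [Fintype.card_fin] at h2
    omega
  obtain ⟨u, hu, huA⟩ := Matrix.exists_vecMul_eq_zero_iff.mpr hdet
  have hv : ∀ i, ∃ v : k, v ^ 2 = u i := fun i => IsAlgClosed.exists_pow_nat_eq (u i) (by norm_num)
  choose v hv using hv
  have hv0 : v ≠ 0 := by
    intro h0
    apply hu
    funext i
    rw [← hv i, h0]
    simp
  obtain ⟨g, hg, hgv⟩ := flag_exists_row hv0
  refine ⟨g, fr g * A * g⁻¹, hg, fun j => ?_, ?_⟩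
  · rw [Matrix.mul_apply]
    refine Finset.sum_eq_zero fun l _ => ?_
    have h3 : (fr g * A) 0 l = 0 := by
      have h4 := congrFun huA l
      rw [Matrix.mul_apply]
      simp only [Matrix.vecMul, dotProduct, Pi.zero_apply] at h4
      rw [← h4]
      refine Finset.sum_congr rfl fun i _ => ?_
      simp [fr, hgv, hv]
    rw [h3, zero_mul]
  · rw [Matrix.nonsing_inv_mul_cancel_right _ _ hg]

private theorem flag_block {R : Type*} [CommRing R] {N : ℕ}
    {A' : Matrix (Fin (N + 1)) (Fin (N + 1)) R} (h : ∀ j, A' 0 j = 0) (m : ℕ) :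
    (it A' m).submatrix Fin.succ Fin.succ = it (A'.submatrix Fin.succ Fin.succ) m := by
  induction m with
  | zero =>
      ext i j
      simp [it, Matrix.one_apply]
  | succ m ih =>
      have h1 : it A' (m + 1) = fr (it A' m) * A' := rfl
      have h2 : it (A'.submatrix Fin.succ Fin.succ) (m + 1) =
        fr (it (A'.submatrix Fin.succ Fin.succ) m) * A'.submatrix Fin.succ Fin.succ := rfl
      rw [h1, h2, ← ih]
      ext i j
      rw [Matrix.submatrix_apply, Matrix.mul_apply, Matrix.mul_apply, Fin.sum_univ_succ, h,
        mul_zero, zero_add]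
      rfl

/-- If the first row of `A'` is zero then the ranks of the iterates of the lower right block are
at most those of `A'`. -/
theorem rank_block_le {k : Type*} [Field k] [CharP k 2] {N m : ℕ}
    {A' : Matrix (Fin (N + 1)) (Fin (N + 1)) k} (h : ∀ j, A' 0 j = 0) :
    (it (A'.submatrix Fin.succ Fin.succ) m).rank ≤ (it A' m).rank := by
  rw [← flag_block h m]
  exact Matrix.rank_submatrix_le _ _ _

/-- Normal form; induction on `N` using the two previous lemmas (the new `g` is
`diag(1, g'') * g₁`). -/
theorem exists_flag {k : Type*} [Field k] [CharP k 2] [IsAlgClosed k] {N n m : ℕ}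
    {A : Matrix (Fin N) (Fin N) k} (h : (it A m).rank + n ≤ N) :
    ∃ g A' : Matrix (Fin N) (Fin N) k, IsUnit g.det ∧ Cut n A' ∧ A' * g = fr g * A := by
  induction N generalizing n with
  | zero => exact ⟨1, A, by simp, fun i => i.elim0, by ext i; exact i.elim0⟩
  | succ N ih =>
      rcases n with _ | n
      · exact ⟨1, A, by simp, fun i j hi => absurd hi (by omega), by rw [fr_one, mul_one, one_mul]⟩
      obtain ⟨g₁, A₁, hg₁, hA₁, h₁⟩ := exists_first_row (A := A) (m := m) (N := N) (by omega)
      have hr : (it A₁ m).rank = (it A m).rank :=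
        rank_it_conj hg₁ one_ne_zero (by rw [one_smul]; exact h₁) m
      have hb := rank_block_le (m := m) hA₁
      obtain ⟨g₂, D', hg₂, hD', h₂⟩ := ih (n := n) (A := A₁.submatrix Fin.succ Fin.succ) (by omega)
      let G : Matrix (Fin (N + 1)) (Fin (N + 1)) k :=
        Matrix.of (Fin.cons (Fin.cons 1 0) (fun i => Fin.cons 0 (g₂ i)))
      have hG00 : G 0 0 = 1 := rfl
      have hG0s : ∀ j : Fin N, G 0 j.succ = 0 := fun j => rfl
      have hGs0 : ∀ i : Fin N, G i.succ 0 = 0 := fun i => rfl
      have hGss : ∀ i j : Fin N, G i.succ j.succ = g₂ i j := fun i j => rfl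
      have hGdet : G.det = g₂.det := by
        rw [Matrix.det_succ_row_zero, Fin.sum_univ_succ]
        have : ∑ i : Fin N, (-1) ^ ((i.succ : Fin (N + 1)) : ℕ) * G 0 i.succ *
            (G.submatrix Fin.succ (i.succ).succAbove).det = 0 := by
          refine Finset.sum_eq_zero fun i _ => ?_
          rw [hG0s]; ring
        rw [this, hG00]
        simp only [Fin.val_zero, pow_zero, one_mul, add_zero, Fin.succAbove_zero]
        congr 1
      have hGu : IsUnit G.det := by rw [hGdet]; exact hg₂
      have hcancel : (fr G * A₁ * G⁻¹) * G = fr G * A₁ := Matrix.nonsing_inv_mul_cancel_right _ _ hGu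
      refine ⟨G * g₁, fr G * A₁ * G⁻¹, ?_, ?_, ?_⟩
      · rw [Matrix.det_mul]; exact hGu.mul hg₁
      · have hrow0 : ∀ j, (fr G * A₁ * G⁻¹) 0 j = 0 := by
          intro j
          rw [Matrix.mul_apply]
          refine Finset.sum_eq_zero fun l _ => ?_
          have : (fr G * A₁) 0 l = 0 := by
            rw [Matrix.mul_apply, Fin.sum_univ_succ, hA₁, mul_zero, zero_add]
            refine Finset.sum_eq_zero fun i _ => ?_
            simp [fr, hG0s]
          rw [this, zero_mul]
        have hblock : (fr G * A₁ * G⁻¹).submatrix Fin.succ Fin.succ = D' := by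
          have h3 : (fr G * A₁ * G⁻¹).submatrix Fin.succ Fin.succ * g₂ = D' * g₂ := by
            rw [h₂]
            ext i j
            have h4 := congrFun (congrFun hcancel i.succ) j.succ
            rw [Matrix.mul_apply, Fin.sum_univ_succ, hG0s, mul_zero, zero_add,
              Matrix.mul_apply (M := fr G), Fin.sum_univ_succ, hA₁, mul_zero, zero_add] at h4
            rw [Matrix.mul_apply, Matrix.mul_apply]
            simp only [hGss] at h4
            rw [show ∑ x, ((fr G * A₁ * G⁻¹).submatrix Fin.succ Fin.succ) i x * g₂ x j =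
              ∑ i_1 : Fin N, (fr G * A₁ * G⁻¹) i.succ i_1.succ * g₂ i_1 j from rfl, h4]
            refine Finset.sum_congr rfl fun l _ => ?_
            simp [fr, hGss]
          have h5 := congrArg (· * g₂⁻¹) h3
          simpa [Matrix.mul_nonsing_inv_cancel_right _ _ hg₂] using h5
        intro i j hi hij
        refine Fin.cases (fun hi hij => hrow0 j) (fun i hi hij => ?_) i hi hij
        rcases Fin.eq_zero_or_eq_succ j with hj | ⟨j', hj⟩
        · subst hj
          exact absurd hij (by simp)
        · subst hj
          have h6 := congrFun (congrFun hblock i) j'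
          rw [Matrix.submatrix_apply] at h6
          rw [h6]
          apply hD'
          · simp only [Fin.val_succ] at hi; omega
          · exact Fin.succ_le_succ_iff.mp hij
      · rw [← Matrix.mul_assoc, hcancel, Matrix.mul_assoc, h₁, fr_mul, Matrix.mul_assoc]

end Pool.Agent.Lib.MP_60c747_ag
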