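import Pool.Agent.Lib.MP_60c747_ag.Poly

set_option autoImplicit false

/-!
A cone is finite over affine space by linear forms without common zero on it.
-/

namespace Pool.Agent.Lib.MP_60c747_ag

open MvPolynomial

variable {k σ ι : Type*} [Field k]

/-- The vanishing ideal of a subset of affine space. -/
noncomputable abbrev VI (T : Set (σ → k)) : Ideal (MvPolynomial σ k) := vanishingIdeal k T

theorem mem_VI {T : Set (σ → k)} {G : MvPolynomial σ k} : G ∈ VI T ↔ ∀ x ∈ T, eval x G = 0 := by
  rw [mem_vanishingIdeal_iff]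
  exact Iff.rfl

/-- The vanishing ideal of a nonempty irreducible set is prime. -/
theorem VI_isPrime {T : Set (σ → k)} (hT : Irr T) (hne : T.Nonempty) : (VI T).IsPrime := by
  refine ⟨?_, ?_⟩
  · intro h
    obtain ⟨x, hx⟩ := hne
    have h1 : (1 : MvPolynomial σ k) ∈ VI T := by
      rw [h]
      exact Submodule.mem_top
    have h2 := mem_VI.1 h1 x hx
    rw [map_one] at h2
    exact one_ne_zero h2
  · intro G H hGH
    rcases hT G H (mem_VI.1 hGH) with h | h
    · exact Or.inl (mem_VI.2 h)
    · exact Or.inr (mem_VI.2 h)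

private theorem int_eval_smul {G : MvPolynomial σ k} {d : ℕ} (hG : G.IsHomogeneous d) (c : k)
    (x : σ → k) : eval (c • x) G = c ^ d * eval x G := by
  rw [eval_eq, eval_eq, Finset.mul_sum]
  refine Finset.sum_congr rfl ?_
  intro m hm
  have h1 : d = ∑ i ∈ m.support, m i := hG.degree_eq_sum_deg_support hm
  have h2 : ∏ i ∈ m.support, (c • x) i ^ m i = c ^ d * ∏ i ∈ m.support, x i ^ m i := by
    rw [h1, ← Finset.prod_pow_eq_pow_sum, ← Finset.prod_mul_distrib]
    refine Finset.prod_congr rfl ?_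
    intro i _
    rw [Pi.smul_apply, smul_eq_mul, mul_pow]
  rw [h2]
  ring

/-- The vanishing ideal of a cone is homogeneous (`k` infinite: `G (t x) = ∑ t^d G_d x`). -/
theorem homogeneousComponent_mem_VI [Infinite k] {T : Set (σ → k)}
    (hT : ∀ x ∈ T, ∀ c : k, c • x ∈ T) {G : MvPolynomial σ k} (hG : G ∈ VI T) (d : ℕ) :
    homogeneousComponent d G ∈ VI T := by
  rw [mem_VI]
  intro x hx
  have h1 : ∀ c : k, ∑ i ∈ Finset.range (G.totalDegree + 1),
      c ^ i * eval x (homogeneousComponent i G) = 0 := by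
    intro c
    have h2 : eval (c • x) G = 0 := mem_VI.1 hG _ (hT x hx c)
    rw [← sum_homogeneousComponent G, map_sum] at h2
    rw [← h2]
    refine Finset.sum_congr rfl ?_
    intro i _
    rw [int_eval_smul (homogeneousComponent_isHomogeneous i G)]
  have h3 : (∑ i ∈ Finset.range (G.totalDegree + 1),
      Polynomial.C (eval x (homogeneousComponent i G)) * Polynomial.X ^ i : Polynomial k) = 0 := by
    refine Polynomial.funext ?_
    intro c
    rw [Polynomial.eval_finsetSum, Polynomial.eval_zero, ← h1 c]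
    refine Finset.sum_congr rfl ?_
    intro i _
    rw [Polynomial.eval_mul, Polynomial.eval_C, Polynomial.eval_pow, Polynomial.eval_X, mul_comm]
  rcases Nat.lt_or_ge G.totalDegree d with h4 | h4
  · rw [homogeneousComponent_eq_zero d G h4, map_zero]
  · have h5 := congrArg (fun P : Polynomial k => P.coeff d) h3
    simp only [Polynomial.finsetSum_coeff, Polynomial.coeff_C_mul_X_pow,
      Polynomial.coeff_zero] at h5
    rw [Finset.sum_ite_eq, if_pos (Finset.mem_range.2 (Nat.lt_succ_of_le h4))] at h5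
    exact h5

/-- The map from the polynomial ring in the given forms to the coordinate ring of `T`. -/
noncomputable def toB (T : Set (σ → k)) (ℓ : ι → MvPolynomial σ k) :
    MvPolynomial ι k →+* MvPolynomial σ k ⧸ VI T :=
  (Ideal.Quotient.mk (VI T)).comp (aeval ℓ : MvPolynomial ι k →ₐ[k] MvPolynomial σ k).toRingHom

/-- Nullstellensatz: some power of the irrelevant ideal lies in `VI T + (ℓ)`: there is `D` such
that every homogeneous polynomial of degree at least `D` lies in it. -/
theorem exists_degree [IsAlgClosed k] [Fintype σ] {T : Set (σ → k)}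
    (hcl : Cl T = T) {ℓ : ι → MvPolynomial σ k}
    (h0 : ∀ x ∈ T, (∀ i, eval x (ℓ i) = 0) → x = 0) :
    ∃ D : ℕ, ∀ d, D ≤ d → ∀ H : MvPolynomial σ k, H.IsHomogeneous d →
      H ∈ VI T ⊔ Ideal.span (Set.range ℓ) := by
  classical
  set J : Ideal (MvPolynomial σ k) := VI T ⊔ Ideal.span (Set.range ℓ) with hJ
  have h1 : ∀ i : σ, ∃ n : ℕ, (X i : MvPolynomial σ k) ^ n ∈ J := by
    intro i
    rw [← Ideal.mem_radical_iff, ← vanishingIdeal_zeroLocus_eq_radical (K := k) J,
      mem_vanishingIdeal_iff]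
    intro x hx
    have hxT : x ∈ T := by
      rw [← hcl]
      intro G hG
      have h2 := hx G ((le_sup_left : VI T ≤ J) (mem_VI.2 hG))
      exact h2
    have hxℓ : ∀ j, eval x (ℓ j) = 0 := by
      intro j
      have h2 := hx (ℓ j) ((le_sup_right : Ideal.span (Set.range ℓ) ≤ J)
        (Ideal.subset_span ⟨j, rfl⟩))
      exact h2
    have hx0 := h0 x hxT hxℓ
    rw [aeval_X, hx0, Pi.zero_apply]
  choose n hn using h1
  refine ⟨Fintype.card σ * (∑ i, n i) + 1, ?_⟩
  intro d hd H hH
  rw [← H.support_sum_monomial_coeff]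
  refine Ideal.sum_mem _ ?_
  intro m hm
  have h2 : d = ∑ i ∈ m.support, m i := hH.degree_eq_sum_deg_support hm
  have h3 : ∃ i, n i ≤ m i := by
    by_contra hcon
    push Not at hcon
    have h4 : ∑ i ∈ m.support, m i ≤ Fintype.card σ * (∑ i, n i) := by
      calc ∑ i ∈ m.support, m i ≤ ∑ _i ∈ m.support, ∑ j, n j :=
            Finset.sum_le_sum fun i _ => (hcon i).le.trans
              (Finset.single_le_sum (fun j _ => Nat.zero_le (n j)) (Finset.mem_univ i))
        _ = m.support.card * (∑ j, n j) := by rw [Finset.sum_const, smul_eq_mul]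
        _ ≤ Fintype.card σ * (∑ j, n j) :=
            Nat.mul_le_mul_right _ (Finset.card_le_univ _)
    omega
  obtain ⟨i, hi⟩ := h3
  have h5 : monomial m (coeff m H) =
      monomial (m - Finsupp.single i (n i)) (coeff m H) * (X i : MvPolynomial σ k) ^ n i := by
    rw [X_pow_eq_monomial, monomial_mul, mul_one, tsub_add_cancel_of_le (Finsupp.single_le_iff.2 hi)]
  rw [h5]
  exact J.mul_mem_left _ (hn i)

private theorem int_comp_mul {ℓ h : MvPolynomial σ k} (hℓ : ℓ.IsHomogeneous 1) (d : ℕ) :
    homogeneousComponent (d + 1) (h * ℓ) = homogeneousComponent d h * ℓ := by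
  conv_lhs => rw [← sum_homogeneousComponent h, Finset.sum_mul, map_sum]
  have h1 : ∀ i ∈ Finset.range (h.totalDegree + 1),
      homogeneousComponent (d + 1) (homogeneousComponent i h * ℓ) =
        if i = d then homogeneousComponent d h * ℓ else 0 := by
    intro i _
    rw [homogeneousComponent_of_mem ((homogeneousComponent_isHomogeneous i h).mul hℓ)]
    by_cases h2 : i = d
    · subst h2
      rw [if_pos rfl, if_pos rfl]
    · rw [if_neg (by omega), if_neg h2]
  rw [Finset.sum_congr rfl h1, Finset.sum_ite_eq']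
  split_ifs with h3
  · rfl
  · rw [Finset.mem_range, not_lt] at h3
    rw [homogeneousComponent_eq_zero d h (by omega), zero_mul]

private theorem int_comp_zero_mul {ℓ h : MvPolynomial σ k} (hℓ : ℓ.IsHomogeneous 1) :
    homogeneousComponent 0 (h * ℓ) = 0 := by
  rw [homogeneousComponent_zero, ← constantCoeff_eq, map_mul]
  have h1 : constantCoeff ℓ = 0 := by
    rw [constantCoeff_eq]
    exact hℓ.coeff_eq_zero (by simp)
  rw [h1, mul_zero, C_0]

/-- Integrality. With `D` from `exists_degree`, show by strong induction on `d` that modulo `VI T`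
every homogeneous polynomial of degree `d` is a `k[ℓ]`-linear combination of polynomials of degree
less than `D` (write `H = i + ∑ ℓ_j h_j`, and take components of degree `d`, using
`homogeneousComponent_mem_VI`); hence the coordinate ring is a finite module. -/
theorem toB_isIntegral [IsAlgClosed k] [Fintype σ] [Fintype ι] {T : Set (σ → k)}
    (hT : ∀ x ∈ T, ∀ c : k, c • x ∈ T) (hcl : Cl T = T) {ℓ : ι → MvPolynomial σ k}
    (hℓ : ∀ i, (ℓ i).IsHomogeneous 1) (h0 : ∀ x ∈ T, (∀ i, eval x (ℓ i) = 0) → x = 0) :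
    (toB T ℓ).IsIntegral := by
  classical
  obtain ⟨D, hD⟩ := exists_degree hcl h0
  have hfin : (toB T ℓ).Finite := by
    let : Algebra (MvPolynomial ι k) (MvPolynomial σ k ⧸ VI T) := (toB T ℓ).toAlgebra
    have hsm : ∀ (a : MvPolynomial ι k) (b : MvPolynomial σ k ⧸ VI T),
        a • b = toB T ℓ a * b := fun a b => rfl
    have htC : ∀ c : k, toB T ℓ (C c) = Ideal.Quotient.mk (VI T) (C c) := by
      intro c
      show Ideal.Quotient.mk (VI T) (aeval ℓ (C c : MvPolynomial ι k)) = _
      rw [aeval_C]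
      rfl
    have htX : ∀ i : ι, toB T ℓ (X i) = Ideal.Quotient.mk (VI T) (ℓ i) := by
      intro i
      show Ideal.Quotient.mk (VI T) (aeval ℓ (X i : MvPolynomial ι k)) = _
      rw [aeval_X]
    have hS : {m : σ →₀ ℕ | m.degree < D}.Finite := Finsupp.finite_of_degree_lt D
    set M : Submodule (MvPolynomial ι k) (MvPolynomial σ k ⧸ VI T) :=
      Submodule.span (MvPolynomial ι k)
        ((fun m : σ →₀ ℕ => Ideal.Quotient.mk (VI T) (monomial m (1 : k))) ''
          {m : σ →₀ ℕ | m.degree < D}) with hM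
    have key : ∀ d : ℕ, ∀ H : MvPolynomial σ k, H.IsHomogeneous d →
        Ideal.Quotient.mk (VI T) H ∈ M := by
      intro d
      induction d using Nat.strong_induction_on with
      | _ d ih =>
        intro H hH
        rcases Nat.lt_or_ge d D with h1 | h1
        · rw [← H.support_sum_monomial_coeff, map_sum]
          refine Submodule.sum_mem _ ?_
          intro m hm
          have h2 : monomial m (coeff m H) = C (coeff m H) * monomial m (1 : k) := by
            rw [C_mul_monomial, mul_one]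
          rw [h2, map_mul, ← htC, ← hsm]
          refine Submodule.smul_mem _ _ (Submodule.subset_span ⟨m, ?_, rfl⟩)
          show m.degree < D
          have h3 : d = ∑ i ∈ m.support, m i := hH.degree_eq_sum_deg_support hm
          rw [Finsupp.degree_apply, ← h3]
          exact h1
        · have h2 := hD d h1 H hH
          obtain ⟨a, ha, b, hb, hab⟩ := Submodule.mem_sup.1 h2
          obtain ⟨c, hc⟩ := Ideal.mem_span_range_iff_exists_fun.1 hb
          have h3 : H = homogeneousComponent d a + ∑ i, homogeneousComponent d (c i * ℓ i) := by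
            rw [← map_sum, hc, ← map_add, hab]
            exact (homogeneousComponent_eq_self hH).symm
          have h4 : Ideal.Quotient.mk (VI T) (homogeneousComponent d a) = 0 :=
            Ideal.Quotient.eq_zero_iff_mem.2 (homogeneousComponent_mem_VI hT ha d)
          rw [h3, map_add, h4, zero_add, map_sum]
          refine Submodule.sum_mem _ ?_
          intro i _
          rcases Nat.eq_zero_or_pos d with h5 | h5
          · rw [h5, int_comp_zero_mul (hℓ i), map_zero]
            exact Submodule.zero_mem _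
          · obtain ⟨e, rfl⟩ : ∃ e, d = e + 1 := ⟨d - 1, by omega⟩
            rw [int_comp_mul (hℓ i), mul_comm, map_mul, ← htX, ← hsm]
            exact Submodule.smul_mem _ _ (ih e (Nat.lt_succ_self e) _
              (homogeneousComponent_isHomogeneous e (c i)))
    have htop : M = ⊤ := by
      rw [eq_top_iff]
      intro b _
      obtain ⟨H, rfl⟩ := Ideal.Quotient.mk_surjective b
      rw [← sum_homogeneousComponent H, map_sum]
      exact Submodule.sum_mem _ fun i _ => key i _ (homogeneousComponent_isHomogeneous i H)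
    refine ⟨⟨(hS.image (fun m : σ →₀ ℕ =>
      Ideal.Quotient.mk (VI T) (monomial m (1 : k)))).toFinset, ?_⟩⟩
    rw [Set.Finite.coe_toFinset]
    exact htop
  exact RingHom.IsIntegral.of_finite hfin

/-- Going down. `T` closed irreducible, its coordinate ring integral over the polynomial ring in
`ℓ` which injects into it; `x₀ ∈ T` with `ℓ (inl i) x₀ = 0` for all `i`, and `β ≠ 0`. A polynomial
vanishing at all `x ∈ T` with `ℓ (inl i) x = s β i` for some `s ≠ 0` vanishes at `x₀`.
Proof: let `q` be the kernel of `k[ι₁ ⊕ ι₂] → k[Option ι₂]`, `X (inl i) ↦ β i X none`,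
`X (inr i) ↦ X (some i)`; it is prime and contained in the maximal ideal of `ℓ x₀`. By going down
(`k[ι₁ ⊕ ι₂]` is integrally closed) there is a prime `Q` of the coordinate ring contained in the
maximal ideal of `x₀` lying over `q`. For `j` with `β j ≠ 0`, `G * ℓ (inl j)` vanishes on the zero
locus of `Q`, so it is in `Q` (Nullstellensatz), and `ℓ (inl j)` is not. -/
theorem going_down {ι₁ ι₂ : Type*} [IsAlgClosed k] [Fintype σ] [Fintype ι₁] [Fintype ι₂]
    {T : Set (σ → k)} (hT : Irr T) (hcl : Cl T = T) {ℓ : ι₁ ⊕ ι₂ → MvPolynomial σ k}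
    (hint : (toB T ℓ).IsIntegral) (hinj : Function.Injective (toB T ℓ))
    {x₀ : σ → k} (hx₀ : x₀ ∈ T) (hℓ0 : ∀ i, eval x₀ (ℓ (Sum.inl i)) = 0)
    {β : ι₁ → k} (hβ : β ≠ 0) {G : MvPolynomial σ k}
    (hG : ∀ x ∈ T, ∀ s : k, s ≠ 0 → (∀ i, eval x (ℓ (Sum.inl i)) = s * β i) → eval x G = 0) :
    eval x₀ G = 0 := by
  classical
  obtain ⟨j, hj⟩ : ∃ j, β j ≠ 0 := by
    by_contra h
    exact hβ (funext fun j => by simpa using not_exists.mp h j)
  have hprime : (VI T).IsPrime := VI_isPrime hT ⟨x₀, hx₀⟩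
  let : Algebra (MvPolynomial (ι₁ ⊕ ι₂) k) (MvPolynomial σ k ⧸ VI T) := (toB T ℓ).toAlgebra
  have hmap : algebraMap (MvPolynomial (ι₁ ⊕ ι₂) k) (MvPolynomial σ k ⧸ VI T) = toB T ℓ := rfl
  have : FaithfulSMul (MvPolynomial (ι₁ ⊕ ι₂) k) (MvPolynomial σ k ⧸ VI T) :=
    (faithfulSMul_iff_algebraMap_injective _ _).2 hinj
  have : Algebra.IsIntegral (MvPolynomial (ι₁ ⊕ ι₂) k) (MvPolynomial σ k ⧸ VI T) := ⟨hint⟩
  let φ : MvPolynomial (ι₁ ⊕ ι₂) k →ₐ[k] MvPolynomial (Option ι₂) k :=
    aeval (Sum.elim (fun i => C (β i) * X none) (fun i => X (some i)))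
  let q : Ideal (MvPolynomial (ι₁ ⊕ ι₂) k) := RingHom.ker φ.toRingHom
  have hq : q.IsPrime := RingHom.ker_isPrime _
  have hle : VI T ≤ RingHom.ker (eval x₀ : MvPolynomial σ k →+* k) := fun G hG =>
    (mem_VI.1 hG) x₀ hx₀
  let ev : (MvPolynomial σ k ⧸ VI T) →+* k := Ideal.Quotient.lift (VI T) (eval x₀) hle
  let P₀ : Ideal (MvPolynomial σ k ⧸ VI T) := RingHom.ker ev
  have hP₀ : P₀.IsPrime := RingHom.ker_isPrime _
  have hev : ∀ r, ev (toB T ℓ r) = eval x₀ (aeval ℓ r) := fun r => rfl
  have hq_le : q ≤ P₀.under (MvPolynomial (ι₁ ⊕ ι₂) k) := by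
    intro r hr
    have hr' : φ r = 0 := hr
    show ev (toB T ℓ r) = 0
    rw [hev]
    have h1 : eval (fun o : Option ι₂ => Option.elim o 0 fun i => eval x₀ (ℓ (Sum.inr i))) (φ r) =
        eval x₀ (aeval ℓ r) := by
      have : ((eval (fun o : Option ι₂ => Option.elim o 0 fun i => eval x₀ (ℓ (Sum.inr i)))).comp
          φ.toRingHom) = (eval x₀).comp (aeval ℓ : _ →ₐ[k] _).toRingHom := by
        apply MvPolynomial.ringHom_ext
        · intro c
          simp [φ]
        · intro i
          rcases i with i | i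
          · simp [φ, hℓ0]
          · simp [φ]
      exact RingHom.congr_fun this r
    rw [← h1, hr', map_zero]
  obtain ⟨Q, hQle, hQp, hQover⟩ := Ideal.exists_ideal_le_liesOver_of_le (p := q)
    (q := P₀.under (MvPolynomial (ι₁ ⊕ ι₂) k)) P₀ hq_le
  have hQq : ∀ r, r ∈ q ↔ toB T ℓ r ∈ Q := by
    intro r
    rw [hQover.over]
    rfl
  let 𝔔 : Ideal (MvPolynomial σ k) := Q.comap (Ideal.Quotient.mk (VI T))
  have h𝔔 : 𝔔.IsPrime := Ideal.comap_isPrime _ _
  have hmem : ∀ H, H ∈ 𝔔 ↔ Ideal.Quotient.mk (VI T) H ∈ Q := fun H => Iff.rfl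
  have hVI : VI T ≤ 𝔔 := by
    intro H hH
    rw [hmem, Ideal.Quotient.eq_zero_iff_mem.2 hH]
    exact Q.zero_mem
  have hrel : ∀ i, C (β j) * ℓ (Sum.inl i) - C (β i) * ℓ (Sum.inl j) ∈ 𝔔 := by
    intro i
    have h1 : (C (β j) * X (Sum.inl i) - C (β i) * X (Sum.inl j) :
        MvPolynomial (ι₁ ⊕ ι₂) k) ∈ q := by
      show φ _ = 0
      simp only [φ, map_sub, map_mul, aeval_X, Sum.elim_inl, algHom_C, algebraMap_eq]
      ring
    have h2 := (hQq _).1 h1
    rw [hmem]
    convert h2 using 1
    simp [toB]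
  have hnot : ℓ (Sum.inl j) ∉ 𝔔 := by
    intro h
    have h2 : toB T ℓ (X (Sum.inl j)) ∈ Q := by
      rw [hmem] at h
      convert h using 1
      simp [toB]
    have h3 : φ (X (Sum.inl j)) = 0 := (hQq _).2 h2
    simp only [φ, aeval_X, Sum.elim_inl] at h3
    rcases mul_eq_zero.1 h3 with h4 | h4
    · exact hj ((C_eq_zero).1 h4)
    · exact X_ne_zero _ h4
  have hprod : G * ℓ (Sum.inl j) ∈ 𝔔 := by
    rw [← IsPrime.vanishingIdeal_zeroLocus (K := k) 𝔔, mem_vanishingIdeal_iff]
    intro x hx
    rw [mem_zeroLocus_iff] at hx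
    have hx' : ∀ H ∈ 𝔔, eval x H = 0 := fun H hH => by simpa [coe_aeval_eq_eval] using hx H hH
    have hxT : x ∈ T := by
      rw [← hcl]
      intro H hH
      exact hx' H (hVI (mem_VI.2 hH))
    have hx2 : ∀ i, β j * eval x (ℓ (Sum.inl i)) = β i * eval x (ℓ (Sum.inl j)) := by
      intro i
      have := hx' _ (hrel i)
      simp only [map_sub, map_mul, eval_C] at this
      exact sub_eq_zero.1 this
    have hgoal : (aeval x) (G * ℓ (Sum.inl j)) = eval x (G * ℓ (Sum.inl j)) := by
      simp
    rw [hgoal, map_mul]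
    by_cases h0 : eval x (ℓ (Sum.inl j)) = 0
    · rw [h0, mul_zero]
    · rw [hG x hxT (eval x (ℓ (Sum.inl j)) / β j) (div_ne_zero h0 hj) ?_, zero_mul]
      intro i
      rw [div_mul_eq_mul_div, eq_div_iff hj, mul_comm, hx2 i, mul_comm]
  have hGQ : G ∈ 𝔔 := (h𝔔.mem_or_mem hprod).resolve_right hnot
  exact hQle ((hmem G).1 hGQ)

end Pool.Agent.Lib.MP_60c747_ag
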