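import Pool.Agent.Lib.MP_60c747_ag.Defs

set_option autoImplicit false

/-!
Iterates of a semilinear map in characteristic two and change of basis.
-/

namespace Pool.Agent.Lib.MP_60c747_ag

section ring

variable {R : Type*} [CommRing R] {n : Type*} [Fintype n] [DecidableEq n]

private theorem iter_fr_eq [CharP R 2] [ExpChar R 2] {l m : Type*} (A : Matrix l m R) :
    fr A = A.map (frobenius R 2) := rfl

/-- Entrywise squaring commutes with matrix multiplication (rectangular matrices). -/
theorem fr_mul [CharP R 2] {l m o : Type*} [Fintype m] (A : Matrix l m R) (B : Matrix m o R) :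
    fr (A * B) = fr A * fr B := by
  haveI : ExpChar R 2 := ExpChar.prime Nat.prime_two
  rw [iter_fr_eq, iter_fr_eq, iter_fr_eq, Matrix.map_mul]

private theorem iter_fr_one : fr (1 : Matrix n n R) = 1 := by
  ext i j
  by_cases h : i = j
  · subst h; simp [fr]
  · simp [fr, Matrix.one_apply_ne h]

theorem fr_one [Nontrivial R] : fr (1 : Matrix n n R) = 1 := iter_fr_one

theorem fr_smul {l m : Type*} (c : R) (A : Matrix l m R) : fr (c • A) = c ^ 2 • fr A := by
  ext i j
  simp [fr, mul_pow]

/-- The determinant of the matrix of entrywise squares. -/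
theorem det_fr [CharP R 2] (A : Matrix n n R) : (fr A).det = A.det ^ 2 := by
  haveI : ExpChar R 2 := ExpChar.prime Nat.prime_two
  rw [iter_fr_eq]
  exact (RingHom.map_det (frobenius R 2) A).symm

/-- The other recursion for the iterates. -/
theorem it_succ' [CharP R 2] (A : Matrix n n R) (m : ℕ) : it A (m + 1) = fr^[m] A * it A m := by
  induction m with
  | zero => simp [it, iter_fr_one]
  | succ m ih =>
      have h1 : it A (m + 1 + 1) = fr (it A (m + 1)) * A := rfl
      rw [h1, ih, fr_mul, Function.iterate_succ_apply', ← ih, Matrix.mul_assoc]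
      rfl

/-- Base change. -/
theorem it_conj [CharP R 2] {A A' g : Matrix n n R} {c : R} (h : A' * g = c • (fr g * A)) (m : ℕ) :
    it A' m * g = c ^ (2 ^ m - 1) • (fr^[m] g * it A m) := by
  induction m with
  | zero => simp [it]
  | succ m ih =>
      have h1 : it A' (m + 1) = fr (it A' m) * A' := rfl
      have h2 : it A (m + 1) = fr (it A m) * A := rfl
      rw [h1, Matrix.mul_assoc, h, Matrix.mul_smul, ← Matrix.mul_assoc, ← fr_mul, ih, fr_smul,
        fr_mul, Function.iterate_succ_apply', h2, Matrix.smul_mul, smul_smul, Matrix.mul_assoc]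
      congr 1
      have h3 : 1 ≤ 2 ^ m := Nat.one_le_two_pow
      have h4 : 2 ^ (m + 1) - 1 = 2 * (2 ^ m - 1) + 1 := by
        rw [pow_succ]; omega
      rw [h4]
      ring

theorem it_smul [CharP R 2] (A : Matrix n n R) (c : R) (m : ℕ) :
    it (c • A) m = c ^ (2 ^ m - 1) • it A m := by
  have h : (c • A) * 1 = c • (fr 1 * A) := by rw [iter_fr_one, mul_one, one_mul]
  have h1 := it_conj h m
  have h2 : fr^[m] (1 : Matrix n n R) = 1 := Function.iterate_fixed iter_fr_one m
  rw [h2, mul_one, one_mul] at h1
  exact h1

theorem it_map {R' : Type*} [CommRing R'] (φ : R →+* R') (A : Matrix n n R) (m : ℕ) :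
    it (A.map φ) m = (it A m).map φ := by
  induction m with
  | zero => simp [it]
  | succ m ih =>
      have h1 : it (A.map φ) (m + 1) = fr (it (A.map φ) m) * A.map φ := rfl
      have h2 : it A (m + 1) = fr (it A m) * A := rfl
      rw [h1, h2, ih, Matrix.map_mul]
      congr 1
      ext i j
      simp [fr]

end ring

section field

variable {k : Type*} [Field k] [CharP k 2] {n : Type*} [Fintype n] [DecidableEq n]

private theorem iter_det_iter (g : Matrix n n k) (m : ℕ) : (fr^[m] g).det = g.det ^ (2 ^ m) := by
  induction m with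
  | zero => simp
  | succ m ih => rw [Function.iterate_succ_apply', det_fr, ih, ← pow_mul, ← pow_succ]

private theorem iter_rank_smul {c : k} (hc : c ≠ 0) (A : Matrix n n k) :
    (c • A).rank = A.rank := by
  have h : c • A = (c • (1 : Matrix n n k)) * A := by rw [Matrix.smul_mul, one_mul]
  rw [h]
  apply Matrix.rank_mul_eq_right_of_isUnit_det
  rw [Matrix.det_smul, Matrix.det_one, mul_one]
  exact (IsUnit.mk0 c hc).pow _

/-- Invertible base change preserves the ranks of the iterates. -/
theorem rank_it_conj {A A' g : Matrix n n k} {c : k} (hg : IsUnit g.det) (hc : c ≠ 0)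
    (h : A' * g = c • (fr g * A)) (m : ℕ) : (it A' m).rank = (it A m).rank := by
  rw [← Matrix.rank_mul_eq_left_of_isUnit_det g (it A' m) hg, it_conj h m,
    iter_rank_smul (pow_ne_zero _ hc)]
  apply Matrix.rank_mul_eq_right_of_isUnit_det
  rw [iter_det_iter]
  exact hg.pow _

/-- The ranks of the iterates do not increase. -/
theorem rank_it_antitone (A : Matrix n n k) : Antitone fun m => (it A m).rank := by
  refine antitone_nat_of_succ_le fun m => ?_
  rw [it_succ']
  exact Matrix.rank_mul_le_right _ _

end field

end Pool.Agent.Lib.MP_60c747_ag
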