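import Pool.Agent.Lib.MP_60c747_ag.Iter

set_option autoImplicit false

/-!
The operator `T` (the coefficients at the exponents `1 + 2m`) and the transformation law of the
Hasse-Witt matrix under linear substitutions.
-/

namespace Pool.Agent.Lib.MP_60c747_ag

open MvPolynomial

section basic

variable {R : Type*} [CommRing R]

theorem act_X (g : Matrix (Fin 4) (Fin 4) R) (i : Fin 4) : act g (X i) = lin (g i) := by
  simp [act, lin]

theorem act_one (U : MvPolynomial (Fin 4) R) : act (1 : Matrix (Fin 4) (Fin 4) R) U = U := by
  have h : act (1 : Matrix (Fin 4) (Fin 4) R) = AlgHom.id R _ := by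
    refine MvPolynomial.algHom_ext fun i => ?_
    rw [act_X, AlgHom.id_apply, lin, Finset.sum_eq_single i]
    · simp
    · intro j _ hj
      rw [Matrix.one_apply_ne hj.symm, C_0, zero_mul]
    · simp
  rw [h, AlgHom.id_apply]

/-- `(act g U)(x) = U(g x)`, so `act h (act g U) = act (g * h) U`. -/
theorem act_act (g h : Matrix (Fin 4) (Fin 4) R) (U : MvPolynomial (Fin 4) R) :
    act h (act g U) = act (g * h) U := by
  have key : (act h).comp (act g) = act (g * h) := by
    refine MvPolynomial.algHom_ext fun i => ?_
    rw [AlgHom.comp_apply, act_X, act_X, lin, map_sum, lin]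
    have e : ∀ j, act h (C (g i j) * X j) = ∑ l, C (g i j * h j l) * X l := by
      intro j
      rw [map_mul, act_X, lin, Finset.mul_sum]
      refine Finset.sum_congr rfl fun l _ => ?_
      rw [show act h (C (g i j)) = C (g i j) from AlgHom.commutes _ _, C_mul, mul_assoc]
    simp_rw [e]
    rw [Finset.sum_comm]
    refine Finset.sum_congr rfl fun l _ => ?_
    rw [← Finset.sum_mul, ← map_sum, Matrix.mul_apply]
  rw [← key, AlgHom.comp_apply]

theorem eval_act (g : Matrix (Fin 4) (Fin 4) R) (U : MvPolynomial (Fin 4) R) (x : Fin 4 → R) :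
    eval x (act g U) = eval (g.mulVec x) U := by
  have key : (eval x).comp (act g : MvPolynomial (Fin 4) R →+* MvPolynomial (Fin 4) R) =
      eval (g.mulVec x) := by
    refine MvPolynomial.ringHom_ext (fun r => ?_) fun i => ?_
    · rw [RingHom.comp_apply, RingHom.coe_coe,
        show act g (C r) = C r from AlgHom.commutes _ _, eval_C, eval_C]
    · rw [RingHom.comp_apply, RingHom.coe_coe, act_X, lin, map_sum, eval_X]
      simp [Matrix.mulVec, dotProduct]
  exact congrArg (fun φ : MvPolynomial (Fin 4) R →+* R => φ U) key

theorem act_isHomogeneous (g : Matrix (Fin 4) (Fin 4) R) {U : MvPolynomial (Fin 4) R} {d : ℕ}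
    (hU : U.IsHomogeneous d) : (act g U).IsHomogeneous d := by
  have h := hU.aeval (fun i => ∑ j, C (g i j) * X j) (n := 1) fun i => by
    refine IsHomogeneous.sum _ _ _ fun j _ => ?_
    have := (isHomogeneous_C (Fin 4) (g i j)).mul (isHomogeneous_X R j)
    rwa [zero_add] at this
  rwa [one_mul] at h

theorem act_map {R' : Type*} [CommRing R'] (φ : R →+* R') (g : Matrix (Fin 4) (Fin 4) R)
    (U : MvPolynomial (Fin 4) R) :
    MvPolynomial.map φ (act g U) = act (g.map φ) (MvPolynomial.map φ U) := by
  have key : (MvPolynomial.map φ).comp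
      (act g : MvPolynomial (Fin 4) R →+* MvPolynomial (Fin 4) R) =
      (act (g.map φ) : MvPolynomial (Fin 4) R' →+* MvPolynomial (Fin 4) R').comp
        (MvPolynomial.map φ) := by
    refine MvPolynomial.ringHom_ext (fun r => ?_) fun i => ?_
    · rw [RingHom.comp_apply, RingHom.coe_coe, show act g (C r) = C r from AlgHom.commutes _ _,
        RingHom.comp_apply, RingHom.coe_coe, map_C,
        show act (g.map φ) (C (φ r)) = C (φ r) from AlgHom.commutes _ _]
    · rw [RingHom.comp_apply, RingHom.coe_coe, RingHom.comp_apply, RingHom.coe_coe, map_X,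
        act_X, act_X, lin, lin, map_sum]
      refine Finset.sum_congr rfl fun j _ => ?_
      rw [map_mul, map_C, map_X, Matrix.map_apply]
  exact congrArg (fun ψ : MvPolynomial (Fin 4) R →+* MvPolynomial (Fin 4) R' => ψ U) key

theorem form_isHomogeneous {d : ℕ} (a : Mon d → R) : (form a).IsHomogeneous d := by
  refine IsHomogeneous.sum _ _ _ fun m _ => isHomogeneous_monomial _ ?_
  rw [Finsupp.degree_eq_sum]
  exact m.2

private theorem Law_ex_inj {d : ℕ} : Function.Injective (ex : Mon d → Fin 4 →₀ ℕ) := by
  intro m m' h
  apply Subtype.ext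
  funext i
  apply Fin.ext
  exact DFunLike.congr_fun h i

theorem coeff_form {d : ℕ} (a : Mon d → R) (m : Mon d) : coeff (ex m) (form a) = a m := by
  classical
  unfold form
  rw [coeff_sum, Finset.sum_eq_single m]
  · rw [coeff_monomial, if_pos rfl]
  · intro m' _ hm'
    rw [coeff_monomial, if_neg fun h => hm' (Law_ex_inj h)]
  · simp

theorem form_coeff {d : ℕ} {U : MvPolynomial (Fin 4) R} (hU : U.IsHomogeneous d) :
    form (fun m : Mon d => coeff (ex m) U) = U := by
  ext e
  by_cases he : e.degree = d
  · have hle : ∀ i, e i < d + 1 := by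
      intro i
      rw [Nat.lt_succ_iff, ← he, Finsupp.degree_eq_sum]
      exact Finset.single_le_sum (f := fun i => e i) (fun _ _ => Nat.zero_le _)
        (Finset.mem_univ i)
    have hsum : ∑ i, e i = d := by rw [← he, Finsupp.degree_eq_sum]
    have hm : e = ex (⟨fun i => ⟨e i, hle i⟩, hsum⟩ : Mon d) := by
      ext i
      rfl
    rw [hm, coeff_form]
  · rw [hU.coeff_eq_zero he, (form_isHomogeneous _).coeff_eq_zero he]

theorem HW_add (U V : MvPolynomial (Fin 4) R) : HW (U + V) = HW U + HW V := by
  ext i j
  simp [HW]

end basic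

section T

variable {R : Type*} [CommRing R]

private theorem law_exv_coe (m : Fin 4 →₀ ℕ) : exv (⇑m) = m := by
  ext i
  rfl

private theorem law_exv_apply (m : Fin 4 → ℕ) (i : Fin 4) : exv m i = m i := rfl

private theorem law_exv_inj {m m' : Fin 4 → ℕ} : exv m = exv m' ↔ m = m' := by
  constructor
  · intro h
    funext i
    rw [← law_exv_apply m, h, law_exv_apply]
  · rintro rfl
    rfl

private theorem law_ext {U V : MvPolynomial (Fin 4) R}
    (h : ∀ m : Fin 4 → ℕ, coeff (exv m) U = coeff (exv m) V) : U = V := by
  refine MvPolynomial.ext _ _ fun m => ?_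
  rw [← law_exv_coe m]
  exact h m

/-- Existence of the operator `T`. -/
theorem exists_T (R : Type*) [CommRing R] :
    ∃ T : MvPolynomial (Fin 4) R →ₗ[R] MvPolynomial (Fin 4) R,
      ∀ (U : MvPolynomial (Fin 4) R) (m : Fin 4 → ℕ),
        coeff (exv m) (T U) = coeff (exv fun l => 1 + 2 * m l) U := by
  classical
  refine ⟨(basisMonomials (Fin 4) R).constr R fun e =>
    if ∀ l, e l % 2 = 1 then monomial (exv fun l => e l / 2) (1 : R) else 0, ?_⟩
  intro U m
  induction U using MvPolynomial.induction_on' with
  | add p q hp hq => rw [map_add, coeff_add, coeff_add, hp, hq]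
  | monomial e r =>
    have h1 : monomial e r = r • basisMonomials (Fin 4) R e := by
      rw [coe_basisMonomials, smul_monomial, smul_eq_mul, mul_one]
    rw [h1, map_smul, Module.Basis.constr_basis, ← h1, coeff_smul, coeff_monomial, smul_eq_mul]
    by_cases h2 : ∀ l, e l % 2 = 1
    · rw [if_pos h2, coeff_monomial]
      have h3 : ((exv fun l => e l / 2) = exv m) ↔ (e = exv fun l => 1 + 2 * m l) := by
        rw [law_exv_inj]
        constructor
        · intro h
          ext l
          have h4 := congrFun h l
          have h5 := h2 l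
          rw [law_exv_apply]
          omega
        · intro h
          funext l
          have h4 : e l = 1 + 2 * m l := by rw [h, law_exv_apply]
          omega
      by_cases h6 : (exv fun l => e l / 2) = exv m
      · rw [if_pos h6, if_pos (h3.1 h6), mul_one]
      · rw [if_neg h6, if_neg (fun h => h6 (h3.2 h)), mul_zero]
    · rw [if_neg h2, coeff_zero, mul_zero, if_neg]
      intro h
      apply h2
      intro l
      rw [h, law_exv_apply]
      omega

/-- The operator `T`. -/
noncomputable def T (R : Type*) [CommRing R] :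
    MvPolynomial (Fin 4) R →ₗ[R] MvPolynomial (Fin 4) R :=
  Classical.choose (exists_T R)

theorem coeff_T (U : MvPolynomial (Fin 4) R) (m : Fin 4 → ℕ) :
    coeff (exv m) (T R U) = coeff (exv fun l => 1 + 2 * m l) U :=
  Classical.choose_spec (exists_T R) U m

private theorem law_T_mono_odd (e : Fin 4 → ℕ) (r : R) (h : ∀ l, e l % 2 = 1) :
    T R (monomial (exv e) r) = monomial (exv fun l => e l / 2) r := by
  classical
  refine law_ext fun m => ?_
  rw [coeff_T, coeff_monomial, coeff_monomial]
  refine if_congr ?_ rfl rfl
  rw [law_exv_inj, law_exv_inj]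
  constructor
  · intro h1
    funext l
    have h2 := congrFun h1 l
    omega
  · intro h1
    funext l
    have h2 := congrFun h1 l
    have h3 := h l
    omega

private theorem law_T_mono_even (e : Fin 4 → ℕ) (r : R) {l : Fin 4} (h : e l % 2 = 0) :
    T R (monomial (exv e) r) = 0 := by
  classical
  refine law_ext fun m => ?_
  rw [coeff_T, coeff_monomial, coeff_zero, if_neg]
  rw [law_exv_inj]
  intro h1
  have h2 := congrFun h1 l
  omega

/-- `T (H(x²) U) = H T(U)`. -/
theorem T_expand_mul (H U : MvPolynomial (Fin 4) R) : T R (expand 2 H * U) = H * T R U := by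
  induction H using MvPolynomial.induction_on' with
  | add p q hp hq => rw [map_add, add_mul, map_add, hp, hq, add_mul]
  | monomial a r =>
    induction U using MvPolynomial.induction_on' with
    | add p q hp hq => rw [mul_add, map_add, hp, hq, map_add, mul_add]
    | monomial e s =>
      rw [expand_monomial, monomial_mul]
      have h0 : (2 • a + e : Fin 4 →₀ ℕ) = exv fun l => 2 * a l + e l := by
        ext l
        rw [law_exv_apply]
        simp
      rw [h0]
      by_cases h : ∀ l, e l % 2 = 1
      · rw [law_T_mono_odd _ _ (fun l => by have := h l; omega)]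
        have h2 : (exv fun l => (2 * a l + e l) / 2) = a + exv fun l => e l / 2 := by
          ext l
          have := h l
          rw [Finsupp.add_apply, law_exv_apply, law_exv_apply]
          omega
        conv_rhs => rw [← law_exv_coe e, law_T_mono_odd _ _ h, monomial_mul]
        rw [h2]
      · push Not at h
        obtain ⟨l, hl⟩ := h
        have hl' : e l % 2 = 0 := by omega
        rw [law_T_mono_even _ _ (l := l) (by omega)]
        conv_rhs => rw [← law_exv_coe e, law_T_mono_even _ _ hl', mul_zero]

/-- The Hasse-Witt matrix in terms of `T`. -/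
theorem HW_eq_T (U : MvPolynomial (Fin 4) R) (i j : Fin 4) :
    HW U i j = coeff (exv fun l => if l = i then 1 else 0) (T R (X j * U)) := by
  classical
  rw [coeff_T, coeff_X_mul', if_pos]
  · unfold HW
    congr 1
    ext l
    rw [Finsupp.tsub_apply, law_exv_apply, law_exv_apply, Finsupp.single_apply]
    by_cases h1 : l = i <;> by_cases h2 : l = j
    · subst h1; subst h2; simp
    · subst h1
      have : ¬ j = l := fun h => h2 h.symm
      simp [h2, this]
    · subst h2; simp [h1]
    · have : ¬ j = l := fun h => h2 h.symm
      simp [h1, h2, this]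
  · rw [Finsupp.mem_support_iff, law_exv_apply]
    omega

private theorem law_T_low {U : MvPolynomial (Fin 4) R} {d : ℕ} (hU : U.IsHomogeneous d)
    (hd : d < 4) : T R U = 0 := by
  refine law_ext fun m => ?_
  rw [coeff_T, coeff_zero]
  apply hU.coeff_eq_zero
  intro h
  rw [Finsupp.degree_eq_sum] at h
  simp only [law_exv_apply, Fin.sum_univ_four] at h
  omega

private theorem law_T_homog {U : MvPolynomial (Fin 4) R} {d e : ℕ} (hU : U.IsHomogeneous d)
    (hd : d = 4 + 2 * e) : (T R U).IsHomogeneous e := by
  intro m hm
  rw [← law_exv_coe m, coeff_T] at hm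
  by_contra h
  apply hm
  apply hU.coeff_eq_zero
  intro h1
  apply h
  rw [Finsupp.degree_eq_sum] at h1
  simp only [law_exv_apply, Fin.sum_univ_four] at h1
  have hw : Finsupp.weight (1 : Fin 4 → ℕ) m = m.degree := by
    rw [Finsupp.degree_eq_weight_one]
    rfl
  rw [hw, Finsupp.degree_eq_sum, Fin.sum_univ_four]
  omega

private theorem law_lin_homog (l : Fin 4 → R) : (lin l).IsHomogeneous 1 := by
  unfold lin
  refine IsHomogeneous.sum _ _ _ fun j _ => ?_
  have := (isHomogeneous_C (Fin 4) (l j)).mul (isHomogeneous_X R j)
  rwa [zero_add] at this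

private theorem law_sum_single (p : Fin 4 → Fin 4) :
    (∑ i, Finsupp.single (p i) 1 : Fin 4 →₀ ℕ) = (exv fun _ => 1) ↔ Function.Bijective p := by
  classical
  have hval : ∀ j, (∑ i, Finsupp.single (p i) 1 : Fin 4 →₀ ℕ) j =
      ∑ i, if p i = j then 1 else 0 := by
    intro j
    rw [Finsupp.finsetSum_apply]
    exact Finset.sum_congr rfl fun i _ => Finsupp.single_apply
  constructor
  · intro h
    suffices hs : Function.Surjective p from ⟨Finite.injective_iff_surjective.2 hs, hs⟩
    intro j
    have h1 := hval j
    rw [h, law_exv_apply] at h1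
    by_contra h2
    push Not at h2
    rw [Finset.sum_eq_zero (fun i _ => if_neg (h2 i))] at h1
    omega
  · intro h
    ext j
    rw [hval, law_exv_apply]
    obtain ⟨i, hi⟩ := h.surjective j
    rw [Finset.sum_eq_single i]
    · rw [if_pos hi]
    · intro i' _ hne
      rw [if_neg]
      intro h1
      exact hne (h.injective (h1.trans hi.symm))
    · intro h1
      exact absurd (Finset.mem_univ i) h1

/-- the coefficient of the product of all variables in a product of linear forms -/
private theorem law_coeff_prod_lin (g : Matrix (Fin 4) (Fin 4) R) :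
    coeff (exv fun _ => 1) (∏ i, lin (g i)) = g.permanent := by
  classical
  unfold lin
  rw [Finset.prod_univ_sum, coeff_sum]
  have h1 : ∀ p ∈ Fintype.piFinset (fun _ : Fin 4 => (Finset.univ : Finset (Fin 4))),
      coeff (exv fun _ => 1) (∏ i, (C (g i (p i)) * X (p i) : MvPolynomial (Fin 4) R)) =
      if Function.Bijective p then ∏ i, g i (p i) else 0 := by
    intro p _
    simp only [C_mul_X_eq_monomial]
    rw [← monomial_sum_prod, coeff_monomial]
    exact if_congr (law_sum_single p) rfl rfl
  rw [Finset.sum_congr rfl h1, Fintype.piFinset_univ, ← Finset.sum_filter,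
    ← Matrix.permanent_transpose]
  unfold Matrix.permanent
  symm
  refine Finset.sum_bij (fun (σ : Equiv.Perm (Fin 4)) _ => (σ : Fin 4 → Fin 4)) ?_ ?_ ?_ ?_
  · intro σ _
    rw [Finset.mem_filter]
    exact ⟨Finset.mem_univ _, σ.bijective⟩
  · intro σ _ τ _ h
    exact Equiv.coe_fn_injective h
  · intro p hp
    rw [Finset.mem_filter] at hp
    exact ⟨Equiv.ofBijective p hp.2, Finset.mem_univ _, rfl⟩
  · intro σ _
    rfl

private theorem law_zero : (0 : Fin 4 →₀ ℕ) = exv fun _ => 0 := by
  ext l
  rw [law_exv_apply]
  rfl

private theorem law_perm_eq_det [CharP R 2] (g : Matrix (Fin 4) (Fin 4) R) :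
    g.permanent = g.det := by
  rw [Matrix.det_apply]
  unfold Matrix.permanent
  refine Finset.sum_congr rfl fun σ _ => ?_
  rcases Int.units_eq_one_or (Equiv.Perm.sign σ) with h | h
  · rw [h, one_smul]
  · rw [h, Units.neg_smul, one_smul, CharTwo.neg_eq]

/-- `T` of a squarefree monomial `∏_{i ∈ s} xᵢ` after substitution: `det g` for the product of all
variables (permanent = determinant in characteristic two) and zero otherwise. -/
theorem T_act_prod [CharP R 2] (g : Matrix (Fin 4) (Fin 4) R) (s : Finset (Fin 4)) :
    T R (act g (∏ i ∈ s, X i)) = if s = Finset.univ then C g.det else 0 := by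
  classical
  rw [map_prod, Finset.prod_congr rfl fun i _ => act_X g i]
  have hh : (∏ i ∈ s, lin (g i)).IsHomogeneous s.card := by
    have h1 := IsHomogeneous.prod s (fun i => lin (g i)) (fun _ => 1)
      fun i _ => law_lin_homog (g i)
    simpa using h1
  split_ifs with hs
  · subst hs
    refine law_ext fun m => ?_
    rw [coeff_T, coeff_C]
    by_cases hm : m = fun _ => 0
    · subst hm
      have h0 : (0 : Fin 4 →₀ ℕ) = exv fun _ => 0 := law_zero
      rw [if_pos h0]
      exact (law_coeff_prod_lin g).trans (law_perm_eq_det g)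
    · rw [if_neg]
      · apply hh.coeff_eq_zero
        intro h
        rw [Finsupp.degree_eq_sum] at h
        simp only [law_exv_apply, Fin.sum_univ_four, Finset.card_univ, Fintype.card_fin] at h
        apply hm
        funext l
        fin_cases l <;> simp <;> omega
      · intro h
        apply hm
        have h0 : (0 : Fin 4 →₀ ℕ) = exv fun _ => 0 := law_zero
        rw [h0, law_exv_inj] at h
        exact h.symm
  · apply law_T_low hh
    by_contra h2
    apply hs
    apply Finset.eq_univ_of_card
    have h3 := Finset.card_le_univ s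
    rw [Fintype.card_fin] at h3 ⊢
    omega

private theorem law_sq [ExpChar R 2] (V : MvPolynomial (Fin 4) R) :
    V ^ 2 = expand 2 (MvPolynomial.map (frobenius R 2) V) := by
  rw [← map_expand, map_frobenius_expand]

private theorem law_act_sq [CharP R 2] (g : Matrix (Fin 4) (Fin 4) R) (a : Fin 4 →₀ ℕ) :
    (act g (monomial a 1)) ^ 2 = expand 2 (act (fr g) (monomial a 1)) := by
  have : ExpChar R 2 := ExpChar.prime Nat.prime_two
  rw [law_sq, act_map, map_monomial, map_one]
  rfl

private theorem law_mono_decomp (e : Fin 4 →₀ ℕ) (r : R) :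
    monomial e r = r • ((∏ i ∈ Finset.univ.filter (fun i => e i % 2 = 1), X i) *
      (monomial (exv fun l => e l / 2) (1 : R)) ^ 2) := by
  classical
  have h1 : (∏ i ∈ Finset.univ.filter (fun i => e i % 2 = 1), X i : MvPolynomial (Fin 4) R) =
      monomial (∑ i ∈ Finset.univ.filter (fun i => e i % 2 = 1), Finsupp.single i 1) 1 := by
    rw [monomial_sum_one]
    rfl
  have h3 : (∑ i ∈ Finset.univ.filter (fun i => e i % 2 = 1), Finsupp.single i 1) +
      2 • (exv fun l => e l / 2) = e := by
    ext l
    rw [Finsupp.add_apply, Finsupp.smul_apply, law_exv_apply, Finsupp.finsetSum_apply]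
    have h2 : ∑ i ∈ Finset.univ.filter (fun i => e i % 2 = 1), (Finsupp.single i 1 : Fin 4 →₀ ℕ) l =
        if e l % 2 = 1 then 1 else 0 := by
      rw [Finset.sum_filter]
      rw [Finset.sum_eq_single l]
      · rw [Finsupp.single_eq_same]
      · intro i _ hi
        rw [Finsupp.single_eq_of_ne (Ne.symm hi)]
        simp
      · intro h
        exact absurd (Finset.mem_univ l) h
    rw [h2, smul_eq_mul]
    split_ifs <;> omega
  rw [h1, monomial_pow, monomial_mul, smul_monomial, h3]
  simp

/-- The law for `T`: write a monomial as (squarefree) * (square), use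
`(act g V)^2 = expand 2 (act (fr g) V)` for monomials `V`. -/
theorem T_act [CharP R 2] (g : Matrix (Fin 4) (Fin 4) R) (U : MvPolynomial (Fin 4) R) :
    T R (act g U) = C g.det * act (fr g) (T R U) := by
  classical
  induction U using MvPolynomial.induction_on' with
  | add p q hp hq => rw [map_add, map_add, hp, hq, map_add, map_add, mul_add]
  | monomial e r =>
    have key : ∀ h : Matrix (Fin 4) (Fin 4) R, T R (act h (monomial e r)) =
        r • (act (fr h) (monomial (exv fun l => e l / 2) (1 : R)) *
          if Finset.univ.filter (fun i => e i % 2 = 1) = Finset.univ then C h.det else 0) := by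
      intro h
      rw [law_mono_decomp e r, map_smul, map_smul, map_mul, map_pow, law_act_sq, mul_comm,
        T_expand_mul, T_act_prod]
    generalize (monomial (exv fun l => e l / 2) (1 : R) : MvPolynomial (Fin 4) R) = V at key
    have h1 := key 1
    have h2 : fr (1 : Matrix (Fin 4) (Fin 4) R) = 1 := by
      ext i j
      by_cases hij : i = j
      · subst hij; simp [fr]
      · simp [fr, Matrix.one_apply_ne hij]
    rw [act_one, h2, act_one, Matrix.det_one] at h1
    rw [key g, h1, map_smul, map_mul]
    split_ifs
    · rw [C_1, map_one, mul_one, mul_smul_comm, mul_comm]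
    · simp only [map_zero, mul_zero, smul_zero]

private theorem law_coeff_lin (v : Fin 4 → R) (i : Fin 4) :
    coeff (exv fun l => if l = i then 1 else 0) (lin v) = v i := by
  classical
  unfold lin
  rw [coeff_sum, Finset.sum_eq_single i]
  · rw [coeff_C_mul, coeff_X, if_pos, mul_one]
    ext l
    rw [law_exv_apply, Finsupp.single_apply]
    exact if_congr eq_comm rfl rfl
  · intro j _ hj
    rw [coeff_C_mul, coeff_X, if_neg, mul_zero]
    intro h
    have h1 := DFunLike.congr_fun h j
    rw [law_exv_apply, Finsupp.single_eq_same, if_neg hj] at h1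
    omega
  · intro h
    exact absurd (Finset.mem_univ i) h

private theorem law_eq_lin {P : MvPolynomial (Fin 4) R} (hP : P.IsHomogeneous 1) :
    P = lin fun i => coeff (exv fun l => if l = i then 1 else 0) P := by
  classical
  refine law_ext fun m => ?_
  by_cases hm : m 0 + m 1 + m 2 + m 3 = 1
  · have h1 : ∃ i, m = fun l => if l = i then 1 else 0 := by
      have h2 : m 0 = 1 ∨ m 1 = 1 ∨ m 2 = 1 ∨ m 3 = 1 := by omega
      rcases h2 with h2 | h2 | h2 | h2
      · refine ⟨0, funext fun l => ?_⟩
        fin_cases l <;> simp <;> omega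
      · refine ⟨1, funext fun l => ?_⟩
        fin_cases l <;> simp <;> omega
      · refine ⟨2, funext fun l => ?_⟩
        fin_cases l <;> simp <;> omega
      · refine ⟨3, funext fun l => ?_⟩
        fin_cases l <;> simp <;> omega
    obtain ⟨i, rfl⟩ := h1
    rw [law_coeff_lin]
  · have h1 : (exv m).degree ≠ 1 := by
      rw [Finsupp.degree_eq_sum]
      simpa only [law_exv_apply, Fin.sum_univ_four] using hm
    rw [hP.coeff_eq_zero h1, (law_lin_homog _).coeff_eq_zero h1]

/-- The transformation law of the Hasse-Witt matrix. -/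
theorem HW_act [CharP R 2] (g : Matrix (Fin 4) (Fin 4) R) {U : MvPolynomial (Fin 4) R}
    (hU : U.IsHomogeneous 5) :
    HW (act g U) * g.transpose = g.det • (fr g.transpose * HW U) := by
  classical
  ext i k
  rw [Matrix.mul_apply, Matrix.smul_apply, Matrix.mul_apply, smul_eq_mul]
  have h1 : ∑ j, HW (act g U) i j * g.transpose j k =
      coeff (exv fun l => if l = i then 1 else 0) (T R (act g (X k * U))) := by
    rw [map_mul, act_X]
    unfold lin
    rw [Finset.sum_mul, map_sum, coeff_sum]
    refine Finset.sum_congr rfl fun j _ => ?_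
    rw [HW_eq_T, Matrix.transpose_apply, mul_assoc, C_mul', map_smul, coeff_smul, smul_eq_mul,
      mul_comm]
  have hP : (T R (X k * U)).IsHomogeneous 1 :=
    law_T_homog ((isHomogeneous_X R k).mul hU) (by norm_num)
  rw [h1, T_act, coeff_C_mul]
  congr 1
  rw [law_eq_lin hP]
  unfold lin
  rw [map_sum, coeff_sum]
  refine Finset.sum_congr rfl fun l _ => ?_
  rw [map_mul, act_X, ← algebraMap_eq, AlgHom.commutes, algebraMap_eq, coeff_C_mul, law_coeff_lin,
    mul_comm, HW_eq_T U l k]
  rfl

/-- Adding a multiple of the quadric to the cubic does not change the Hasse-Witt matrix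
(characteristic two: `Q²` is a polynomial in the squares of the variables). -/
theorem HW_mul_self [CharP R 2] {Q : MvPolynomial (Fin 4) R} (hQ : Q.IsHomogeneous 2)
    (l : Fin 4 → R) : HW (Q * (lin l * Q)) = 0 := by
  have : ExpChar R 2 := ExpChar.prime Nat.prime_two
  ext i j
  have h1 : X j * (Q * (lin l * Q)) =
      expand 2 (MvPolynomial.map (frobenius R 2) Q) * (X j * lin l) := by
    rw [← law_sq]
    ring
  rw [HW_eq_T, h1, T_expand_mul, law_T_low ((isHomogeneous_X R j).mul (law_lin_homog l))
    (by norm_num), mul_zero, coeff_zero]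
  rfl

end T

section field

variable {k : Type*} [Field k] [CharP k 2]

/-- The `p`-rank bound is invariant under linear substitutions. -/
theorem prank_act {g : Matrix (Fin 4) (Fin 4) k} (hg : IsUnit g.det)
    {Q F : MvPolynomial (Fin 4) k} (hQ : Q.IsHomogeneous 2) (hF : F.IsHomogeneous 3) :
    prank (act g Q) (act g F) = prank Q F := by
  unfold prank
  rw [← map_mul]
  exact rank_it_conj (g := g.transpose) (by rwa [Matrix.det_transpose]) hg.ne_zero
    (HW_act g (hQ.mul hF)) 4

end field

end Pool.Agent.Lib.MP_60c747_ag
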