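import Pool.Agent.Lib.MP_60c747_ag.Law

set_option autoImplicit false

/-!
Quadrics in characteristic two which lie on a smooth curve.
-/

namespace Pool.Agent.Lib.MP_60c747_ag

open MvPolynomial

variable {k : Type*} [Field k]

/-- The polar form of `Q`. -/
noncomputable def pol (Q : MvPolynomial (Fin 4) k) (x y : Fin 4 → k) : k :=
  ∑ i, y i * eval x (pderiv i Q)

private theorem quad_exists_single {m : Fin 4 →₀ ℕ} {n : ℕ} (h : m.degree = n + 1) :
    ∃ (i : Fin 4) (m' : Fin 4 →₀ ℕ), m = m' + Finsupp.single i 1 ∧ m'.degree = n := by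
  have hne : m ≠ 0 := by
    intro h0; rw [h0] at h; simp at h
  obtain ⟨i, hi⟩ := Finsupp.ne_iff.mp hne
  have hi' : 1 ≤ m i := Nat.one_le_iff_ne_zero.mpr (by simpa using hi)
  have hm : m = (m - Finsupp.single i 1) + Finsupp.single i 1 :=
    (tsub_add_cancel_of_le (Finsupp.single_le_iff.mpr hi')).symm
  refine ⟨i, m - Finsupp.single i 1, hm, ?_⟩
  have h2 := congrArg Finsupp.degree hm
  rw [map_add, h, Finsupp.degree_single] at h2
  omega

private theorem quad_two {m : Fin 4 →₀ ℕ} (h : m.degree = 2) :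
    ∃ i j : Fin 4, m = Finsupp.single i 1 + Finsupp.single j 1 := by
  obtain ⟨j, m', rfl, hm'⟩ := quad_exists_single h
  obtain ⟨i, m'', rfl, hm''⟩ := quad_exists_single hm'
  have : m'' = 0 := (Finsupp.degree_eq_zero_iff m'').mp hm''
  exact ⟨i, j, by rw [this, zero_add]⟩

private theorem quad_degree {d : ℕ} {Q : MvPolynomial (Fin 4) k} (hQ : Q.IsHomogeneous d)
    {m : Fin 4 →₀ ℕ} (hm : m ∈ Q.support) : m.degree = d := by
  by_contra hne
  exact (mem_support_iff.mp hm) (hQ.coeff_eq_zero hne)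

theorem eval_add_eq {Q : MvPolynomial (Fin 4) k} (hQ : Q.IsHomogeneous 2) (x y : Fin 4 → k) :
    eval (x + y) Q = eval x Q + eval y Q + pol Q x y := by
  have key : ∀ m ∈ Q.support, eval (x + y) (monomial m (coeff m Q)) =
      eval x (monomial m (coeff m Q)) + eval y (monomial m (coeff m Q)) +
        pol (monomial m (coeff m Q)) x y := by
    intro m hm
    obtain ⟨i, j, hij⟩ := quad_two (quad_degree hQ hm)
    have h1 : monomial m (coeff m Q) = C (coeff m Q) * (X i * X j) := by
      rw [hij, X, X, monomial_mul, C_mul_monomial]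
      simp
    generalize coeff m Q = a at h1 ⊢
    rw [h1]
    have h2 : pol (C a * (X i * X j) : MvPolynomial (Fin 4) k) x y =
        a * (y i * x j + x i * y j) := by
      have h3 : ∀ l, eval x (pderiv l (C a * (X i * X j) : MvPolynomial (Fin 4) k)) =
          a * ((if l = i then 1 else 0) * x j + x i * (if l = j then 1 else 0)) := by
        intro l
        rw [Derivation.leibniz, Derivation.leibniz, pderiv_C, pderiv_X, pderiv_X]
        simp only [smul_eq_mul, map_add, map_mul, eval_C, eval_X, mul_zero, add_zero]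
        have h5 : ∀ r : Fin 4, eval x ((Pi.single l 1 : Fin 4 → MvPolynomial (Fin 4) k) r) =
            if l = r then 1 else 0 := by
          intro r
          by_cases hr : l = r
          · rw [if_pos hr, ← hr, Pi.single_eq_same, map_one]
          · rw [if_neg hr, Pi.single_eq_of_ne (Ne.symm hr), map_zero]
        rw [h5, h5]
        ring
      unfold pol
      simp only [h3]
      have h4 : ∀ l, y l * (a * ((if l = i then 1 else 0) * x j + x i * (if l = j then 1 else 0))) =
          (if l = i then a * y l * x j else 0) + (if l = j then a * y l * x i else 0) := by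
        intro l; split_ifs <;> ring
      simp only [h4, Finset.sum_add_distrib, Finset.sum_ite_eq', Finset.mem_univ, if_true]
      ring
    rw [h2]
    simp only [map_mul, eval_C, eval_X, Pi.add_apply]
    ring
  have hpol : pol Q x y = ∑ m ∈ Q.support, pol (monomial m (coeff m Q)) x y := by
    unfold pol
    rw [Finset.sum_comm]
    refine Finset.sum_congr rfl fun l _ => ?_
    rw [← Finset.mul_sum, ← map_sum, ← map_sum, support_sum_monomial_coeff]
  have hev : ∀ z : Fin 4 → k, eval z Q = ∑ m ∈ Q.support, eval z (monomial m (coeff m Q)) := by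
    intro z
    rw [← map_sum, support_sum_monomial_coeff]
  rw [hpol, hev, hev x, hev y, ← Finset.sum_add_distrib, ← Finset.sum_add_distrib]
  exact Finset.sum_congr rfl key

theorem eval_smul_eq {d : ℕ} {Q : MvPolynomial (Fin 4) k} (hQ : Q.IsHomogeneous d) (c : k)
    (x : Fin 4 → k) : eval (c • x) Q = c ^ d * eval x Q := by
  rw [eval_eq, eval_eq, Finset.mul_sum]
  refine Finset.sum_congr rfl fun m hm => ?_
  have h1 : ∏ i ∈ m.support, (c • x) i ^ m i = c ^ d * ∏ i ∈ m.support, x i ^ m i := by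
    have h2 : ∀ i ∈ m.support, (c • x) i ^ m i = c ^ m i * x i ^ m i := fun i _ => by
      simp [mul_pow]
    rw [Finset.prod_congr rfl h2, Finset.prod_mul_distrib, Finset.prod_pow_eq_pow_sum]
    congr 2
    rw [← quad_degree hQ hm]
    rfl
  rw [h1]
  ring

theorem pol_self [CharP k 2] {Q : MvPolynomial (Fin 4) k} (hQ : Q.IsHomogeneous 2)
    (x : Fin 4 → k) : pol Q x x = 0 := by
  have h1 := eval_add_eq hQ x x
  have h2 : x + x = (2 : k) • x := by rw [two_smul]
  have h3 : (2 : k) = 0 := CharTwo.two_eq_zero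
  rw [h2, eval_smul_eq hQ, h3] at h1
  have h4 : eval x Q + eval x Q = 0 := CharTwo.add_self_eq_zero _
  rw [h4] at h1
  simpa using h1.symm

theorem pol_comm {Q : MvPolynomial (Fin 4) k} (hQ : Q.IsHomogeneous 2)
    (x y : Fin 4 → k) : pol Q x y = pol Q y x := by
  have h1 := eval_add_eq hQ x y
  have h2 := eval_add_eq hQ y x
  rw [add_comm y x] at h2
  linear_combination h2 - h1

private theorem quad_pol_lin (Q : MvPolynomial (Fin 4) k) (x u v : Fin 4 → k) (a b : k) :
    pol Q x (a • u + b • v) = a * pol Q x u + b * pol Q x v := by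
  unfold pol
  rw [Finset.mul_sum, Finset.mul_sum, ← Finset.sum_add_distrib]
  refine Finset.sum_congr rfl fun i _ => ?_
  simp only [Pi.add_apply, Pi.smul_apply, smul_eq_mul]
  ring

/-- A cubic form has a nonzero zero on every plane through the origin. -/
theorem exists_zero_on_plane [IsAlgClosed k] {F : MvPolynomial (Fin 4) k} (hF : F.IsHomogeneous 3)
    {u v : Fin 4 → k} (huv : LinearIndependent k ![u, v]) :
    ∃ a b : k, a • u + b • v ≠ 0 ∧ eval (a • u + b • v) F = 0 := by
  have hli : ∀ a b : k, a • u + b • v = 0 → a = 0 ∧ b = 0 := LinearIndependent.pair_iff.mp huv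
  by_cases hv : eval v F = 0
  · refine ⟨0, 1, ?_, by simpa using hv⟩
    intro h
    exact one_ne_zero (hli 0 1 h).2
  let p : Polynomial k := aeval (fun i => Polynomial.C (u i) + Polynomial.C (v i) * Polynomial.X) F
  let q : Polynomial k := aeval (fun i => Polynomial.C (u i) * Polynomial.X + Polynomial.C (v i)) F
  have hp : ∀ t, p.eval t = eval (u + t • v) F := by
    intro t
    have h1 : (Polynomial.evalRingHom t) (aeval (fun i => Polynomial.C (u i) +
        Polynomial.C (v i) * Polynomial.X) F) = eval (u + t • v) F := by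
      rw [aeval_def, hom_eval₂]
      simp only [MvPolynomial.eval, coe_eval₂Hom]
      congr 1
      · ext c; simp
      · funext i
        simp only [Polynomial.coe_evalRingHom, Polynomial.eval_add, Polynomial.eval_mul,
          Polynomial.eval_C, Polynomial.eval_X, Pi.add_apply, Pi.smul_apply, smul_eq_mul]
        ring
    exact h1
  have hq : ∀ t, q.eval t = eval (t • u + v) F := by
    intro t
    have h1 : (Polynomial.evalRingHom t) (aeval (fun i => Polynomial.C (u i) * Polynomial.X +
        Polynomial.C (v i)) F) = eval (t • u + v) F := by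
      rw [aeval_def, hom_eval₂]
      simp only [MvPolynomial.eval, coe_eval₂Hom]
      congr 1
      · ext c; simp
      · funext i
        simp only [Polynomial.coe_evalRingHom, Polynomial.eval_add, Polynomial.eval_mul,
          Polynomial.eval_C, Polynomial.eval_X, Pi.add_apply, Pi.smul_apply, smul_eq_mul]
        ring
    exact h1
  by_cases hroot : ∃ t, p.eval t = 0
  · obtain ⟨t, ht⟩ := hroot
    refine ⟨1, t, ?_, ?_⟩
    · intro h
      exact one_ne_zero (hli 1 t h).1
    · rw [one_smul, ← hp]; exact ht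
  exfalso
  have hdeg : p.degree = 0 := by
    by_contra hne
    obtain ⟨t, ht⟩ := IsAlgClosed.exists_root p hne
    exact hroot ⟨t, ht⟩
  obtain ⟨c, hc⟩ : ∃ c, p = Polynomial.C c := ⟨_, Polynomial.eq_C_of_degree_eq_zero hdeg⟩
  have hqe : q = Polynomial.C c * Polynomial.X ^ 3 := by
    apply Polynomial.eq_of_infinite_eval_eq
    have hinf : Set.Infinite {t : k | t ≠ 0} := by
      have : {t : k | t ≠ 0} = ({0} : Set k)ᶜ := by ext; simp
      rw [this]
      exact (Set.finite_singleton (0 : k)).infinite_compl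
    refine hinf.mono fun t ht => ?_
    have ht' : t ≠ 0 := ht
    have h1 : t • u + v = t • (u + t⁻¹ • v) := by
      rw [smul_add, smul_smul, mul_inv_cancel₀ ht', one_smul]
    show q.eval t = _
    rw [hq, h1, eval_smul_eq hF, ← hp, hc]
    simp only [Polynomial.eval_C, Polynomial.eval_mul, Polynomial.eval_pow, Polynomial.eval_X]
    ring
  have h0 := hq 0
  rw [hqe, zero_smul, zero_add] at h0
  apply hv
  rw [← h0]
  simp

/-- If `Q = F = 0` is smooth then there is no plane in the radical of the polar form on which `Q`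
vanishes: a zero of `F` on such a plane would be a singular point. -/
theorem no_singular_plane [IsAlgClosed k] {Q F : MvPolynomial (Fin 4) k}
    (hQ : Q.IsHomogeneous 2) (hF : F.IsHomogeneous 3) (hs : SmoothPair Q F)
    {u v : Fin 4 → k} (huv : LinearIndependent k ![u, v])
    (hu : ∀ y, pol Q u y = 0) (hv : ∀ y, pol Q v y = 0) (hu0 : eval u Q = 0) (hv0 : eval v Q = 0) :
    False := by
  obtain ⟨a, b, hne, hF0⟩ := exists_zero_on_plane hF huv
  have hw : ∀ y, pol Q (a • u + b • v) y = 0 := by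
    intro y
    rw [pol_comm hQ, quad_pol_lin, pol_comm hQ y u, pol_comm hQ y v, hu, hv]
    ring
  have hQ0 : eval (a • u + b • v) Q = 0 := by
    rw [eval_add_eq hQ, eval_smul_eq hQ, eval_smul_eq hQ, hu0, hv0]
    have h1 : pol Q (a • u) (b • v) = 0 := by
      have h2 : pol Q (a • u) (b • v) = b * (a * pol Q v u) := by
        have h3 := quad_pol_lin Q (a • u) v 0 b 0
        have h4 := quad_pol_lin Q v u 0 a 0
        simp only [smul_zero, add_zero, zero_mul] at h3 h4
        rw [h3, pol_comm hQ (a • u) v, h4]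
      rw [h2, hv]
      ring
    rw [h1]
    ring
  have hgrad : ∀ i, eval (a • u + b • v) (pderiv i Q) = 0 := by
    intro i
    have h1 := hw (Pi.single i 1)
    unfold pol at h1
    rw [Finset.sum_eq_single i] at h1
    · simpa using h1
    · intro j _ hj
      rw [Pi.single_eq_of_ne hj, zero_mul]
    · intro h; exact absurd (Finset.mem_univ _) h
  have h2 := hs (a • u + b • v) hne hQ0 hF0 1 0 (fun i => by rw [hgrad i]; ring)
  exact one_ne_zero h2.1

private theorem quad2_add_right (Q : MvPolynomial (Fin 4) k) (x u v : Fin 4 → k) :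
    pol Q x (u + v) = pol Q x u + pol Q x v := by
  have h := quad_pol_lin Q x u v 1 1
  rw [one_smul, one_smul, one_mul, one_mul] at h
  exact h

private theorem quad2_smul_right (Q : MvPolynomial (Fin 4) k) (x u : Fin 4 → k) (c : k) :
    pol Q x (c • u) = c * pol Q x u := by
  have h := quad_pol_lin Q x u u c 0
  rw [zero_smul, add_zero, zero_mul, add_zero] at h
  exact h

private theorem quad2_add_left {Q : MvPolynomial (Fin 4) k} (hQ : Q.IsHomogeneous 2)
    (u v x : Fin 4 → k) : pol Q (u + v) x = pol Q u x + pol Q v x := by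
  rw [pol_comm hQ, quad2_add_right, pol_comm hQ x u, pol_comm hQ x v]

private theorem quad2_smul_left {Q : MvPolynomial (Fin 4) k} (hQ : Q.IsHomogeneous 2)
    (u x : Fin 4 → k) (c : k) : pol Q (c • u) x = c * pol Q u x := by
  rw [pol_comm hQ, quad2_smul_right, pol_comm hQ x u]

/-- A hyperbolic pair: if `pol Q u v ≠ 0` then the plane spanned by `u` and `v` has a basis
`e₀, e₁` with `Q e₀ = Q e₁ = 0`, `pol Q e₀ e₁ = 1`. -/
theorem exists_hyperbolic [IsAlgClosed k] [CharP k 2] {Q : MvPolynomial (Fin 4) k}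
    (hQ : Q.IsHomogeneous 2) {u v : Fin 4 → k} (huv : pol Q u v ≠ 0) :
    ∃ e₀ e₁ : Fin 4 → k, e₀ ∈ Submodule.span k {u, v} ∧ e₁ ∈ Submodule.span k {u, v} ∧
      eval e₀ Q = 0 ∧ eval e₁ Q = 0 ∧ pol Q e₀ e₁ = 1 := by
  have hu : u ∈ Submodule.span k {u, v} := Submodule.subset_span (by simp)
  have hv : v ∈ Submodule.span k {u, v} := Submodule.subset_span (by simp)
  obtain ⟨w, z, hw, hz, hw0, hwz⟩ : ∃ w z : Fin 4 → k, w ∈ Submodule.span k {u, v} ∧
      z ∈ Submodule.span k {u, v} ∧ eval w Q = 0 ∧ pol Q w z ≠ 0 := by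
    by_cases hv0 : eval v Q = 0
    · exact ⟨v, u, hv, hu, hv0, by rw [pol_comm hQ]; exact huv⟩
    · obtain ⟨t, ht⟩ : ∃ t : k, eval v Q * (t * t) + pol Q u v * t + eval u Q = 0 := by
        have hdeg : (Polynomial.C (eval v Q) * Polynomial.X ^ 2 +
            Polynomial.C (pol Q u v) * Polynomial.X + Polynomial.C (eval u Q)).degree = 2 :=
          Polynomial.degree_quadratic hv0
        obtain ⟨t, ht⟩ := IsAlgClosed.exists_root _ (by rw [hdeg]; decide)
        refine ⟨t, ?_⟩
        simp only [Polynomial.IsRoot.def, Polynomial.eval_add, Polynomial.eval_mul,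
          Polynomial.eval_C, Polynomial.eval_pow, Polynomial.eval_X] at ht
        rw [← ht]
        ring
      refine ⟨u + t • v, v, Submodule.add_mem _ hu (Submodule.smul_mem _ _ hv), hv, ?_, ?_⟩
      · rw [eval_add_eq hQ, eval_smul_eq hQ, quad2_smul_right, ← ht]
        ring
      · rw [quad2_add_left hQ, quad2_smul_left hQ, pol_self hQ, mul_zero, add_zero]
        exact huv
  refine ⟨w, (pol Q w z)⁻¹ • (z + (- eval z Q / pol Q w z) • w), hw,
    Submodule.smul_mem _ _ (Submodule.add_mem _ hz (Submodule.smul_mem _ _ hw)), hw0, ?_, ?_⟩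
  · rw [eval_smul_eq hQ, eval_add_eq hQ, eval_smul_eq hQ, quad2_smul_right, hw0, pol_comm hQ z w]
    field_simp
    ring
  · rw [quad2_smul_right, quad2_add_right, quad2_smul_right, pol_self hQ, mul_zero, add_zero,
      inv_mul_cancel₀ hwz]

/-- From an adapted basis to a substitution (compare values at all points, `k` infinite). -/
theorem eq_act_of_basis [Infinite k] {Q Q₀ : MvPolynomial (Fin 4) k} {e : Fin 4 → Fin 4 → k}
    (he : LinearIndependent k e)
    (h : ∀ y : Fin 4 → k, eval (∑ i, y i • e i) Q = eval y Q₀) :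
    ∃ g : Matrix (Fin 4) (Fin 4) k, IsUnit g.det ∧ Q = act g Q₀ := by
  have hE : IsUnit (Matrix.of e) := by
    rw [← Matrix.linearIndependent_rows_iff_isUnit]
    exact he
  have hEt : IsUnit (Matrix.of e).transpose := by
    rw [Matrix.isUnit_transpose]
    exact hE
  have hdet : IsUnit (Matrix.of e).transpose.det := (Matrix.isUnit_iff_isUnit_det _).1 hEt
  refine ⟨(Matrix.of e).transpose⁻¹, ?_, ?_⟩
  · rw [Matrix.isUnit_nonsing_inv_det_iff]
    exact hdet
  · apply MvPolynomial.funext
    intro x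
    rw [eval_act, ← h]
    have h1 : ∀ y : Fin 4 → k, ∑ i, y i • e i = (Matrix.of e).transpose.mulVec y := by
      intro y
      ext j
      simp only [Finset.sum_apply, Pi.smul_apply, smul_eq_mul, Matrix.mulVec, dotProduct,
        Matrix.transpose_apply, Matrix.of_apply]
      exact Finset.sum_congr rfl fun i _ => mul_comm _ _
    rw [h1, Matrix.mulVec_mulVec, Matrix.mul_nonsing_inv _ hdet, Matrix.one_mulVec]

private theorem quad2_expand {Q : MvPolynomial (Fin 4) k} (hQ : Q.IsHomogeneous 2)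
    (e : Fin 4 → Fin 4 → k) (y : Fin 4 → k) :
    eval (∑ i, y i • e i) Q =
      y 0 ^ 2 * eval (e 0) Q + y 1 ^ 2 * eval (e 1) Q + y 2 ^ 2 * eval (e 2) Q +
        y 3 ^ 2 * eval (e 3) Q + y 0 * y 1 * pol Q (e 0) (e 1) + y 0 * y 2 * pol Q (e 0) (e 2) +
        y 0 * y 3 * pol Q (e 0) (e 3) + y 1 * y 2 * pol Q (e 1) (e 2) +
        y 1 * y 3 * pol Q (e 1) (e 3) + y 2 * y 3 * pol Q (e 2) (e 3) := by
  rw [Fin.sum_univ_four, eval_add_eq hQ, eval_add_eq hQ, eval_add_eq hQ]
  simp only [eval_smul_eq hQ, quad2_smul_right, quad2_add_left hQ, quad2_smul_left hQ]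
  ring

private theorem quad2_pol_sum {Q : MvPolynomial (Fin 4) k}
    (e : Fin 4 → Fin 4 → k) (y x : Fin 4 → k) :
    pol Q x (∑ i, y i • e i) = y 0 * pol Q x (e 0) + y 1 * pol Q x (e 1) +
      y 2 * pol Q x (e 2) + y 3 * pol Q x (e 3) := by
  rw [Fin.sum_univ_four]
  simp only [quad2_smul_right, quad2_add_right]

private theorem quad2_pair_of_ker {V : Type*} [AddCommGroup V] [Module k V]
    [FiniteDimensional k V] (φ : (Fin 4 → k) →ₗ[k] V) (hV : Module.finrank k V ≤ 2) :
    ∃ u v : Fin 4 → k, φ u = 0 ∧ φ v = 0 ∧ LinearIndependent k ![u, v] := by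
  have h1 := LinearMap.finrank_range_add_finrank_ker φ
  rw [Module.finrank_fin_fun] at h1
  have h2 : Module.finrank k (LinearMap.range φ) ≤ 2 :=
    (Submodule.finrank_le _).trans hV
  have h3 : 1 < Module.finrank k (LinearMap.ker φ) := by omega
  have : Nontrivial (LinearMap.ker φ) := Module.nontrivial_of_finrank_pos (R := k) (by omega)
  obtain ⟨x, hx⟩ := exists_ne (0 : LinearMap.ker φ)
  obtain ⟨y, hy⟩ := exists_linearIndependent_pair_of_one_lt_finrank h3 hx
  refine ⟨x, y, x.2, y.2, ?_⟩
  have h4 := hy.map' (LinearMap.ker φ).subtype (Submodule.ker_subtype _)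
  have h5 : (LinearMap.ker φ).subtype ∘ ![x, y] = ![(x : Fin 4 → k), (y : Fin 4 → k)] := by
    funext i
    fin_cases i <;> rfl
  rw [h5] at h4
  exact h4

private theorem quad2_exists_pol [IsAlgClosed k] [CharP k 2] {Q F : MvPolynomial (Fin 4) k}
    (hQ : Q.IsHomogeneous 2) (hF : F.IsHomogeneous 3) (hs : SmoothPair Q F) :
    ∃ u v, pol Q u v ≠ 0 := by
  by_contra hcon
  push Not at hcon
  have hr : ∀ i : Fin 4, ∃ r : k, r ^ 2 = eval (Pi.single i 1) Q := fun i =>
    IsAlgClosed.exists_pow_nat_eq _ (by norm_num)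
  choose r hr using hr
  let φ : (Fin 4 → k) →ₗ[k] k := ∑ i, r i • LinearMap.proj i
  have hφ : ∀ x, φ x = ∑ i, r i * x i := by
    intro x
    simp [φ, LinearMap.sum_apply]
  have hQφ : ∀ x, eval x Q = φ x ^ 2 := by
    intro x
    have h1 : x = ∑ i, x i • (Pi.single i 1 : Fin 4 → k) := by
      ext j
      simp [Finset.sum_apply, Pi.single_apply]
    have h2 := quad2_expand hQ (fun i => (Pi.single i 1 : Fin 4 → k)) x
    rw [← h1] at h2
    rw [h2, hφ, Fin.sum_univ_four]
    simp only [hcon, ← hr]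
    have h3 : (2 : k) = 0 := CharTwo.two_eq_zero
    linear_combination (-(r 0 * x 0 * (r 1 * x 1)) - (r 0 * x 0 * (r 2 * x 2)) -
      (r 0 * x 0 * (r 3 * x 3)) - (r 1 * x 1 * (r 2 * x 2)) - (r 1 * x 1 * (r 3 * x 3)) -
      (r 2 * x 2 * (r 3 * x 3))) * h3
  obtain ⟨u, v, hu, hv, huv⟩ := quad2_pair_of_ker φ (by rw [Module.finrank_self]; norm_num)
  exact no_singular_plane hQ hF hs huv (hcon u) (hcon v) (by rw [hQφ, hu]; ring)
    (by rw [hQφ, hv]; ring)

/-- The quadric of a smooth curve is, up to a linear substitution, `x₀x₁ + x₂x₃` or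
`x₀x₁ + x₂²`. Proof: the polar form is nonzero by `no_singular_plane` (otherwise `Q` is the square
of a linear form). Take a hyperbolic pair `e₀, e₁` and the orthogonal plane `W`. If the polar form
is nonzero on `W`, take a hyperbolic pair in `W`. Otherwise `Q` is additive on `W` and there is
`e₃ ≠ 0` in `W` with `Q e₃ = 0`; by `no_singular_plane` there is `e₂ ∈ W` with `Q e₂ = 1`. -/
theorem std_or_cone [IsAlgClosed k] [CharP k 2] {Q F : MvPolynomial (Fin 4) k}
    (hQ : Q.IsHomogeneous 2) (hF : F.IsHomogeneous 3) (hs : SmoothPair Q F) :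
    (∃ g : Matrix (Fin 4) (Fin 4) k, IsUnit g.det ∧ Q = act g (Qstd k)) ∨
      ∃ g : Matrix (Fin 4) (Fin 4) k, IsUnit g.det ∧ Q = act g (Qs 0) := by
  have : Infinite k := IsAlgClosed.instInfinite
  obtain ⟨u, v, huv⟩ := quad2_exists_pol hQ hF hs
  obtain ⟨e₀, e₁, -, -, h0, h1, h01⟩ := exists_hyperbolic hQ huv
  have h10 : pol Q e₁ e₀ = 1 := by rw [pol_comm hQ, h01]
  -- the orthogonal plane
  let ψ : (Fin 4 → k) →ₗ[k] (k × k) :=
    { toFun := fun w => (pol Q e₀ w, pol Q e₁ w)
      map_add' := fun a b => by simp only [quad2_add_right, Prod.mk_add_mk]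
      map_smul' := fun c a => by
        simp only [quad2_smul_right, RingHom.id_apply, Prod.smul_mk, smul_eq_mul] }
  have hψ : ∀ w, ψ w = 0 ↔ pol Q e₀ w = 0 ∧ pol Q e₁ w = 0 := by
    intro w
    exact Prod.mk_eq_zero
  by_cases hW : ∃ w₁ w₂, ψ w₁ = 0 ∧ ψ w₂ = 0 ∧ pol Q w₁ w₂ ≠ 0
  · left
    obtain ⟨w₁, w₂, hw₁, hw₂, hw⟩ := hW
    obtain ⟨e₂, e₃, m2, m3, h2, h3, h23⟩ := exists_hyperbolic hQ hw
    have hsp : Submodule.span k {w₁, w₂} ≤ LinearMap.ker ψ := by
      rw [Submodule.span_le]
      intro x hx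
      rcases hx with rfl | hx
      · exact hw₁
      · rw [Set.mem_singleton_iff] at hx
        rw [hx]
        exact hw₂
    obtain ⟨h02, h12⟩ := (hψ e₂).1 (hsp m2)
    obtain ⟨h03, h13⟩ := (hψ e₃).1 (hsp m3)
    have h32 : pol Q e₃ e₂ = 1 := by rw [pol_comm hQ, h23]
    have h20 : pol Q e₂ e₀ = 0 := by rw [pol_comm hQ, h02]
    have h21 : pol Q e₂ e₁ = 0 := by rw [pol_comm hQ, h12]
    have h30 : pol Q e₃ e₀ = 0 := by rw [pol_comm hQ, h03]
    have h31 : pol Q e₃ e₁ = 0 := by rw [pol_comm hQ, h13]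
    apply eq_act_of_basis (e := ![e₀, e₁, e₂, e₃])
    · rw [Fintype.linearIndependent_iff]
      intro y hy
      have hz : ∀ x, pol Q x 0 = 0 := by
        intro x
        have := quad2_smul_right Q x 0 0
        rw [zero_smul, zero_mul] at this
        exact this
      have a0 := quad2_pol_sum (Q := Q) ![e₀, e₁, e₂, e₃] y e₀
      have a1 := quad2_pol_sum (Q := Q) ![e₀, e₁, e₂, e₃] y e₁
      have a2 := quad2_pol_sum (Q := Q) ![e₀, e₁, e₂, e₃] y e₂
      have a3 := quad2_pol_sum (Q := Q) ![e₀, e₁, e₂, e₃] y e₃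
      rw [hy, hz] at a0 a1 a2 a3
      simp [h01, h10, h02, h12, h03, h13, h23, h32, h20, h21, h30, h31, pol_self hQ] at a0 a1 a2 a3
      intro i
      fin_cases i
      · exact a1.symm
      · exact a0.symm
      · exact a3.symm
      · exact a2.symm
    · intro y
      rw [quad2_expand hQ]
      simp [h0, h1, h2, h3, h01, h02, h03, h12, h13, h23, Qstd]
  · right
    push Not at hW
    obtain ⟨w₁, w₂, hw₁, hw₂, hw⟩ := quad2_pair_of_ker ψ (by simp)
    -- elements of `W` are in the radical
    have hrad : ∀ w, ψ w = 0 → ∀ y, pol Q w y = 0 := by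
      intro w hw y
      obtain ⟨b0, b1⟩ := (hψ w).1 hw
      have hy : ψ (y + ((-pol Q e₁ y) • e₀ + (-pol Q e₀ y) • e₁)) = 0 := by
        rw [hψ]
        simp only [quad2_add_right, quad2_smul_right, pol_self hQ, h01, h10]
        constructor <;> ring
      have h := hW w _ hw hy
      simp only [quad2_add_right, quad2_smul_right] at h
      rw [pol_comm hQ w e₀, pol_comm hQ w e₁, b0, b1] at h
      simpa using h
    have hli : ∀ a b : k, a • w₁ + b • w₂ = 0 → a = 0 ∧ b = 0 := LinearIndependent.pair_iff.mp hw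
    -- an isotropic vector
    obtain ⟨e₃, m3, hne, h3⟩ : ∃ e₃, ψ e₃ = 0 ∧ e₃ ≠ 0 ∧ eval e₃ Q = 0 := by
      by_cases hq : eval w₁ Q = 0
      · refine ⟨w₁, hw₁, ?_, hq⟩
        intro h
        exact one_ne_zero (hli 1 0 (by rw [h]; simp)).1
      · obtain ⟨t, ht⟩ : ∃ t : k, t ^ 2 = eval w₂ Q / eval w₁ Q :=
          IsAlgClosed.exists_pow_nat_eq _ (by norm_num)
        refine ⟨t • w₁ + (1 : k) • w₂, ?_, ?_, ?_⟩
        · rw [map_add, map_smul, map_smul, hw₁, hw₂, smul_zero, smul_zero, add_zero]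
        · intro h
          exact one_ne_zero (hli _ _ h).2
        · rw [eval_add_eq hQ, eval_smul_eq hQ, one_smul, quad2_smul_left hQ,
            hrad w₁ hw₁, ht, div_mul_cancel₀ _ hq, mul_zero, add_zero]
          exact CharTwo.add_self_eq_zero _
    -- an anisotropic vector
    obtain ⟨w, m2, hw0⟩ : ∃ w, ψ w = 0 ∧ eval w Q ≠ 0 := by
      by_contra hcon
      push Not at hcon
      exact no_singular_plane hQ hF hs hw (hrad _ hw₁) (hrad _ hw₂) (hcon _ hw₁) (hcon _ hw₂)
    obtain ⟨c, hc⟩ : ∃ c : k, c ^ 2 = (eval w Q)⁻¹ :=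
      IsAlgClosed.exists_pow_nat_eq _ (by norm_num)
    have h2 : eval (c • w) Q = 1 := by
      rw [eval_smul_eq hQ, hc, inv_mul_cancel₀ hw0]
    have m2' : ψ (c • w) = 0 := by rw [map_smul, m2, smul_zero]
    generalize c • w = e₂ at h2 m2'
    obtain ⟨h02, h12⟩ := (hψ e₂).1 m2'
    obtain ⟨h03, h13⟩ := (hψ e₃).1 m3
    have h23 : pol Q e₂ e₃ = 0 := hrad _ m2' _
    apply eq_act_of_basis (e := ![e₀, e₁, e₂, e₃])
    · rw [Fintype.linearIndependent_iff]
      intro y hy
      have hz : ∀ x, pol Q x 0 = 0 := by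
        intro x
        have := quad2_smul_right Q x 0 0
        rw [zero_smul, zero_mul] at this
        exact this
      have a0 := quad2_pol_sum (Q := Q) ![e₀, e₁, e₂, e₃] y e₀
      have a1 := quad2_pol_sum (Q := Q) ![e₀, e₁, e₂, e₃] y e₁
      have a2 := quad2_expand hQ ![e₀, e₁, e₂, e₃] y
      rw [hy, hz] at a0 a1
      rw [hy] at a2
      have hz0 : eval (0 : Fin 4 → k) Q = 0 := by
        have := eval_smul_eq hQ 0 (0 : Fin 4 → k)
        rw [zero_smul] at this
        rw [this]
        ring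
      rw [hz0] at a2
      simp [h01, h10, h02, h12, h03, h13, pol_self hQ] at a0 a1
      replace a0 := a0.symm
      replace a1 := a1.symm
      simp [h0, h1, h2, h3, h01, h02, h03, h12, h13, h23, a0] at a2
      replace a2 : y 2 = 0 := pow_eq_zero_iff (two_ne_zero) |>.1 a2.symm
      rw [Fin.sum_univ_four] at hy
      simp [a0, a1, a2] at hy
      have a3 : y 3 = 0 := hy.resolve_right hne
      intro i
      fin_cases i
      · exact a1
      · exact a0
      · exact a2
      · exact a3
    · intro y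
      rw [quad2_expand hQ]
      simp [h0, h1, h2, h3, h01, h02, h03, h12, h13, h23, Qs]
      ring

/-- The quadrics `Qs s` with `s ≠ 0` are equivalent to the split quadric. -/
theorem Qs_eq_act {s : k} (hs : s ≠ 0) :
    ∃ g : Matrix (Fin 4) (Fin 4) k, IsUnit g.det ∧ Qs s = act g (Qstd k) := by
  refine ⟨!![1, 0, 0, 0; 0, 1, 0, 0; 0, 0, 1, 0; 0, 0, 1, s], ?_, ?_⟩
  · have h1 : (!![1, 0, 0, 0; 0, 1, 0, 0; 0, 0, 1, 0; 0, 0, 1, s] :
        Matrix (Fin 4) (Fin 4) k).det = s := by
      simp [Matrix.det_succ_row_zero, Fin.sum_univ_succ, Fin.succAbove]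
    rw [h1]
    exact IsUnit.mk0 s hs
  · unfold Qs Qstd
    simp only [map_add, map_mul, act_X, lin, Fin.sum_univ_four]
    simp
    ring

end Pool.Agent.Lib.MP_60c747_ag
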