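import Pool.Agent.Lib.MP_60c747_ag.Poly
import Pool.Agent.Lib.MP_60c747_ag.Law

set_option autoImplicit false

/-!
Smoothness is an open condition.
-/

namespace Pool.Agent.Lib.MP_60c747_ag

open MvPolynomial

variable {k : Type*} [Field k]

/-- The generators of the Jacobian ideal: the quadric, the cubic and the minors of their
gradients. -/
noncomputable def gens {R : Type*} [CommRing R] (Q F : MvPolynomial (Fin 4) R) :
    Option (Option (Fin 4 × Fin 4)) → MvPolynomial (Fin 4) R :=
  fun o => Option.elim o Q (fun o => Option.elim o F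
    (fun p => pderiv p.1 Q * pderiv p.2 F - pderiv p.2 Q * pderiv p.1 F))

/-- A pair is smooth iff the generators have no nonzero common zero. -/
theorem smoothPair_iff (Q F : MvPolynomial (Fin 4) k) :
    SmoothPair Q F ↔ ∀ x : Fin 4 → k, (∀ o, eval x (gens Q F o) = 0) → x = 0 := by
  constructor
  · intro h x hx
    by_contra hx0
    have hQ : eval x Q = 0 := hx none
    have hF : eval x F = 0 := hx (some none)
    have hm : ∀ i j, eval x (pderiv i Q) * eval x (pderiv j F) -
        eval x (pderiv j Q) * eval x (pderiv i F) = 0 := by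
      intro i j
      have := hx (some (some (i, j)))
      simpa [gens] using this
    by_cases ha : ∀ i, eval x (pderiv i Q) = 0
    · have := h x hx0 hQ hF 1 0 (fun i => by rw [ha i]; ring)
      exact one_ne_zero this.1
    · push Not at ha
      obtain ⟨i₀, hi₀⟩ := ha
      have := h x hx0 hQ hF (eval x (pderiv i₀ F)) (-eval x (pderiv i₀ Q)) (fun j => by
        linear_combination - hm i₀ j)
      exact hi₀ (neg_eq_zero.1 this.2)
  · intro h x hx0 hQ hF s t hst
    by_contra hcon
    apply hx0
    apply h
    intro o
    match o with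
    | none => exact hQ
    | some none => exact hF
    | some (some (i, j)) =>
      have e : eval x (gens Q F (some (some (i, j)))) =
          eval x (pderiv i Q) * eval x (pderiv j F) -
            eval x (pderiv j Q) * eval x (pderiv i F) := by
        simp [gens]
      rw [e]
      have hi := hst i
      have hj := hst j
      have h1 : s * (eval x (pderiv i Q) * eval x (pderiv j F) -
            eval x (pderiv j Q) * eval x (pderiv i F)) = 0 := by
        linear_combination eval x (pderiv j F) * hi - eval x (pderiv i F) * hj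
      have h2 : t * (eval x (pderiv i Q) * eval x (pderiv j F) -
            eval x (pderiv j Q) * eval x (pderiv i F)) = 0 := by
        linear_combination eval x (pderiv i Q) * hj - eval x (pderiv j Q) * hi
      rcases mul_eq_zero.1 h1 with h3 | h3
      · rcases mul_eq_zero.1 h2 with h4 | h4
        · exact absurd ⟨h3, h4⟩ hcon
        · exact h4
      · exact h3

private theorem smooth_comp_mul {g h : MvPolynomial (Fin 4) k} {e : ℕ} (hg : g.IsHomogeneous e)
    (d : ℕ) : homogeneousComponent (d + e) (h * g) = homogeneousComponent d h * g := by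
  conv_lhs => rw [← sum_homogeneousComponent h, Finset.sum_mul, map_sum]
  have h1 : ∀ i ∈ Finset.range (h.totalDegree + 1),
      homogeneousComponent (d + e) (homogeneousComponent i h * g) =
        if i = d then homogeneousComponent d h * g else 0 := by
    intro i _
    rw [homogeneousComponent_of_mem ((homogeneousComponent_isHomogeneous i h).mul hg)]
    by_cases h2 : i = d
    · subst h2
      rw [if_pos rfl, if_pos rfl]
    · rw [if_neg (by omega), if_neg h2]
  rw [Finset.sum_congr rfl h1, Finset.sum_ite_eq']
  split_ifs with h3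
  · rfl
  · rw [Finset.mem_range, not_lt] at h3
    rw [homogeneousComponent_eq_zero d h (by omega), zero_mul]

/-- degrees of the generators -/
private def smooth_deg : Option (Option (Fin 4 × Fin 4)) → ℕ
  | none => 2
  | some _ => 3

private theorem smooth_deg_le (o : Option (Option (Fin 4 × Fin 4))) : smooth_deg o ≤ 3 := by
  cases o <;> simp [smooth_deg]

private theorem gens_isHomogeneous {Q F : MvPolynomial (Fin 4) k}
    (hQ : Q.IsHomogeneous 2) (hF : F.IsHomogeneous 3) (o : Option (Option (Fin 4 × Fin 4))) :
    (gens Q F o).IsHomogeneous (smooth_deg o) := by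
  match o with
  | none => exact hQ
  | some none => exact hF
  | some (some p) =>
    show (pderiv p.1 Q * pderiv p.2 F - pderiv p.2 Q * pderiv p.1 F).IsHomogeneous 3
    exact (hQ.pderiv.mul hF.pderiv).sub (hQ.pderiv.mul hF.pderiv)

private theorem smooth_ex_sum {D : ℕ} (m : Mon D) : ∑ i, ex m i = D := m.2

/-- Nullstellensatz: for a smooth pair all monomials of some large degree `D` are in the ideal
generated by `gens`, with multipliers such that the products are homogeneous of degree `D`. -/
theorem exists_multipliers [IsAlgClosed k] {Q F : MvPolynomial (Fin 4) k}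
    (hQ : Q.IsHomogeneous 2) (hF : F.IsHomogeneous 3) (h : SmoothPair Q F) :
    ∃ (D : ℕ) (w : Mon D → Option (Option (Fin 4 × Fin 4)) → MvPolynomial (Fin 4) k),
      0 < D ∧ (∀ m, monomial (ex m) 1 = ∑ o, w m o * gens Q F o) ∧
      ∀ m, (w m none).IsHomogeneous (D - 2) ∧ (w m (some none)).IsHomogeneous (D - 3) ∧
        (∀ p, (w m (some (some p))).IsHomogeneous (D - 3)) ∧ 3 ≤ D := by
  classical
  set J : Ideal (MvPolynomial (Fin 4) k) := Ideal.span (Set.range (gens Q F)) with hJ
  have h1 : ∀ i : Fin 4, ∃ n : ℕ, (X i : MvPolynomial (Fin 4) k) ^ n ∈ J := by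
    intro i
    rw [← Ideal.mem_radical_iff, ← vanishingIdeal_zeroLocus_eq_radical (K := k) J,
      mem_vanishingIdeal_iff]
    intro x hx
    have hx0 : x = 0 := by
      apply (smoothPair_iff Q F).1 h
      intro o
      exact hx _ (Ideal.subset_span ⟨o, rfl⟩)
    rw [aeval_X, hx0, Pi.zero_apply]
  choose n hn using h1
  set N := ∑ i, n i with hN
  have hmem : ∀ m : Mon (4 * N + 3), (monomial (ex m) 1 : MvPolynomial (Fin 4) k) ∈ J := by
    intro m
    have h3 : ∃ i, n i ≤ ex m i := by
      by_contra hcon
      push Not at hcon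
      have h4 : ∑ i, ex m i ≤ ∑ _i : Fin 4, N :=
        Finset.sum_le_sum fun i _ => (hcon i).le.trans
          (Finset.single_le_sum (fun j _ => Nat.zero_le (n j)) (Finset.mem_univ i))
      rw [smooth_ex_sum, Finset.sum_const, Finset.card_univ, Fintype.card_fin, smul_eq_mul] at h4
      omega
    obtain ⟨i, hi⟩ := h3
    have h5 : (monomial (ex m) 1 : MvPolynomial (Fin 4) k) =
        monomial (ex m - Finsupp.single i (n i)) 1 * (X i : MvPolynomial (Fin 4) k) ^ n i := by
      rw [X_pow_eq_monomial, monomial_mul, mul_one,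
        tsub_add_cancel_of_le (Finsupp.single_le_iff.2 hi)]
    rw [h5]
    exact J.mul_mem_left _ (hn i)
  have hex : ∀ m : Mon (4 * N + 3), ∃ c : Option (Option (Fin 4 × Fin 4)) →
      MvPolynomial (Fin 4) k, ∑ o, c o * gens Q F o = monomial (ex m) 1 := by
    intro m
    exact (Ideal.mem_span_range_iff_exists_fun).1 (hmem m)
  choose c hc using hex
  have hdeg : ∀ m : Mon (4 * N + 3),
      (monomial (ex m) 1 : MvPolynomial (Fin 4) k).IsHomogeneous (4 * N + 3) := by
    intro m
    apply isHomogeneous_monomial
    rw [Finsupp.degree_eq_sum]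
    exact smooth_ex_sum m
  refine ⟨4 * N + 3, fun m o => homogeneousComponent (4 * N + 3 - smooth_deg o) (c m o),
    by omega, ?_, ?_⟩
  · intro m
    have e1 : homogeneousComponent (4 * N + 3) (monomial (ex m) 1 : MvPolynomial (Fin 4) k) =
        monomial (ex m) 1 := by
      rw [homogeneousComponent_of_mem (hdeg m), if_pos rfl]
    rw [← e1, ← hc m, map_sum]
    refine Finset.sum_congr rfl fun o _ => ?_
    have e2 := smooth_comp_mul (gens_isHomogeneous hQ hF o) (h := c m o)
      (4 * N + 3 - smooth_deg o)
    rw [Nat.sub_add_cancel ((smooth_deg_le o).trans (by omega))] at e2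
    exact e2
  · intro m
    exact ⟨homogeneousComponent_isHomogeneous _ _, homogeneousComponent_isHomogeneous _ _,
      fun p => homogeneousComponent_isHomogeneous _ _, by omega⟩

/-- Conversely if the matrix of coefficients of the combinations with fixed multipliers is
invertible then the pair is smooth. -/
theorem smooth_of_det {Q F : MvPolynomial (Fin 4) k}
    (hQ : Q.IsHomogeneous 2) (hF : F.IsHomogeneous 3) {D : ℕ}
    {w : Mon D → Option (Option (Fin 4 × Fin 4)) → MvPolynomial (Fin 4) k}
    (hD : 3 ≤ D) (hw : ∀ m, (w m none).IsHomogeneous (D - 2) ∧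
      (w m (some none)).IsHomogeneous (D - 3) ∧
        ∀ p, (w m (some (some p))).IsHomogeneous (D - 3))
    (hdet : (Matrix.of fun m m' : Mon D =>
      coeff (ex m') (∑ o, w m o * gens Q F o)).det ≠ 0) : SmoothPair Q F := by
  rw [smoothPair_iff]
  intro x hx
  have hp : ∀ m, (∑ o, w m o * gens Q F o).IsHomogeneous D := by
    intro m
    apply IsHomogeneous.sum
    intro o _
    match o with
    | none =>
      have := (hw m).1.mul (gens_isHomogeneous hQ hF none)
      rwa [show D - 2 + smooth_deg none = D by simp only [smooth_deg]; omega] at this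
    | some none =>
      have := (hw m).2.1.mul (gens_isHomogeneous hQ hF (some none))
      rwa [show D - 3 + smooth_deg (some none) = D by simp only [smooth_deg]; omega] at this
    | some (some p) =>
      have := ((hw m).2.2 p).mul (gens_isHomogeneous hQ hF (some (some p)))
      rwa [show D - 3 + smooth_deg (some (some p)) = D by simp only [smooth_deg]; omega] at this
  have hv : (fun m : Mon D => eval x (monomial (ex m) (1 : k))) = 0 := by
    apply Matrix.eq_zero_of_mulVec_eq_zero hdet
    funext m
    have e1 : eval x (∑ o, w m o * gens Q F o) = 0 := by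
      rw [map_sum]
      refine Finset.sum_eq_zero fun o _ => ?_
      rw [map_mul, hx o, mul_zero]
    rw [← form_coeff (hp m), form, map_sum] at e1
    rw [Matrix.mulVec, dotProduct, Pi.zero_apply, ← e1]
    refine Finset.sum_congr rfl fun m' _ => ?_
    rw [Matrix.of_apply, eval_monomial, eval_monomial, one_mul]
  funext i
  let m : Mon D := ⟨fun j => if j = i then Fin.last D else 0, by
    rw [Finset.sum_eq_single i]
    · simp
    · intro j _ hj
      simp [hj]
    · intro hi
      exact absurd (Finset.mem_univ i) hi⟩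
  have hm : eval x (monomial (ex m) (1 : k)) = 0 := congrFun hv m
  have hexm : ex m = Finsupp.single i D := by
    ext j
    show (((if j = i then Fin.last D else 0 : Fin (D + 1))) : ℕ) = _
    rw [Finsupp.single_apply]
    by_cases hj : j = i
    · simp [hj]
    · simp [hj, Ne.symm hj]
  rw [hexm, ← X_pow_eq_monomial, map_pow, eval_X] at hm
  exact eq_zero_of_pow_eq_zero hm

private theorem PFm_pderiv {τ : Type*} {φ : (τ → k) → MvPolynomial (Fin 4) k} (h : PFm φ)
    (i : Fin 4) : PFm (fun y => pderiv i (φ y)) := by
  obtain ⟨P, hP⟩ := h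
  refine ⟨pderiv i P, fun y => ?_⟩
  show pderiv i (φ y) = _
  rw [hP, pderiv_map]

private theorem PFm_sub {τ : Type*} {φ ψ : (τ → k) → MvPolynomial (Fin 4) k} (h : PFm φ)
    (h' : PFm ψ) : PFm (fun y => φ y - ψ y) := by
  obtain ⟨P, hP⟩ := h
  obtain ⟨P', hP'⟩ := h'
  refine ⟨P - P', fun y => ?_⟩
  show φ y - ψ y = _
  rw [hP, hP', map_sub]

/-- Smoothness is an open condition on the coefficients. -/
theorem smooth_open [IsAlgClosed k] {c₀ : Mon 2 ⊕ Mon 3 → k}
    (h : SmoothPair (quadric c₀) (cubic c₀)) :
    ∃ P : MvPolynomial (Mon 2 ⊕ Mon 3) k, eval c₀ P ≠ 0 ∧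
      ∀ c, eval c P ≠ 0 → SmoothPair (quadric c) (cubic c) := by
  have hQh : ∀ c : Mon 2 ⊕ Mon 3 → k, (quadric c).IsHomogeneous 2 :=
    fun c => form_isHomogeneous _
  have hFh : ∀ c : Mon 2 ⊕ Mon 3 → k, (cubic c).IsHomogeneous 3 :=
    fun c => form_isHomogeneous _
  obtain ⟨D, w, -, hw1, hw2⟩ := exists_multipliers (hQh c₀) (hFh c₀) h
  have hQ : PFm (fun c : Mon 2 ⊕ Mon 3 → k => quadric c) := PFm.form fun m => PF.coord _
  have hF : PFm (fun c : Mon 2 ⊕ Mon 3 → k => cubic c) := PFm.form fun m => PF.coord _
  have hg : ∀ o, PFm (fun c : Mon 2 ⊕ Mon 3 → k => gens (quadric c) (cubic c) o) := by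
    intro o
    match o with
    | none => exact hQ
    | some none => exact hF
    | some (some p) =>
      exact PFm_sub ((PFm_pderiv hQ p.1).mul (PFm_pderiv hF p.2))
        ((PFm_pderiv hQ p.2).mul (PFm_pderiv hF p.1))
  obtain ⟨P, hP⟩ := PF.det (τ := Mon 2 ⊕ Mon 3) (k := k) (n := Mon D)
    (M := fun c => Matrix.of fun m m' : Mon D =>
      coeff (ex m') (∑ o, w m o * gens (quadric c) (cubic c) o)) (by
    intro m m'
    have h1 : PFm (fun c : Mon 2 ⊕ Mon 3 → k => ∑ o, w m o * gens (quadric c) (cubic c) o) :=
      PFm.sum _ fun o _ => PFm.mul (PFm.const (w m o)) (hg o)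
    exact PFm.coeff h1 (ex m'))
  have hP' : ∀ c : Mon 2 ⊕ Mon 3 → k, (Matrix.of fun m m' : Mon D =>
      coeff (ex m') (∑ o, w m o * gens (quadric c) (cubic c) o)).det = eval c P := hP
  refine ⟨P, ?_, ?_⟩
  · rw [← hP' c₀]
    have e1 : (Matrix.of fun m m' : Mon D =>
        coeff (ex m') (∑ o, w m o * gens (quadric c₀) (cubic c₀) o)) = 1 := by
      ext m m'
      rw [Matrix.of_apply, ← hw1 m, coeff_monomial, Matrix.one_apply]
      have e2 : (ex m = ex m') ↔ (m = m') := by
        constructor
        · intro h
          apply Subtype.ext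
          funext i
          apply Fin.ext
          exact DFunLike.congr_fun h i
        · rintro rfl
          rfl
      simp only [e2]
    rw [e1, Matrix.det_one]
    exact one_ne_zero
  · intro c hc
    rw [← hP' c] at hc
    rcases isEmpty_or_nonempty (Mon D) with hemp | ⟨⟨m⟩⟩
    · exfalso
      exact hemp.elim ⟨fun j => if j = 0 then Fin.last D else 0, by
        rw [Finset.sum_eq_single 0]
        · simp
        · intro j _ hj
          simp [hj]
        · intro hi
          exact absurd (Finset.mem_univ _) hi⟩
    · exact smooth_of_det (hQh c) (hFh c) (hw2 m).2.2.2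
        (fun m => ⟨(hw2 m).1, (hw2 m).2.1, (hw2 m).2.2.1⟩) hc

end Pool.Agent.Lib.MP_60c747_ag
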