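import Pool.Agent.Lib.MP_60c747_ag.Down
import Pool.Agent.Lib.MP_60c747_ag.Quad
import Pool.Agent.Lib.MP_60c747_ag.Explicit
import Pool.Agent.Lib.MP_60c747_ag.Smooth
import Pool.Agent.Lib.MP_60c747_ag.Examples

set_option autoImplicit false

/-!
Assembly.
-/

namespace Pool.Agent.Lib.MP_60c747_ag

open MvPolynomial

variable {k : Type*} [Field k]

/-- The coefficient vector of a pair of forms. -/
noncomputable def par (Q F : MvPolynomial (Fin 4) k) : Mon 2 ⊕ Mon 3 → k :=
  Sum.elim (fun m => coeff (ex m) Q) (fun m => coeff (ex m) F)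

theorem quadric_par {Q F : MvPolynomial (Fin 4) k} (hQ : Q.IsHomogeneous 2) :
    quadric (par Q F) = Q :=
  form_coeff hQ

theorem cubic_par {Q F : MvPolynomial (Fin 4) k} (hF : F.IsHomogeneous 3) :
    cubic (par Q F) = F :=
  form_coeff hF

theorem par_quadric_cubic (c : Mon 2 ⊕ Mon 3 → k) : par (quadric c) (cubic c) = c := by
  funext m
  cases m with
  | inl m => exact coeff_form _ m
  | inr m => exact coeff_form _ m

theorem quadric_isHomogeneous (c : Mon 2 ⊕ Mon 3 → k) : (quadric c).IsHomogeneous 2 :=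
  form_isHomogeneous _

theorem cubic_isHomogeneous (c : Mon 2 ⊕ Mon 3 → k) : (cubic c).IsHomogeneous 3 :=
  form_isHomogeneous _

/-- Pairs of small `p`-rank whose quadric is smooth. -/
def W (k : Type*) [Field k] (f : ℕ) : Set (Mon 2 ⊕ Mon 3 → k) :=
  {c | (∃ g : Matrix (Fin 4) (Fin 4) k, IsUnit g.det ∧ quadric c = act g (Qstd k)) ∧
    prank (quadric c) (cubic c) ≤ f}

theorem PF_HW (i j : Fin 4) :
    PF (fun c : Mon 2 ⊕ Mon 3 → k => HW (quadric c * cubic c) i j) := by
  apply PFm.coeff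
  exact PFm.mul (PFm.form fun m => PF.coord _) (PFm.form fun m => PF.coord _)

theorem PF_it (i j : Fin 4) :
    PF (fun c : Mon 2 ⊕ Mon 3 → k => it (HW (quadric c * cubic c)) 4 i j) :=
  PF.it (M := fun c : Mon 2 ⊕ Mon 3 → k => HW (quadric c * cubic c)) PF_HW 4 i j

section polyfun

variable {τ : Type*}

theorem PFm_lin {l : (τ → k) → Fin 4 → k} (h : ∀ j, PF fun y => l y j) :
    PFm (fun y => lin (l y)) :=
  PFm.sum _ fun j _ => PFm.mul (PFm.C (h j)) (PFm.const _)

theorem PFm_Qs {s : (τ → k) → k} (h : PF s) : PFm (fun y => Qs (s y)) :=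
  PFm.add (PFm.const _) (PFm.mul (PFm.C h) (PFm.const _))

theorem PFm_secStd {A : (τ → k) → Matrix (Fin 4) (Fin 4) k} (h : ∀ i j, PF fun y => A y i j) :
    PFm (fun y => secStd (A y)) := by
  unfold secStd
  repeat' apply PFm.add
  all_goals exact PFm.mul (PFm.C (h _ _)) (PFm.const _)

theorem PFm_secS {A : (τ → k) → Matrix (Fin 4) (Fin 4) k} (h : ∀ i j, PF fun y => A y i j)
    (β : Fin 6 → k) : PFm (fun y => secS (A y) β) := by
  unfold secS
  repeat' apply PFm.add
  all_goals first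
    | exact PFm.mul (PFm.C (h _ _)) (PFm.const _)
    | exact PFm.const _

theorem PF_psi (f : ℕ) {g B : (τ → k) → Matrix (Fin 4) (Fin 4) k}
    (hg : ∀ i j, PF fun y => g y i j) (hB : ∀ i j, PF fun y => B y i j) (i j : Fin 4) :
    PF fun y => psi f (g y) (B y) i j := by
  apply PF.matrix_mul
  · intro i j
    apply PF.matrix_mul
    · intro i j
      exact PF.adjugate (M := fun y => fr (g y)) (fun i j => PF.fr hg i j) i j
    · intro i j
      unfold cutoff
      split_ifs
      · exact PF.const 0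
      · exact hB i j
  · exact hg

end polyfun

variable [CharP k 2]

theorem act_inv_cancel {g : Matrix (Fin 4) (Fin 4) k} (hg : IsUnit g.det)
    (U : MvPolynomial (Fin 4) k) : act g (act g⁻¹ U) = U := by
  rw [act_act, Matrix.nonsing_inv_mul _ hg, act_one]

theorem HW_std_add (A : Matrix (Fin 4) (Fin 4) k) (l : Fin 4 → k) :
    HW (Qstd k * (secStd A + lin l * Qstd k)) = A := by
  rw [mul_add, HW_add, HW_secStd, HW_mul_self Qstd_isHomogeneous, add_zero]

theorem HW_Qs_add {A : Matrix (Fin 4) (Fin 4) k} {β : Fin 6 → k} {s : k} (l : Fin 4 → k)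
    (h : kap A = s • β) : HW (Qs s * (secS A β + lin l * Qs s)) = A := by
  rw [mul_add, HW_add, HW_secS h, HW_mul_self (Qs_isHomogeneous s), add_zero]

/-- The pairs with smooth quadric and `p`-rank at most `f` form an irreducible set. -/
theorem irr_W [IsAlgClosed k] {f : ℕ} (hf : f ≤ 4) : Irr (W k f) := by
  let τ := (Fin 4 × Fin 4) ⊕ (Fin 4 × Fin 4) ⊕ (Fin 4 × Fin 4) ⊕ Fin 4
  let g : (τ → k) → Matrix (Fin 4) (Fin 4) k := fun y i j => y (Sum.inl (i, j))
  let h : (τ → k) → Matrix (Fin 4) (Fin 4) k := fun y i j => y (Sum.inr (Sum.inl (i, j)))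
  let B : (τ → k) → Matrix (Fin 4) (Fin 4) k :=
    fun y i j => y (Sum.inr (Sum.inr (Sum.inl (i, j))))
  let l : (τ → k) → Fin 4 → k := fun y j => y (Sum.inr (Sum.inr (Sum.inr j)))
  have hg : ∀ i j, PF fun y => g y i j := fun i j => PF.coord _
  have hh : ∀ i j, PF fun y => h y i j := fun i j => PF.coord _
  have hB : ∀ i j, PF fun y => B y i j := fun i j => PF.coord _
  have hl : ∀ j, PF fun y => l y j := fun j => PF.coord _
  let F : (τ → k) → MvPolynomial (Fin 4) k :=
    fun y => secStd (psi f (h y) (B y)) + lin (l y) * Qstd k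
  let φ : (τ → k) → (Mon 2 ⊕ Mon 3 → k) := fun y => par (act (g y) (Qstd k)) (act (g y) (F y))
  have hF : PFm F :=
    PFm.add (PFm_secStd (A := fun y => psi f (h y) (B y)) (PF_psi f hh hB))
      (PFm.mul (PFm_lin hl) (PFm.const _))
  have hφ : ∀ m, PF fun y => φ y m := by
    intro m
    cases m with
    | inl m => exact PFm.coeff (PFm.act hg (PFm.const _)) _
    | inr m => exact PFm.coeff (PFm.act hg hF) _
  let U : Set (τ → k) := {y | IsUnit (g y).det ∧ IsUnit (h y).det}
  have hU : Irr U := by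
    have h1 : Irr ((Set.univ : Set (τ → k)) ∩ U) := by
      apply Irr.inter_open irr_univ
      intro x _ hx
      obtain ⟨P, hP⟩ := PF.mul (PF.det hg) (PF.det hh)
      refine ⟨P, ?_, ?_⟩
      · rw [← hP]
        exact mul_ne_zero hx.1.ne_zero hx.2.ne_zero
      · intro y _ hy
        rw [← hP] at hy
        exact ⟨(left_ne_zero_of_mul hy).isUnit, (right_ne_zero_of_mul hy).isUnit⟩
    rwa [Set.univ_inter] at h1
  have himg : φ '' U = W k f := by
    ext c
    constructor
    · rintro ⟨y, ⟨hy1, hy2⟩, rfl⟩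
      have hFh : (F y).IsHomogeneous 3 := by
        apply IsHomogeneous.add (secStd_isHomogeneous _)
        exact (lin_isHomogeneous (l y)).mul Qstd_isHomogeneous
      have e1 : quadric (φ y) = act (g y) (Qstd k) :=
        quadric_par (act_isHomogeneous _ Qstd_isHomogeneous)
      have e2 : cubic (φ y) = act (g y) (F y) := cubic_par (act_isHomogeneous _ hFh)
      refine ⟨⟨g y, hy1, e1⟩, ?_⟩
      rw [e1, e2, prank_act hy1 Qstd_isHomogeneous hFh, prank]
      show (it (HW (Qstd k * (secStd (psi f (h y) (B y)) + lin (l y) * Qstd k))) 4).rank ≤ f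
      rw [HW_std_add]
      exact rank_psi hf hy2
    · rintro ⟨⟨g₀, hg₀, hc⟩, hr⟩
      have hF1 : (act g₀⁻¹ (cubic c)).IsHomogeneous 3 :=
        act_isHomogeneous _ (cubic_isHomogeneous c)
      obtain ⟨l₀, hl₀⟩ := exists_secStd hF1
      have e1 : act g₀ (act g₀⁻¹ (cubic c)) = cubic c := act_inv_cancel hg₀ _
      have hr' : (it (HW (Qstd k * act g₀⁻¹ (cubic c))) 4).rank ≤ f := by
        have := prank_act hg₀ (Qstd_isHomogeneous (R := k)) hF1
        rw [e1, ← hc] at this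
        rw [this] at hr
        exact hr
      obtain ⟨h₀, B₀, hh₀, hpsi⟩ := exists_psi hr'
      refine ⟨Sum.elim (fun p => g₀ p.1 p.2) (Sum.elim (fun p => h₀ p.1 p.2)
        (Sum.elim (fun p => B₀ p.1 p.2) l₀)), ⟨hg₀, hh₀⟩, ?_⟩
      show par (act g₀ (Qstd k)) (act g₀ (secStd (psi f h₀ B₀) + lin l₀ * Qstd k)) = c
      rw [← hpsi, ← hl₀, e1, ← hc, par_quadric_cubic]
  rw [← himg]
  exact hU.image hφ

/-- Pairs of small `p`-rank on a cone are limits of such pairs on smooth quadrics. -/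
theorem cone_mem_cl [IsAlgClosed k] {f : ℕ} (hf : f ≤ 4) {c : Mon 2 ⊕ Mon 3 → k}
    {g : Matrix (Fin 4) (Fin 4) k} (hg : IsUnit g.det) (hc : quadric c = act g (Qs 0))
    (hr : prank (quadric c) (cubic c) ≤ f) : c ∈ Cl (W k f) := by
  have hF1 : (act g⁻¹ (cubic c)).IsHomogeneous 3 := act_isHomogeneous _ (cubic_isHomogeneous c)
  obtain ⟨β, l, hl, hκ⟩ := exists_secS hF1
  have e1 : act g (act g⁻¹ (cubic c)) = cubic c := act_inv_cancel hg _
  set A₀ := HW (Qs (0 : k) * act g⁻¹ (cubic c)) with hA₀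
  have hr' : (it A₀ 4).rank ≤ f := by
    have := prank_act hg (Qs_isHomogeneous (0 : k)) hF1
    rw [e1, ← hc] at this
    rw [this] at hr
    exact hr
  intro G hG
  -- the deformation as a polynomial in `(s, A)`
  let τ := Option (Fin 4 × Fin 4)
  let s : (τ → k) → k := fun y => y none
  let A : (τ → k) → Matrix (Fin 4) (Fin 4) k := fun y i j => y (some (i, j))
  have hs : PF s := PF.coord _
  have hA : ∀ i j, PF fun y => A y i j := fun i j => PF.coord _
  let F : (τ → k) → MvPolynomial (Fin 4) k := fun y => secS (A y) β + lin l * Qs (s y)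
  have hF : PFm F := PFm.add (PFm_secS hA β) (PFm.mul (PFm.const _) (PFm_Qs hs))
  have hgc : ∀ i j, PF fun _ : τ → k => g i j := fun i j => PF.const _
  let φ : (τ → k) → (Mon 2 ⊕ Mon 3 → k) := fun y => par (act g (Qs (s y))) (act g (F y))
  have hφ : ∀ m, PF fun y => φ y m := by
    intro m
    cases m with
    | inl m => exact PFm.coeff (PFm.act (g := fun _ => g) hgc (PFm_Qs hs)) _
    | inr m => exact PFm.coeff (PFm.act (g := fun _ => g) hgc hF) _
  obtain ⟨P, hP⟩ := PF.comp hφ G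
  have hP' : ∀ y : τ → k, eval (φ y) G = eval y P := hP
  have key : eval (fun o => Option.elim o 0 (fun p : Fin 4 × Fin 4 => A₀ p.1 p.2)) P = 0 := by
    refine deform hf (x₀ := fun p : Fin 4 × Fin 4 => A₀ p.1 p.2) hr' hκ β ?_
    intro x hx s₀ hs₀ hκx
    rw [← hP']
    apply hG
    have e2 : φ (fun o => Option.elim o s₀ x) =
        par (act g (Qs s₀)) (act g (secS (mt x) β + lin l * Qs s₀)) := rfl
    have hFh : (secS (mt x) β + lin l * Qs s₀).IsHomogeneous 3 := by
      apply IsHomogeneous.add (secS_isHomogeneous _ _)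
      exact (lin_isHomogeneous l).mul (Qs_isHomogeneous s₀)
    rw [e2]
    have e3 : quadric (par (act g (Qs s₀)) (act g (secS (mt x) β + lin l * Qs s₀))) =
        act g (Qs s₀) := quadric_par (act_isHomogeneous _ (Qs_isHomogeneous s₀))
    have e4 : cubic (par (act g (Qs s₀)) (act g (secS (mt x) β + lin l * Qs s₀))) =
        act g (secS (mt x) β + lin l * Qs s₀) := cubic_par (act_isHomogeneous _ hFh)
    refine ⟨?_, ?_⟩
    · obtain ⟨h, hh, hQ⟩ := Qs_eq_act hs₀
      refine ⟨h * g, ?_, ?_⟩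
      · rw [Matrix.det_mul]
        exact hh.mul hg
      · rw [e3, hQ, act_act]
    · rw [e3, e4, prank_act hg (Qs_isHomogeneous s₀) hFh, prank, HW_Qs_add l hκx]
      exact hx
  rw [← hP'] at key
  have e5 : φ (fun o => Option.elim o 0 (fun p : Fin 4 × Fin 4 => A₀ p.1 p.2)) = c := by
    show par (act g (Qs 0)) (act g (secS A₀ β + lin l * Qs 0)) = c
    rw [← hl, e1, ← hc, par_quadric_cubic]
  rwa [e5] at key

theorem S_subset_cl [IsAlgClosed k] {f : ℕ} (hf : f ≤ 4) : S k f ⊆ Cl (W k f) := by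
  rintro c ⟨hs, hr⟩
  rcases std_or_cone (quadric_isHomogeneous c) (cubic_isHomogeneous c) hs with ⟨g, hg, hc⟩ |
    ⟨g, hg, hc⟩
  · exact subset_cl _ ⟨⟨g, hg, hc⟩, hr.le⟩
  · exact cone_mem_cl hf hg hc hr.le

theorem prank_le_of_mem_cl {f : ℕ} {c : Mon 2 ⊕ Mon 3 → k} (hc : c ∈ Cl (W k f)) :
    prank (quadric c) (cubic c) ≤ f :=
  rank_cl (M := fun c : Mon 2 ⊕ Mon 3 → k => it (HW (quadric c * cubic c)) 4) PF_it
    (fun _ hc => hc.2) hc

/-- Main theorem, irreducibility. -/
theorem irr_S [IsAlgClosed k] {f : ℕ} (hf : f ≤ 4) : Irr (S k f) := by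
  have h1 : S k f = Cl (W k f) ∩ {c | SmoothPair (quadric c) (cubic c) ∧
      f ≤ prank (quadric c) (cubic c)} := by
    ext c
    constructor
    · intro hc
      exact ⟨S_subset_cl hf hc, hc.1, hc.2.ge⟩
    · rintro ⟨hc, hs, hr⟩
      exact ⟨hs, le_antisymm (prank_le_of_mem_cl hc) hr⟩
  rw [h1]
  apply Irr.inter_open (irr_W hf).cl
  rintro c - ⟨hs, hr⟩
  obtain ⟨P, hP0, hP⟩ := smooth_open hs
  obtain ⟨P', hP0', hP'⟩ := rank_open
    (M := fun c : Mon 2 ⊕ Mon 3 → k => it (HW (quadric c * cubic c)) 4) PF_it hr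
  refine ⟨P * P', ?_, ?_⟩
  · rw [map_mul]
    exact mul_ne_zero hP0 hP0'
  · intro y _ hy
    rw [map_mul] at hy
    exact ⟨hP y (left_ne_zero_of_mul hy), hP' y (right_ne_zero_of_mul hy)⟩

/-- Main theorem, nonemptiness. -/
theorem nonempty_S {f : ℕ} (hf : f ≤ 4) : (S k f).Nonempty := by
  obtain ⟨Q, F, hQ, hF, hs, hr⟩ := exists_example k hf
  refine ⟨par Q F, ?_, ?_⟩
  · rw [quadric_par hQ, cubic_par hF]
    exact hs
  · rw [quadric_par hQ, cubic_par hF]
    exact hr

/-- The closure of a stratum contains the strata of smaller `p`-rank. -/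
theorem S_subset_cl_S [IsAlgClosed k] {f f' : ℕ} (hf : f ≤ 4) (hf' : f' ≤ f) :
    S k f' ⊆ Cl (S k f) := by
  -- `Cl (W k f)` is irreducible and contains both strata; `S k f` is open in it
  intro c hc
  have hc' : c ∈ Cl (W k f) := by
    rcases std_or_cone (quadric_isHomogeneous c) (cubic_isHomogeneous c) hc.1 with
      ⟨g, hg, hQ⟩ | ⟨g, hg, hQ⟩
    · exact subset_cl _ ⟨⟨g, hg, hQ⟩, hc.2.le.trans hf'⟩
    · exact cone_mem_cl hf hg hQ (hc.2.le.trans hf')
  intro G hG
  obtain ⟨c₀, hs₀, hr₀⟩ := nonempty_S (k := k) hf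
  obtain ⟨P, hP0, hP⟩ := smooth_open hs₀
  obtain ⟨P', hP0', hP'⟩ := rank_open
    (M := fun c : Mon 2 ⊕ Mon 3 → k => it (HW (quadric c * cubic c)) 4) PF_it
    (c₀ := c₀) (r := f) hr₀.ge
  have hZ : Irr (Cl (W k f)) := (irr_W hf).cl
  have hvan : ∀ x ∈ Cl (W k f), eval x (G * (P * P')) = 0 := by
    intro x hx
    rw [map_mul]
    by_cases h : eval x (P * P') = 0
    · rw [h, mul_zero]
    · rw [map_mul] at h
      have h1 : x ∈ S k f := ⟨hP x (left_ne_zero_of_mul h),
        le_antisymm (prank_le_of_mem_cl hx) (hP' x (right_ne_zero_of_mul h))⟩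
      rw [hG x h1, zero_mul]
  rcases hZ _ _ hvan with h | h
  · exact h c hc'
  · exfalso
    have h1 := h c₀ (S_subset_cl hf ⟨hs₀, hr₀⟩)
    rw [map_mul] at h1
    exact mul_ne_zero hP0 hP0' h1

end Pool.Agent.Lib.MP_60c747_ag
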